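import Pool.Agent.BoltzM.Spec.Bg

/-! The algebraic facts about the energy densities that the Picard iteration uses. -/

set_option autoImplicit false

open Pool.Agent.BoltzM.BoltzC Finset

noncomputable section

namespace Pool.Agent.BoltzM

variable [Dim]

/-- Facts from the module M4c. -/
structure AlgStmt : Prop where
  micro : ∀ (Q : CollOp) (n : ℕ) (θ : ℝ) (σ : E3 → ℝ) (F G : E3 → SV), 0 ≤ θ → Sm F → Sm G →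
    (∀ y, PP (F y) = 0) → ∀ x, |bb n θ σ F G x| ≤ √(bb n θ σ F F x) * √(yy Q n θ σ G x)
  YY_nonneg : ∀ (Q : CollOp) (n : ℕ) (θ : ℝ) (σ : E3 → ℝ) (G : E3 → SV), 0 ≤ θ →
    ∀ x, 0 ≤ YY Q n θ σ G x
  YY_add : ∀ (Q : CollOp) (n : ℕ) (θ : ℝ) (σ : E3 → ℝ) (G H : E3 → SV), 0 ≤ θ → Sm G → Sm H →
    ∀ x, YY Q n θ σ (fun y => G y + H y) x ≤ 2 * YY Q n θ σ G x + 2 * YY Q n θ σ H x
  YY_smul : ∀ (Q : CollOp) (n : ℕ) (θ : ℝ) (σ : E3 → ℝ) (G : E3 → SV) (a : ℝ), Sm G →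
    ∀ x, YY Q n θ σ (fun y => a • G y) x = a ^ 2 * YY Q n θ σ G x
  YY_cont : ∀ (Q : CollOp) (n : ℕ) (θ : ℝ) (σ : ℝ → E3 → ℝ) (G : ℝ → E3 → SV),
    (Continuous fun p : ℝ × E3 => σ p.1 p.2) → SmC G →
    Continuous fun p : ℝ × E3 => YY Q n θ (σ p.1) (G p.1) p.2
  YY_le_bb_yy : ∀ (Q : CollOp) (n : ℕ), ∃ C : ℝ, 0 < C ∧ ∀ (θ : ℝ) (σ : E3 → ℝ) (G : E3 → SV),
    0 ≤ θ → Sm G → ∀ x, YY Q n θ σ G x ≤ C * (bb n θ σ G G x + yy Q n θ σ G x)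
  YY_le_bb : ∀ Q : CollOp, ∃ (d : ℕ) (C : ℝ), 0 < C ∧ ∀ (n : ℕ) (θ : ℝ) (σ : E3 → ℝ)
    (G : E3 → SV), 0 ≤ θ → θ ≤ 1 → ∀ x, YY Q n θ σ G x ≤ C * bb (n + d) 1 σ G G x
  mono : ∀ (n n' : ℕ) (θ θ' : ℝ) (σ : E3 → ℝ) (G : E3 → SV), n ≤ n' → 0 ≤ θ → θ ≤ θ' →
    ∀ x, bb n θ σ G G x ≤ bb n' θ' σ G G x
  clm : ∀ (n : ℕ) (θ e : ℝ) (σ : E3 → ℝ) (G : E3 → SV) (A : SV →L[ℝ] SV), 0 ≤ θ → 0 ≤ e → Sm G →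
    (∀ f, nA n (A f) ≤ e * ip f f) →
    ∀ x, bb n θ σ (fun y => A (G y)) (fun y => A (G y)) x ≤ e * bb n θ σ G G x
  mic_tr : ∀ (K : ℕ → ℝ) (n : ℕ) (θ : ℝ), 0 < θ → θ ≤ 1 → ∃ C : ℝ, 0 < C ∧
    ∀ (F : Fld) (σ μ : E3 → ℝ) (W : E3 → SV), F.Reg → F.Bd K σ μ → (∀ x, 0 < σ x) →
      (∀ x, 0 < μ x) → Sm W → (∀ x, PP (W x) = W x) → ∀ x,
      bb n θ σ (fun y => F.tr W y - PP (F.tr W y)) (fun y => F.tr W y - PP (F.tr W y)) x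
        ≤ C * μ x ^ 2 * bb (n + 1) θ σ W W x
  smC_tr : ∀ (F : ℝ → Fld) (G : ℝ → E3 → SV), FldC F → SmC G → SmC fun s => (F s).tr (G s)
  per_tr : ∀ (F : Fld) (G : E3 → SV), F.Reg → Per G → Per (F.tr G)
  smC_per : ∀ (B : BgD) (φ : E3 → SV), Sm φ → SmC (B.per φ)

end Pool.Agent.BoltzM
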