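import Pool.Agent.BoltzM.Pic.Lin

/-! Balls of the iteration space, and the three forcing estimates at a fixed time. -/

set_option autoImplicit false

open Pool.Agent.BoltzM.BoltzC Finset

noncomputable section

namespace Pool.Agent.BoltzM.Pic

variable [Dim]

open KK (bb_nonneg continuous_bb bb_smul_left)

namespace Dat

variable (X : Dat)

/-- Energy and integrated dissipation are at most `a` after the time `s0`. -/
structure Bd (A s0 a : ℝ) (V : ℝ → E3 → SV) : Prop where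
  sm : SmC V
  per : ∀ s, Per (V s)
  ee : ∀ s, s0 ≤ s → X.EE X.n s (V s) (V s) ≤ a
  di : ∀ s, s0 ≤ s → ∫ t in s0..s, X.DD A t (V t) ≤ a

/-- The non-hydrodynamic part of the transport term. -/
def mic (s : ℝ) (W : E3 → SV) (x : E3) : SV := (X.B.fld s).tr W x - PP ((X.B.fld s).tr W x)

/-- The low norm. -/
def lo (s : ℝ) (G : E3 → SV) (x : E3) : ℝ := bb (X.n / 2 + X.Q.p) 1 (X.B.sig s) G G x

variable {X} {A s0 a b : ℝ} {V V' : ℝ → E3 → SV}

lemma DD_nonneg (hA : AlgStmt) (h : X.Base) (hA0 : 0 ≤ A) (s : ℝ) (G : E3 → SV) : 0 ≤ X.DD A s G :=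
  tint_nonneg fun x => mul_nonneg (mul_nonneg (om_pos s x).le (mul_nonneg hA0 (k1_pos h.ok s x).le))
    (yy_nonneg hA h s G x)

lemma cont_DD (hA : AlgStmt) (h : X.Base) (A : ℝ) (hV : SmC V) :
    Continuous fun s => X.DD A s (V s) :=
  continuous_tint (φ := fun s x => X.om s x * (A * X.B.k1 s x) * yy X.Q X.n X.θ (X.B.sig s) (V s) x)
    ((h.cont_om.mul (continuous_const.mul h.ok.sm_k1.cont)).mul (cont_yy hA h hV))

lemma c_DD (hA : AlgStmt) (h : X.Base) (A s : ℝ) {G : E3 → SV} (hG : Sm G) :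
    Continuous fun x => X.om s x * (A * X.B.k1 s x) * yy X.Q X.n X.θ (X.B.sig s) G x :=
  ((h.c_om s).mul (continuous_const.mul (h.c_k1 s))).mul (c_yy hA h s hG)

lemma DD_add_le (hA : AlgStmt) (h : X.Base) (hA0 : 0 ≤ A) (s : ℝ) {G H : E3 → SV} (hG : Sm G)
    (hH : Sm H) : X.DD A s (fun x => G x + H x) ≤ 2 * X.DD A s G + 2 * X.DD A s H := by
  refine tint_le_two (c_DD hA h A s (hG.add hH)) (c_DD hA h A s hG) (c_DD hA h A s hH) fun x => ?_
  have h1 := hA.YY_add X.Q X.n X.θ (X.B.sig s) _ _ h.θ_pos.le (hG.sub (hG.clm PP))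
    (hH.sub (hH.clm PP)) x
  have e : (fun y => G y + H y - PP (G y + H y)) = fun y => G y - PP (G y) + (H y - PP (H y)) :=
    funext fun y => by rw [map_add]; abel
  have := mul_le_mul_of_nonneg_left h1
    (mul_nonneg (om_pos (X := X) s x).le (mul_nonneg hA0 (k1_pos h.ok s x).le))
  simp only [yy, e]
  linarith

lemma DD_smul (hA : AlgStmt) (s c : ℝ) {G : E3 → SV} (hG : Sm G) :
    X.DD A s (fun x => c • G x) = c ^ 2 * X.DD A s G := by
  rw [DD, DD, ← tint_const_mul]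
  refine tint_congr fun x => ?_
  have h1 := hA.YY_smul X.Q X.n X.θ (X.B.sig s) _ c (hG.sub (hG.clm PP)) x
  simp only [yy, map_smul, ← smul_sub, h1]
  ring

lemma DD_hyd (hA : AlgStmt) (s : ℝ) {G : E3 → SV} (hG : ∀ x, PP (G x) = G x) : X.DD A s G = 0 := by
  have h1 := fun x => hA.YY_smul X.Q X.n X.θ (X.B.sig s) _ 0 (Sm.const (0 : SV)) x
  simp only [smul_zero, ne_eq, OfNat.ofNat_ne_zero, not_false_eq_true, zero_pow, zero_mul] at h1
  simp [DD, yy, hG, h1]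

lemma EE_add_le (h : X.Base) (n : ℕ) (s : ℝ) {G H : E3 → SV} (hG : Sm G) (hH : Sm H) :
    X.EE n s (fun x => G x + H x) (fun x => G x + H x) ≤ 2 * X.EE n s G G + 2 * X.EE n s H H :=
  En_add_le h.θ_pos.le (h.c_om s) (fun x => (om_pos s x).le) (h.c_sig s) hG hH

lemma EE_sub_le (h : X.Base) (n : ℕ) (s : ℝ) {G H : E3 → SV} (hG : Sm G) (hH : Sm H) :
    X.EE n s (fun x => G x - H x) (fun x => G x - H x) ≤ 2 * X.EE n s G G + 2 * X.EE n s H H :=
  En_sub_le h.θ_pos.le (h.c_om s) (fun x => (om_pos s x).le) (h.c_sig s) hG hH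

lemma EE_mono (hA : AlgStmt) (h : X.Base) {n n' : ℕ} (hn : n ≤ n') {θ' : ℝ} (hθ : X.θ ≤ θ') (s : ℝ)
    {G : E3 → SV} (hG : Sm G) : X.EE n s G G ≤ En n' θ' (X.om s) (X.B.sig s) G G := by
  refine (En_le_of_le (a := 1) (h.c_om s) (h.c_om s) (h.c_sig s) hG hG fun x => ?_).trans
    (one_mul _).le
  rw [one_mul]
  exact mul_le_mul_of_nonneg_left (hA.mono _ _ _ _ _ _ hn h.θ_pos.le hθ x) (om_pos s x).le

lemma Bd.nonneg (h : X.Base) (hV : X.Bd A s0 a V) : 0 ≤ a :=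
  (EE_nonneg h _ _ _).trans (hV.ee s0 le_rfl)

lemma Bd.mono (hV : X.Bd A s0 a V) (hab : a ≤ b) : X.Bd A s0 b V :=
  ⟨hV.sm, hV.per, fun s hs => (hV.ee s hs).trans hab, fun s hs => (hV.di s hs).trans hab⟩

lemma Bd.congr (hV : X.Bd A s0 a V) (e : ∀ s x, V s x = V' s x) : X.Bd A s0 a V' := by
  have : V = V' := funext fun s => funext (e s)
  exact this ▸ hV

lemma Bd.add (hA : AlgStmt) (h : X.Base) (hA0 : 0 ≤ A) (hV : X.Bd A s0 a V) (hV' : X.Bd A s0 b V') :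
    X.Bd A s0 (2 * a + 2 * b) fun s x => V s x + V' s x := by
  refine ⟨hV.sm.add hV'.sm, fun s => (hV.per s).map₂ (hV'.per s) (· + ·), fun s hs => ?_,
    fun s hs => ?_⟩
  · linarith [EE_add_le h X.n s (hV.sm.slice s) (hV'.sm.slice s), hV.ee s hs, hV'.ee s hs]
  · have c1 := cont_DD hA h A hV.sm
    have c2 := cont_DD hA h A hV'.sm
    have := intervalIntegral.integral_mono_on (μ := MeasureTheory.volume) hs
      ((cont_DD hA h A (hV.sm.add hV'.sm)).intervalIntegrable _ _)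
      (Continuous.intervalIntegrable (u := fun t => 2 * X.DD A t (V t) + 2 * X.DD A t (V' t))
        (by fun_prop) _ _) fun t _ => DD_add_le hA h hA0 t (hV.sm.slice t) (hV'.sm.slice t)
    rw [intervalIntegral.integral_add (Continuous.intervalIntegrable (by fun_prop) _ _)
      (Continuous.intervalIntegrable (by fun_prop) _ _), intervalIntegral.integral_const_mul,
      intervalIntegral.integral_const_mul] at this
    linarith [hV.di s hs, hV'.di s hs]

lemma Bd.neg (hA : AlgStmt) (hV : X.Bd A s0 a V) : X.Bd A s0 a fun s x => -V s x := by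
  refine ⟨hV.sm.neg, fun s => (hV.per s).map _, fun s hs => ?_, fun s hs => ?_⟩
  · exact (En_neg_neg (hV.sm.slice s)).trans_le (hV.ee s hs)
  · have := fun t => DD_smul (X := X) (A := A) hA t (-1) (hV.sm.slice t)
    simp only [neg_smul, one_smul, even_two, Even.neg_pow, one_pow, one_mul] at this
    simpa only [this] using hV.di s hs

lemma Bd.sub (hA : AlgStmt) (h : X.Base) (hA0 : 0 ≤ A) (hV : X.Bd A s0 a V) (hV' : X.Bd A s0 b V') :
    X.Bd A s0 (2 * a + 2 * b) fun s x => V s x - V' s x :=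
  (hV.add hA h hA0 (hV'.neg hA)).congr fun _ _ => (sub_eq_add_neg _ _).symm

lemma Bd.of_hyd (hA : AlgStmt) (h : X.Base) (sm : SmC V) (per : ∀ s, Per (V s))
    (hyd : ∀ s x, PP (V s x) = V s x) (ee : ∀ s, s0 ≤ s → X.EE (X.n + 1) s (V s) (V s) ≤ a) :
    X.Bd A s0 a V :=
  ⟨sm, per, fun s hs => (EE_mono hA h (Nat.le_succ _) le_rfl s (sm.slice s)).trans (ee s hs),
    fun s _ => by
      simpa only [fun t => DD_hyd (X := X) (A := A) hA t (hyd t), intervalIntegral.integral_zero]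
        using (EE_nonneg h _ _ _).trans (ee s0 le_rfl)⟩

lemma sm_mic (hA : AlgStmt) (h : X.Base) (hV : SmC V) : SmC fun s => X.mic s (V s) :=
  (hA.smC_tr _ _ h.ok.fldC hV).sub ((hA.smC_tr _ _ h.ok.fldC hV).clm PP)

lemma force_one (h : X.Base) (s : ℝ) {t : ℝ} (ht : 0 < t) {S u : E3 → SV} (hS : Sm S) (hu : Sm u) :
    2 * X.EE X.n s S u ≤ t * X.EE X.n s u u + t⁻¹ * X.EE X.n s S S := by
  rw [EE, En, ← tint_const_mul]
  refine tint_le_two (continuous_const.mul (cont_wbb (h.c_om s) (h.c_sig s) hS hu))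
    (cont_wbb (h.c_om s) (h.c_sig s) hu hu) (cont_wbb (h.c_om s) (h.c_sig s) hS hS) fun x => ?_
  have := mul_le_mul_of_nonneg_left (two_bb_le (n := X.n) (σ := X.B.sig s) (G := S) (H := u)
    h.θ_pos.le ht x) (om_pos (X := X) s x).le
  rw [div_eq_mul_inv] at this
  linarith

lemma two_sqrt_le {p q t : ℝ} (hp : 0 ≤ p) (hq : 0 ≤ q) (ht : 0 < t) :
    2 * (√p * √q) ≤ t * q + t⁻¹ * p := by
  have h1 : 0 ≤ t⁻¹ * (t * √q - √p) ^ 2 := by positivity
  have e : t⁻¹ * (t * √q - √p) ^ 2 = t * √q ^ 2 + t⁻¹ * √p ^ 2 - 2 * (√p * √q) := by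
    field_simp; ring
  rw [e, Real.sq_sqrt hp, Real.sq_sqrt hq] at h1
  linarith

lemma force_mic (hA : AlgStmt) (h : X.Base) (s : ℝ) {c D : ℝ} (hc : 0 < c) (hD : 0 ≤ D)
    (hA1 : 1 ≤ A) {W u : E3 → SV} (hW : Sm W) (hu : Sm u)
    (hm : ∀ x, bb X.n X.θ (X.B.sig s) (X.mic s W) (X.mic s W) x
      ≤ D * X.B.k1 s x * bb (X.n + 1) X.θ (X.B.sig s) W W x) :
    -2 * X.EE X.n s (X.mic s W) u ≤ c / 4 * X.DD A s u + 4 * D / c * X.EE (X.n + 1) s W W := by
  have sm : Sm (X.mic s W) := (sm_mic (V := fun _ => W) hA h hW.smC).slice s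
  rw [EE, En, ← tint_const_mul]
  refine tint_le_two (continuous_const.mul (cont_wbb (h.c_om s) (h.c_sig s) sm hu))
    (c_DD hA h A s hu) (cont_wbb (h.c_om s) (h.c_sig s) hW hW) fun x => ?_
  have hk := k1_pos h.ok s x
  have h1 := hA.micro X.Q X.n X.θ (X.B.sig s) _ u h.θ_pos.le sm hu (fun y => PP_sub_PP _) x
  have h2 := two_sqrt_le (bb_nonneg (n := X.n) (σ := X.B.sig s) (G := X.mic s W) h.θ_pos.le x)
    (yy_nonneg hA h s u x) (show 0 < c / 4 * (A * X.B.k1 s x) by positivity)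
  have hb := bb_nonneg (n := X.n + 1) (σ := X.B.sig s) (G := W) h.θ_pos.le x
  have h3 : (c / 4 * (A * X.B.k1 s x))⁻¹ * bb X.n X.θ (X.B.sig s) (X.mic s W) (X.mic s W) x
      ≤ 4 * D / c * bb (X.n + 1) X.θ (X.B.sig s) W W x := by
    rw [inv_mul_le_iff₀ (by positivity)]
    refine (hm x).trans ?_
    have e : c / 4 * (A * X.B.k1 s x) * (4 * D / c * bb (X.n + 1) X.θ (X.B.sig s) W W x)
        = A * (D * X.B.k1 s x * bb (X.n + 1) X.θ (X.B.sig s) W W x) := by field_simp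
    rw [e]
    exact le_mul_of_one_le_left (by positivity) hA1
  have := mul_le_mul_of_nonneg_left (show -2 * bb X.n X.θ (X.B.sig s) (X.mic s W) u x ≤ _ + _ from
    le_trans (by linarith [neg_abs_le (bb X.n X.θ (X.B.sig s) (X.mic s W) u x)])
      (h2.trans (add_le_add le_rfl h3))) (om_pos (X := X) s x).le
  linarith

lemma c_nl (hA : AlgStmt) (h : X.Base) (A s : ℝ) {G H : E3 → SV} (hG : Sm G) (hH : Sm H) :
    Continuous fun x => X.om s x * (A * X.B.k1 s x * X.lo s G x * YY X.Q X.n X.θ (X.B.sig s) H x) :=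
  (h.c_om s).mul (((continuous_const.mul (h.c_k1 s)).mul (continuous_bb (h.c_sig s) hG hG)).mul
    (c_YY hA h s hH))

lemma force_gam (hA : AlgStmt) (h : X.Base) (s : ℝ) {c D : ℝ} (hc : 0 < c) (hA0 : 0 < A)
    {G H u : E3 → SV} (hG : Sm G) (hH : Sm H) (hu : Sm u)
    (hm : ∀ x, |bb X.n X.θ (X.B.sig s) (fun y => (A * X.B.k1 s y) • X.Q.G (G y) (H y)) u x|
      ≤ D * (A * X.B.k1 s x) * (√(X.lo s G x) * √(YY X.Q X.n X.θ (X.B.sig s) H x)
        + √(X.lo s H x) * √(YY X.Q X.n X.θ (X.B.sig s) G x)) * √(yy X.Q X.n X.θ (X.B.sig s) u x)) :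
    2 * X.EE X.n s (fun y => (A * X.B.k1 s y / 2) • X.Q.G (G y) (H y)) u ≤ c / 4 * X.DD A s u
      + 2 * D ^ 2 / c *
        (tint (fun x => X.om s x * (A * X.B.k1 s x * X.lo s G x * YY X.Q X.n X.θ (X.B.sig s) H x))
        + tint fun x => X.om s x *
          (A * X.B.k1 s x * X.lo s H x * YY X.Q X.n X.θ (X.B.sig s) G x)) := by
  have sm : Sm fun y => (A * X.B.k1 s y) • X.Q.G (G y) (H y) :=
    ((h.ok.sm_k1.slice s).const_smul A).smul (Sm.bilin _ X.Q.cont hG hH)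
  have e : (fun y => (A * X.B.k1 s y / 2) • X.Q.G (G y) (H y))
      = fun y => (1 / 2 : ℝ) • (A * X.B.k1 s y) • X.Q.G (G y) (H y) :=
    funext fun y => by rw [smul_smul]; congr 1; ring
  rw [e, EE, En_smul_left sm, ← mul_assoc, show (2 : ℝ) * (1 / 2) = 1 by norm_num, one_mul,
    ← tint_add (c_nl hA h A s hG hH) (c_nl hA h A s hH hG)]
  refine tint_le_two (cont_wbb (h.c_om s) (h.c_sig s) sm hu) (c_DD hA h A s hu)
    ((c_nl hA h A s hG hH).add (c_nl hA h A s hH hG)) fun x => ?_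
  have hk := mul_pos hA0 (k1_pos h.ok s x)
  have q1 := Real.mul_self_sqrt (mul_nonneg (bb_nonneg (n := X.n / 2 + X.Q.p) (σ := X.B.sig s)
    (G := G) zero_le_one x) (hA.YY_nonneg X.Q X.n X.θ (X.B.sig s) H h.θ_pos.le x))
  have q2 := Real.mul_self_sqrt (mul_nonneg (bb_nonneg (n := X.n / 2 + X.Q.p) (σ := X.B.sig s)
    (G := H) zero_le_one x) (hA.YY_nonneg X.Q X.n X.θ (X.B.sig s) G h.θ_pos.le x))
  have q3 := Real.mul_self_sqrt (yy_nonneg hA h s u x)
  have h1 := (le_abs_self _).trans (hm x)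
  rw [Real.sqrt_mul (bb_nonneg zero_le_one x)] at q1 q2
  unfold lo at h1 ⊢
  set p := √(bb (X.n / 2 + X.Q.p) 1 (X.B.sig s) G G x) * √(YY X.Q X.n X.θ (X.B.sig s) H x)
  set q := √(bb (X.n / 2 + X.Q.p) 1 (X.B.sig s) H H x) * √(YY X.Q X.n X.θ (X.B.sig s) G x)
  set y := √(yy X.Q X.n X.θ (X.B.sig s) u x)
  have h2 : D * (p + q) * y ≤ c / 4 * (y * y) + 2 * D ^ 2 / c * (p * p + q * q) := by
    have e2 : c / 4 * (y * y) + 2 * D ^ 2 / c * (p * p + q * q) - D * (p + q) * y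
        = ((c / 2 * y - D * (p + q)) ^ 2 + D ^ 2 * (p - q) ^ 2) / c := by field_simp; ring
    have : 0 ≤ ((c / 2 * y - D * (p + q)) ^ 2 + D ^ 2 * (p - q) ^ 2) / c := by positivity
    linarith
  rw [q1, q2, q3] at h2
  have h3 := mul_le_mul_of_nonneg_left h2 (mul_pos (om_pos (X := X) s x) hk).le
  have h4 := mul_le_mul_of_nonneg_left h1 (om_pos (X := X) s x).le
  linarith

end Dat

end Pool.Agent.BoltzM.Pic
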