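import Pool.Agent.BoltzM.Pic.Hot

/-! The three linear couplings between the slow part and the fast part. -/

set_option autoImplicit false

open Pool.Agent.BoltzM.BoltzC Finset

noncomputable section

namespace Pool.Agent.BoltzM.Pic

variable [Dim]

open HE

namespace DatH

variable {X : DatH} {q : ℕ}

lemma cpl_fast (h : X.BaseH q) {A t c : ℝ} (hA : 0 < A) (ht : 0 < t) (s : ℝ) {S u : E3 → SV}
    (hS : Sm S) (hu : Sm u) {ψ : E3 → ℝ} (hψ : Continuous ψ)
    (hb : ∀ x, X.omh s x * bh X.n X.θh q (X.B.sig s) S S x ≤ X.B.k1 s x * (c * ψ x)) :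
    2 * X.EH q A s S u ≤ t * X.DH q A s u + t⁻¹ * (c * tint ψ) := by
  rw [EH, DH, EnH, ← mul_assoc, ← mul_assoc, ← mul_assoc, ← tint_const_mul]
  refine tint_le_two (continuous_const.mul (cont_wbh (c_omh h.base s) (h.base.c_sig s) hS hu))
    (c_DH h q A s hu) hψ fun x => ?_
  have hk := k1_pos h.base.ok s x
  have hω := omh_pos h.base s x
  have h1 := two_bh_le (n := X.n) (q := q) (σ := X.B.sig s) (G := S) (H := u) h.θ_pos.le
    (show 0 < t * (A * X.B.k1 s x) by positivity) x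
  have h2 := bh_le_YH X.P (q := q) (σ := X.B.sig s) (G := u) h.θ_pos.le
    (le_trans (Nat.le_add_right _ _) h.hq) (by linarith) x
  have h3 := mul_le_mul_of_nonneg_left h1 (mul_pos hA hω).le
  have h4 := mul_le_mul_of_nonneg_left h2
    (show 0 ≤ A * X.omh s x * (t * (A * X.B.k1 s x)) by positivity)
  have h5 : A * X.omh s x * (bh X.n X.θh q (X.B.sig s) S S x / (t * (A * X.B.k1 s x)))
      ≤ t⁻¹ * c * ψ x := by
    rw [← mul_div_assoc, div_le_iff₀ (by positivity), mul_assoc]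
    refine (mul_le_mul_of_nonneg_left (hb x) hA.le).trans (le_of_eq ?_)
    field_simp
  linarith

lemma cpl_slow (h : X.BaseH q) {t c : ℝ} (ht : 0 < t) (s : ℝ) {S u : E3 → SV}
    (hS : Sm S) (hu : Sm u) {ψ : E3 → ℝ} (hψ : Continuous ψ)
    (hb : ∀ x, X.om s x * bb X.n X.θ (X.B.sig s) S S x ≤ X.B.mu s x * (c * ψ x)) :
    2 * X.EE X.n s S u ≤ t * X.MM s u + t⁻¹ * (c * tint ψ) := by
  rw [Dat.EE, Dat.MM, En, ← mul_assoc, ← tint_const_mul]
  refine tint_le_two (continuous_const.mul (cont_wbb (h.base.c_om s) (h.base.c_sig s) hS hu))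
    (((h.base.ok.sm_mu.cont_slice s).mul (h.base.c_om s)).mul
      (KK.continuous_bb (h.base.c_sig s) hu hu)) hψ fun x => ?_
  have hk := Lin.mu_pos X.B s x
  have hω := Dat.om_pos (X := X.toDat) s x
  have h1 := two_bb_le (n := X.n) (σ := X.B.sig s) (G := S) (H := u) h.base.θ_pos.le
    (mul_pos ht hk) x
  have h3 := mul_le_mul_of_nonneg_left h1 hω.le
  have h5 : X.om s x * (bb X.n X.θ (X.B.sig s) S S x / (t * X.B.mu s x)) ≤ t⁻¹ * c * ψ x := by
    rw [← mul_div_assoc, div_le_iff₀ (by positivity)]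
    refine (hb x).trans (le_of_eq ?_)
    field_simp
  linarith

lemma cpl_int {r : ℝ → ℝ} {s0 s a c : ℝ} (hc : 0 ≤ c) (h : ∫ t in s0..s, r t ≤ a) :
    ∫ t in s0..s, c * r t ≤ c * a := by
  rw [intervalIntegral.integral_const_mul]
  exact mul_le_mul_of_nonneg_left h hc

theorem cpl_H (hA : AlgStmt) (hC : CplStmt) {X : DatH} {q : ℕ} (h : X.BaseH q) :
    ∃ C s3 : ℝ, 1 ≤ C ∧ X.Cpl q C s3 := by
  obtain ⟨K, lam, s1, -, hs1, HK⟩ := h.base.ok.hyp
  obtain ⟨Ck, hCk, hw⟩ := wt_facts h.base.ok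
  have hq : 2 * X.n ≤ q := le_trans (Nat.le_add_right _ _) h.hq
  obtain ⟨C1, p1, h1⟩ := hC.ds X.Q K X.n X.θ X.θh q h.base.θ_pos h.base.θ_le h.θ_pos.le h.θ_le
  obtain ⟨C2, p2, h2⟩ := hC.jw K X.n X.θh q h.θ_pos h.θ_le
  obtain ⟨C3, p3, h3⟩ := hC.sq K X.n X.θ X.θh q h.base.θ_pos.le h.base.θ_le h.θ_pos h.θ_le
    (by exact_mod_cast hq)
  have p4 : 0 < C1 * Ck := mul_pos p1 hCk
  have p5 : 0 ≤ C3 * X.N ^ 2 := by positivity
  have sk := h.base.ok.sm_k1
  refine ⟨1 + C1 * Ck + C2 + C3 * X.N ^ 2, s1, by linarith, fun A s0 a V hA1 hs0 hV => ?_,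
    fun A s0 a ζ H hA1 hs0 hH => ?_, fun A s0 a H hA1 hs0 hH => ?_⟩
  · have hA0 : 0 < A := by linarith
    have sS := h.base.ok.sm_mu.smul (hV.sm.clm Ds)
    have ha := hV.nonneg h.base
    refine SrcH.mono (a := C1 * Ck / A * a) ⟨sS, fun s => C1 * Ck / A * X.DD A s (V s),
      continuous_const.mul (Dat.cont_DD hA h.base A hV.sm),
      fun s => mul_nonneg (by positivity) (Dat.DD_nonneg hA h.base hA0.le _ _),
      fun s hs => ⟨cpl_int (by positivity) (hV.di s hs), fun t ht u hu => ?_⟩⟩ ?_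
    · refine cpl_fast h hA0 ht s (sS.slice s) hu (Dat.c_DD hA h.base A s (hV.sm.slice s))
        fun x => ?_
      have hm := Lin.mu_pos X.B s x
      have hk := k1_pos h.base.ok s x
      have hω := Dat.om_pos (X := X.toDat) s x
      have hy := Dat.yy_nonneg hA h.base s (V s) x
      have e1 := h1 _ _ _ (h.base.ok.sm_mu.slice s) (hV.sm.slice s) (Lin.sig_pos _ s)
        (fun y => (Lin.mu_pos X.B s y).le) (HK s (hs0.trans hs)).2.2.2.1 x
      have e2 := mul_le_mul_of_nonneg_left (hw s (hs1.trans (hs0.trans hs)) x).1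
        (show 0 ≤ C1 * X.om s x * X.B.k1 s x * yy X.Q X.n X.θ (X.B.sig s) (V s) x by positivity)
      refine (mul_le_mul_of_nonneg_left e1 (omh_pos h.base s x).le).trans
        (le_trans (le_of_eq ?_) (e2.trans (le_of_eq ?_)))
      · rw [omh_eq, kr]; field_simp
      · field_simp
    · rw [div_mul_eq_mul_div]
      exact div_le_div_of_nonneg_right (mul_le_mul_of_nonneg_right (by linarith) ha) hA0.le
  · have hA0 : 0 < A := by linarith
    have sT := (sk.const_smul A).smul (hH.sm.clm (Jw 4))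
    have sS := sT.const_smul ζ
    have ha := hH.nonneg
    refine SrcH.mono (a := C2 * ζ ^ 2 * a) ⟨sS, fun s => C2 * ζ ^ 2 * X.DH (q + 8) A s (H s),
      continuous_const.mul (cont_DH h _ A hH.sm),
      fun s => mul_nonneg (by positivity) (DH_nonneg h hA0.le _ _ _),
      fun s hs => ⟨cpl_int (by positivity) (hH.di s hs), fun t ht u hu => ?_⟩⟩ ?_
    · simp only [DH.eq_1 X (q + 8), ← mul_assoc (C2 * ζ ^ 2)]
      refine cpl_fast h hA0 ht s (sS.slice s) hu (c_DH h _ A s (hH.sm.slice s)) fun x => ?_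
      have hk := k1_pos h.base.ok s x
      have hω := omh_pos h.base s x
      have e1 := h2 _ _ _ ((sk.slice s).const_smul A) (hH.sm.slice s) (Lin.sig_pos _ s)
        (fun y => (mul_pos hA0 (k1_pos h.base.ok s y)).le)
        (symBd_mul (sk.slice s) (HK s (hs0.trans hs)).2.1 hA0.le) x
      have e2 := bh_le_YH X.P (n := X.n) (q := (q : ℝ) + 8) (r := q + 8) (σ := X.B.sig s)
        (G := H s) h.θ_pos.le (by omega) (by push_cast; linarith) x
      rw [bh_smul_smul (sT.slice s)]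
      simp only [smul_eq_mul] at e1 ⊢
      have e3 := mul_le_mul_of_nonneg_left (e1.trans (mul_le_mul_of_nonneg_left e2 (by positivity)))
        (show 0 ≤ X.omh s x * ζ ^ 2 by positivity)
      linarith
    · exact mul_le_mul_of_nonneg_right (mul_le_mul_of_nonneg_right (by linarith) (sq_nonneg _)) ha
  · have hA0 : 0 < A := by linarith
    have sT := (sk.const_smul A).smul (hH.sm.clm Sq)
    have e0 : (fun s x => (A * X.B.k1 s x * X.N) • Sq (H s x))
        = fun s x => X.N • (A • X.B.k1 s x) • Sq (H s x) :=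
      funext fun s => funext fun x => by rw [smul_smul, smul_eq_mul, mul_comm]
    have sS := sT.const_smul X.N
    have ha := hH.nonneg
    rw [e0]
    refine SrcV_mono (a := C3 * X.N ^ 2 * a) ⟨sS, fun s => C3 * X.N ^ 2 * X.DH q A s (H s),
      continuous_const.mul (cont_DH h _ A hH.sm),
      fun s => mul_nonneg p5 (DH_nonneg h hA0.le _ _ _),
      fun s hs => ⟨cpl_int p5 (hH.di s hs), fun t ht u hu => ?_⟩⟩ ?_
    · simp only [DH, ← mul_assoc (C3 * X.N ^ 2)]
      refine cpl_slow h ht s (sS.slice s) hu (c_DH h _ A s (hH.sm.slice s)) fun x => ?_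
      have hm := Lin.mu_pos X.B s x
      have hk := k1_pos h.base.ok s x
      have hω := Dat.om_pos (X := X.toDat) s x
      have e1 := h3 _ _ _ ((sk.slice s).const_smul A) (hH.sm.slice s) (Lin.sig_pos _ s)
        (fun y => (mul_pos hA0 (k1_pos h.base.ok s y)).le)
        (symBd_mul (sk.slice s) (HK s (hs0.trans hs)).2.1 hA0.le) x
      have e2 := bh_le_YH X.P (n := X.n) (q := q) (r := q) (σ := X.B.sig s)
        (G := H s) h.θ_pos.le hq (by linarith) x
      rw [bb_smul_smul (sT.slice s)]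
      simp only [smul_eq_mul] at e1 ⊢
      have e3 := mul_le_mul_of_nonneg_left (e1.trans (mul_le_mul_of_nonneg_left e2 (by positivity)))
        (show 0 ≤ X.om s x * X.N ^ 2 by positivity)
      refine le_trans (le_of_eq (mul_assoc _ _ _).symm) (e3.trans (le_of_eq ?_))
      rw [omh_eq, kr]
      field_simp
    · exact mul_le_mul_of_nonneg_right (by linarith) ha

end DatH

end Pool.Agent.BoltzM.Pic
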