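import Pool.Agent.BoltzM.Pic.Hot

/-! The linear energy inequality and the pointwise bounds for the fast part. -/

set_option autoImplicit false

open Pool.Agent.BoltzM.BoltzC Finset

noncomputable section

namespace Pool.Agent.BoltzM.Pic.DatH

variable [Dim]

open HE

lemma c_omHa {X : Dat} (h : X.Base) (a s : ℝ) : Continuous (X.B.omH a s) :=
  (h.ok.sm_omH a).sm.cont_slice s

lemma omHa_pos {X : Dat} (h : X.Base) (a s : ℝ) (x : E3) : 0 < X.B.omH a s x :=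
  mul_pos (Lin.om_pos _ _ _ _) (div_pos (k1_pos h.ok s x) (Lin.mu_pos _ s x))

lemma tint_omh {X : DatH} (h : X.Base) (s : ℝ) {ψ : E3 → ℝ} (hψ : Continuous ψ) :
    tint (fun x => X.omh s x * ψ x) = tint (fun x => X.B.omH 0 s x * ψ x)
      + Real.exp (2 * X.δ * s) * tint fun x => X.B.omH X.B.eta s x * ψ x := by
  have h0 := c_omHa h 0 s
  have h1 := c_omHa h X.B.eta s
  rw [← tint_const_mul, ← tint_add (by fun_prop) (by fun_prop)]
  exact tint_congr fun x => by rw [omh]; ring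

lemma EH_split {X : DatH} (h : X.Base) (q : ℕ) (A s : ℝ) {G H : E3 → SV} (hG : Sm G) (hH : Sm H) :
    X.EH q A s G H = A * (EnH X.n X.θh q (X.B.omH 0 s) (X.B.sig s) G H
      + Real.exp (2 * X.δ * s) * EnH X.n X.θh q (X.B.omH X.B.eta s) (X.B.sig s) G H) :=
  congrArg (A * ·) (tint_omh h s (continuous_bh (h.c_sig s) hG hH))

theorem lin_H (h4 : M4HStmt) (X0 : Dat) (h : X0.Base) (hd : X0.δ ≤ X0.B.eta) (P : HOp X0.Q) (q : ℕ)
    (hq : 2 * X0.n + P.q0 ≤ q) : ∃ N0 : ℝ, ∀ N, N0 ≤ N → ∃ θ0 : ℝ, 0 < θ0 ∧ θ0 ≤ 1 ∧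
      ∀ θh, 0 < θh → θh ≤ θ0 → ∃ c A0 s2 : ℝ, 0 < c ∧ (DatH.mk X0 P θh N).LinH q c A0 s2 := by
  obtain ⟨K, lam, s1, hlam, hs1, H⟩ := h.ok.hyp
  obtain ⟨Ck, hCk, hw⟩ := wt_facts h.ok
  obtain ⟨N0, h4⟩ := h4 X0.Q P K X0.n q hq
  refine ⟨N0, fun N hN => ?_⟩
  obtain ⟨θ0, t0, t1, h4⟩ := h4 N hN
  refine ⟨θ0, t0, t1, fun θh th0 th1 => ?_⟩
  obtain ⟨A0, c, hA0, hc, h4⟩ := h4 θh th0 th1
  refine ⟨c, A0 * Ck, s1, hc, fun A s0 η a u u' S hA hs0 hη ha hS hu => ?_⟩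
  set X : DatH := DatH.mk X0 P θh N with hX
  have hb : X.Base := h
  have hη0 := h.ok.eta_pos
  have hA1 : 0 ≤ A := le_trans (by positivity) hA
  obtain ⟨E0, c0, d0, h0⟩ := h4 _ _ _ _ u u' (h.ok.sm_omH 0) h.ok.sm_sig hu.smd hu.per
  obtain ⟨E1, c1, d1, h1⟩ := h4 _ _ _ _ u u' (h.ok.sm_omH X0.B.eta) h.ok.sm_sig hu.smd hu.per
  have ce : Continuous fun s => EnH X0.n θh q (X0.B.omH X0.B.eta s) (X0.B.sig s) (u s) (u s) :=
    continuous_iff_continuousAt.2 fun s => (d1 s).continuousAt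
  refine ⟨fun s => A * (E0 s + Real.exp (2 * X0.δ * s) * (E1 s + 2 * X0.δ *
    EnH X0.n θh q (X0.B.omH X0.B.eta s) (X0.B.sig s) (u s) (u s))), by fun_prop, fun s => ?_,
    fun s hs => ?_⟩
  · simp only [fun t => EH_split hb q A t (hu.smd.sm.slice t) (hu.smd.sm.slice t)]
    refine (((d0 s).add (((hasDerivAt_id s).const_mul (2 * X0.δ)).exp.mul (d1 s))).const_mul
      A).congr_deriv ?_
    simp only [id]
    ring
  have hs' : s1 ≤ s := hs0.trans hs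
  have su := hu.smd.sm.slice s
  have hk := h.ok.sm_k1.slice s
  have hk' : Sm fun x => A * X0.B.k1 s x := hk.const_smul A
  have sG : Sm fun x => (A * X0.B.k1 s x) • X0.Q.G1 (a s x) (u s x) :=
    hk'.smul (Sm.bilin _ X0.Q.cont1 (ha.slice s) su)
  obtain ⟨b1, b2, -, -, b5⟩ := H s hs'
  have hμ : ∀ x, A0 * X0.B.mu s x ≤ A * X0.B.k1 s x := fun x => by
    have e1 := mul_le_mul_of_nonneg_left (hw s (hs1.trans hs') x).1 hA0.le
    have e3 := mul_le_mul_of_nonneg_right hA (k1_pos h.ok s x).le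
    linarith
  have a0 := h0 s lam η (X0.B.fld s) (X0.B.mu s) _ (fun x => A * X0.B.k1 s x) hlam.le hη
    (h.ok.fldC.reg s) b1 (b5 0 le_rfl hη0.le) (continuous_const.mul (c_omHa h 0 s)) hk'
    (symBd_mul hk b2 hA1) hμ
  have a1 := h1 s lam η (X0.B.fld s) (X0.B.mu s) _ (fun x => A * X0.B.k1 s x) hlam.le hη
    (h.ok.fldC.reg s) b1 (b5 _ hη0.le le_rfl) (continuous_const.mul (c_omHa h _ s)) hk'
    (symBd_mul hk b2 hA1) hμ
  have e : (fun x => u' s x + (X0.B.fld s).tr (u s) x + (A * X0.B.k1 s x) •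
      (X0.Q.L (u s x) + N • Sq (u s x) + η • Jw 4 (u s x)))
      = fun x => S s x + (A * X0.B.k1 s x) • X0.Q.G1 (a s x) (u s x) :=
    funext fun x => eq_add_of_sub_eq (hu.eqn s hs x)
  rw [e, EnH_add_left (c_omHa h _ s) (h.c_sig s) (hS.slice s) sG su] at a0 a1
  simp only [mul_assoc (2 * X0.B.eta), mul_assoc (2 * (0 : ℝ)), tint_const_mul,
    mul_assoc (X0.B.omH _ s _)] at a0 a1
  have a7 : X.DH q A s (u s) = A * (tint (fun x => X0.B.omH 0 s x *
      (A * X0.B.k1 s x * YH P X0.n θh q (X0.B.sig s) (u s) x)) + Real.exp (2 * X0.δ * s) *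
      tint fun x => X0.B.omH X0.B.eta s x *
        (A * X0.B.k1 s x * YH P X0.n θh q (X0.B.sig s) (u s) x)) := by
    simp only [DH, mul_assoc (X.omh s _)]
    exact congrArg (A * ·) (tint_omh hb s
      ((continuous_const.mul (h.c_k1 s)).mul (continuous_YH _ (h.c_sig s) su)))
  rw [a7, EH_split hb q A s (hS.slice s) su, EH_split hb q A s sG su]
  have e10 : 0 ≤ EnH X0.n θh q (X0.B.omH X0.B.eta s) (X0.B.sig s) (u s) (u s) :=
    EnH_nonneg th0.le fun x => (omHa_pos h _ s x).le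
  have a2 := mul_le_mul_of_nonneg_right hd e10
  have hp := (Real.exp_pos (2 * X0.δ * s)).le
  have a3 := mul_le_mul_of_nonneg_left a0 hA1
  have a4 := mul_le_mul_of_nonneg_left a1 (mul_nonneg hA1 hp)
  have a5 := mul_le_mul_of_nonneg_left a2 (mul_nonneg hA1 hp)
  unfold EnH at *
  linarith

theorem sob_H (hS : SobHStmt) (hC : CplStmt) {X : DatH} {q : ℕ} {ρ CS0 s0 : ℝ} (h : X.BaseH q)
    (h0 : X.Sob CS0 s0) (hCS0 : 0 < CS0) (hρ : ρ ≤ 2 * X.δ - X.B.kap) :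
    ∃ CS s1 : ℝ, 0 < CS ∧ 0 ≤ s1 ∧ X.SobH q ρ CS s1 := by
  have hb := h.base
  have hn : dd ≤ X.n := by have := h.hn; omega
  obtain ⟨K, lam, s1, -, hs1, H⟩ := hb.ok.hyp
  obtain ⟨Ck, hCk, hw⟩ := wt_facts hb.ok
  obtain ⟨Sg, -, hSg⟩ := Lin.sig_le _ hb.ok
  obtain ⟨C, hC0, hS⟩ := hS (max (K 1) Sg) X.n X.θh q hn h.θ_pos h.θ_le
  obtain ⟨Cb, hCb, hB⟩ := hC.bhb (X.n - dd) 1 1 (q - 2 * dd) one_pos le_rfl zero_le_one le_rfl
  refine ⟨Cb * CS0 + Ck * C + Ck * (Ck * C), max s0 s1, by positivity,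
    hs1.trans (le_max_right _ _), fun s hs G hG pG x => ?_⟩
  have hs' : s1 ≤ s := (le_max_right _ _).trans hs
  have hs0 : 0 ≤ s := hs1.trans hs'
  have key : ∀ a, 0 ≤ a → a ≤ X.B.eta →
      X.B.sig s x ^ dd * X.B.om a s x * (X.kr s x * loH X.n q (X.B.sig s) G x)
      ≤ C * EnH X.n X.θh q (X.B.omH a s) (X.B.sig s) G G := fun a ha ha1 => by
    have h3 := (H s hs').2.2.2.2 a ha ha1
    refine le_trans (le_of_eq ?_) (hS _ _ G (Dat.slow_mono h3.hω (le_max_left _ _))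
      (Dat.slow_mono h3.hσ (le_max_left _ _))
      (fun y => (hSg s hs0 y).trans (le_max_right _ _)) hG pG x)
    simp only [BgD.omH, kr]
    ring
  obtain ⟨w1, -, w3, w4⟩ := hw s hs0 x
  have l0 : 0 ≤ loH X.n q (X.B.sig s) G x := loH_nonneg x
  have k0 := kr_pos hb s x
  have l1 := mul_nonneg k0.le l0
  have e0 : 0 ≤ EnH X.n X.θh q (X.B.omH 0 s) (X.B.sig s) G G :=
    EnH_nonneg h.θ_pos.le fun y => (omHa_pos hb _ s y).le
  have e1 : 0 ≤ EnH X.n X.θh q (X.B.omH X.B.eta s) (X.B.sig s) G G :=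
    EnH_nonneg h.θ_pos.le fun y => (omHa_pos hb _ s y).le
  have hp := Real.exp_pos (2 * X.δ * s)
  have eE := EH_split hb q 1 s hG hG
  rw [one_mul] at eE
  have E0 := EH_nonneg h zero_le_one q s G
  have p3 : X.kr s x * loH X.n q (X.B.sig s) G x ≤ Ck * C * X.EH q 1 s G G := by
    have a1 := mul_le_mul_of_nonneg_right w3 l1
    have a2 := mul_le_mul_of_nonneg_left (key 0 le_rfl hb.ok.eta_pos.le) hCk.le
    have a3 : 0 ≤ Ck * C * (Real.exp (2 * X.δ * s) *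
      EnH X.n X.θh q (X.B.omH X.B.eta s) (X.B.sig s) G G) := by positivity
    rw [eE]
    linarith
  have m1 : 0 ≤ Cb * CS0 * X.EH q 1 s G G := by positivity
  have m2 : 0 ≤ Ck * C * X.EH q 1 s G G := by positivity
  have m3 : 0 ≤ Ck * (Ck * C) * X.EH q 1 s G G := by positivity
  refine ⟨?_, ?_, by linarith, ?_⟩
  · have a1 := (h0 s ((le_max_left _ _).trans hs) (X.n - dd) G (by omega) hG pG x).1
    have a2 := mul_le_mul_of_nonneg_left a1 hCb.le
    have a3 := hB (X.B.sig s) G x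
    have a4 := mul_nonneg (show 0 ≤ Ck * C + Ck * (Ck * C) by positivity) (Dat.EE_nonneg hb X.n s G)
    unfold loH
    linarith
  · have a0 : 1 ≤ Ck * X.kr s x := by
      rw [kr, ← mul_div_assoc, le_div_iff₀ (Lin.mu_pos _ s x), one_mul]
      exact w1
    have a1 := mul_le_mul_of_nonneg_right a0 l0
    have a2 := mul_le_mul_of_nonneg_left p3 hCk.le
    linarith
  · have a1 := mul_le_mul_of_nonneg_right w4 l1
    have a2 := mul_le_mul_of_nonneg_left (key _ hb.ok.eta_pos.le le_rfl)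
      (show 0 ≤ Ck * Real.exp (X.B.kap * s) by positivity)
    have a3 : Real.exp (X.B.kap * s) ≤ Real.exp (-ρ * s) * Real.exp (2 * X.δ * s) := by
      rw [← Real.exp_add]
      exact Real.exp_le_exp.2 (by linarith [mul_le_mul_of_nonneg_right hρ hs0])
    have a4 := mul_le_mul_of_nonneg_right a3 (mul_nonneg (mul_pos hCk hC0).le e1)
    have hr := (Real.exp_pos (-ρ * s)).le
    have a5 := mul_nonneg hr (mul_nonneg (mul_pos hCk hC0).le e0)
    have a6 := mul_nonneg hr m1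
    have a7 := mul_nonneg hr m3
    have a8 : Real.exp (-ρ * s) * (Ck * C * X.EH q 1 s G G) = Real.exp (-ρ * s) * (Ck * C *
      (EnH X.n X.θh q (X.B.omH 0 s) (X.B.sig s) G G + Real.exp (2 * X.δ * s) *
        EnH X.n X.θh q (X.B.omH X.B.eta s) (X.B.sig s) G G)) := by rw [eE]
    linarith

end Pool.Agent.BoltzM.Pic.DatH
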