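import Pool.Agent.BoltzM.Pic.Hot

/-! The two quadratic sources of the fast part. -/

set_option autoImplicit false

open Pool.Agent.BoltzM.BoltzC Finset

noncomputable section

namespace Pool.Agent.BoltzM.Pic

variable [Dim]

open HE

namespace DatH

namespace HQuad

variable {X : DatH} {q : ℕ} {ρ A s0 s : ℝ}

lemma c_YY (h : X.BaseH q) (s : ℝ) {G : E3 → SV} (hG : Sm G) :
    Continuous (YY X.Q X.n X.θ (X.B.sig s) G) := by
  unfold YY lev CollOp.dq
  refine continuous_finsetSum _ fun j _ => continuous_finsetSum _ fun m _ => ?_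
  refine (continuous_const.mul ((h.base.c_sig s).pow _)).mul (continuous_finsetSum _ fun u _ =>
    continuous_finsetSum _ fun w _ => ?_)
  have e := (hG.dXw u).clm (apW w)
  exact ((e.clm X.Q.L).ip e).cont.add (e.ip e).cont

lemma EH_mono (h : X.BaseH q) (hA : 0 ≤ A) {r r' : ℕ} (hr : r ≤ r') (s : ℝ) {G : E3 → SV}
    (hG : Sm G) : X.EH r A s G G ≤ X.EH r' A s G G := by
  refine mul_le_mul_of_nonneg_left ((EnH_le_of_le (a := 1) (c_omh h.base s) (c_omh h.base s)
    (h.base.c_sig s) hG hG fun x => ?_).trans (one_mul _).le) hA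
  rw [one_mul]
  exact mul_le_mul_of_nonneg_left (bh_mono le_rfl h.θ_pos.le le_rfl (Nat.cast_le.2 hr) x)
    (omh_pos h.base s x).le

/-- The low norm of one function against the dissipation of another one. -/
def TT (X : DatH) (q r : ℕ) (A s : ℝ) (F G : E3 → SV) (x : E3) : ℝ :=
  X.omh s x * (A * X.B.k1 s x) * (loH X.n q (X.B.sig s) F x * YH X.P X.n X.θh r (X.B.sig s) G x)

lemma c_TT (h : X.BaseH q) (r : ℕ) (A s : ℝ) {F G : E3 → SV} (hF : Sm F) (hG : Sm G) :
    Continuous (TT X q r A s F G) :=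
  ((c_omh h.base s).mul (continuous_const.mul (h.base.c_k1 s))).mul
    ((continuous_loH (h.base.c_sig s) hF).mul (continuous_YH _ (h.base.c_sig s) hG))

lemma wk_nonneg (h : X.BaseH q) (hA : 0 ≤ A) (s : ℝ) (x : E3) :
    0 ≤ X.omh s x * (A * X.B.k1 s x) :=
  mul_nonneg (omh_pos h.base s x).le (mul_nonneg hA (k1_pos h.base.ok s x).le)

lemma young (h : X.BaseH q) (hA : 0 ≤ A) {C t : ℝ} (ht : 0 < t) {a f u : E3 → SV} (ha : Sm a)
    (hf : Sm f) (hu : Sm u)
    (hm : ∀ x, |bh X.n X.θh q (X.B.sig s) (fun y => (A * X.B.k1 s y) • X.Q.G1 (a y) (f y)) u x|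
      ≤ C * (A * X.B.k1 s x) *
        (√(loH X.n q (X.B.sig s) a x) * √(YH X.P X.n X.θh (q + 1) (X.B.sig s) f x)
          + √(YH X.P X.n X.θh q (X.B.sig s) a x) * √(loH X.n q (X.B.sig s) f x))
        * √(YH X.P X.n X.θh q (X.B.sig s) u x)) :
    2 * X.EH q A s (fun y => (A * X.B.k1 s y) • X.Q.G1 (a y) (f y)) u ≤ t * X.DH q A s u
      + t⁻¹ * (2 * C ^ 2 * (A * tint (TT X q (q + 1) A s a f) + A * tint (TT X q q A s f a))) := by
  have sm : Sm fun y => (A * X.B.k1 s y) • X.Q.G1 (a y) (f y) :=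
    ((h.base.ok.sm_k1.slice s).const_smul A).smul (Sm.bilin _ X.Q.cont1 ha hf)
  have c1 := c_TT h (q + 1) A s ha hf
  have c2 := c_TT h q A s hf ha
  have key := tint_le_two (a := t) (b := t⁻¹ * (2 * C ^ 2))
    ((continuous_const (y := (2 : ℝ))).fun_mul (cont_wbh (n := X.n) (θ := X.θh) (q := q)
      (c_omh h.base s) (h.base.c_sig s) sm hu)) (c_DH h q A s hu) (c1.fun_add c2) fun x => by
      have q1 := Real.mul_self_sqrt (mul_nonneg (loH_nonneg (n := X.n) (q := q) (σ := X.B.sig s)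
        (G := a) x) (YH_nonneg X.P (n := X.n) (r := q + 1) (σ := X.B.sig s) (G := f) h.θ_pos.le x))
      have q2 := Real.mul_self_sqrt (mul_nonneg (YH_nonneg X.P (n := X.n) (r := q) (σ := X.B.sig s)
        (G := a) h.θ_pos.le x) (loH_nonneg (n := X.n) (q := q) (σ := X.B.sig s) (G := f) x))
      have q3 := Real.mul_self_sqrt
        (YH_nonneg X.P (n := X.n) (r := q) (σ := X.B.sig s) (G := u) h.θ_pos.le x)
      have h1 := (le_abs_self _).trans (hm x)
      rw [Real.sqrt_mul (loH_nonneg x)] at q1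
      rw [Real.sqrt_mul (YH_nonneg _ h.θ_pos.le x)] at q2
      set p := √(loH X.n q (X.B.sig s) a x) * √(YH X.P X.n X.θh (q + 1) (X.B.sig s) f x)
      set p' := √(YH X.P X.n X.θh q (X.B.sig s) a x) * √(loH X.n q (X.B.sig s) f x)
      set y := √(YH X.P X.n X.θh q (X.B.sig s) u x)
      have h2 : 2 * (C * (p + p') * y) ≤ t * (y * y) + t⁻¹ * (2 * C ^ 2) * (p * p + p' * p') := by
        have e2 : t * (y * y) + t⁻¹ * (2 * C ^ 2) * (p * p + p' * p') - 2 * (C * (p + p') * y)
            = ((t * y - C * (p + p')) ^ 2 + C ^ 2 * (p - p') ^ 2) / t := by field_simp; ring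
        have : 0 ≤ ((t * y - C * (p + p')) ^ 2 + C ^ 2 * (p - p') ^ 2) / t := by positivity
        linarith
      rw [q1, q2, q3] at h2
      have h3 := mul_le_mul_of_nonneg_left h2 (wk_nonneg h hA s x)
      have h4 := mul_le_mul_of_nonneg_left h1 (omh_pos h.base s x).le
      unfold TT
      linarith
  rw [tint_const_mul, tint_add c1 c2] at key
  have := mul_le_mul_of_nonneg_left key hA
  unfold EH EnH DH
  linarith

lemma TT_le (h : X.BaseH q) (hA : 0 ≤ A) (r : ℕ) {e : ℝ} {F G : E3 → SV} (hF : Sm F) (hG : Sm G)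
    (he : ∀ x, loH X.n q (X.B.sig s) F x ≤ e) :
    A * tint (TT X q r A s F G) ≤ e * X.DH r A s G := by
  have := mul_le_mul_of_nonneg_left (tint_le_one (a := e) (c_TT h r A s hF hG) (c_DH h r A s hG)
    fun x => by
      have := mul_le_mul_of_nonneg_left (mul_le_mul_of_nonneg_right (he x)
        (YH_nonneg X.P (n := X.n) (r := r) (σ := X.B.sig s) (G := G) h.θ_pos.le x))
        (wk_nonneg h hA s x)
      unfold TT
      linarith) hA
  unfold DH
  linarith

lemma TT_add (h : X.BaseH q) (hA : 0 ≤ A) (r : ℕ) {F G H : E3 → SV} (hF : Sm F) (hG : Sm G)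
    (hH : Sm H) : A * tint (TT X q r A s F fun y => G y + H y)
      ≤ 2 * (A * tint (TT X q r A s F G)) + 2 * (A * tint (TT X q r A s F H)) := by
  have := mul_le_mul_of_nonneg_left (tint_le_two (a := 2) (b := 2) (c_TT h r A s hF (hG.add hH))
    (c_TT h r A s hF hG) (c_TT h r A s hF hH) fun x => by
      have := mul_le_mul_of_nonneg_left (mul_le_mul_of_nonneg_left
        (YH_add X.P (n := X.n) (r := r) (σ := X.B.sig s) h.θ_pos.le hG hH x)
        (loH_nonneg (n := X.n) (q := q) (σ := X.B.sig s) (G := F) x)) (wk_nonneg h hA s x)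
      unfold TT
      linarith) hA
  linarith

lemma TT_slow (h : X.BaseH q) (hA : 0 ≤ A) {r : ℕ} {CS CY s1 R b : ℝ} (hCS : 0 ≤ CS) (hCY : 0 ≤ CY)
    (hS : X.SobH q ρ CS s1) (hs : s1 ≤ s) {F G : E3 → SV} (hF : Sm F) (pF : Per F) (hG : Sm G)
    (hY : ∀ x, YH X.P X.n X.θh r (X.B.sig s) G x ≤ CY * YY X.Q X.n X.θ (X.B.sig s) G x)
    (hR0 : 0 ≤ R) (hb : X.EH q A s F F ≤ b)
    (hR : ∀ (l : E3 → ℝ) (e : ℝ), Continuous l → (∀ x, 0 ≤ l x) → (∀ x, l x ≤ e) →
      (∀ x, X.B.k1 s x * l x ≤ Real.exp (-ρ * s) * e) →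
      tint (fun x => X.om s x * (A * X.B.k1 s x * l x * YY X.Q X.n X.θ (X.B.sig s) G x)) ≤ e * R) :
    A * tint (TT X q r A s F G) ≤ CY * CS * b * R := by
  have cl : Continuous fun x => X.kr s x * loH X.n q (X.B.sig s) F x :=
    (c_kr h.base s).mul (continuous_loH (h.base.c_sig s) hF)
  have e1 := hR _ (CS * X.EH q 1 s F F) cl
    (fun x => mul_nonneg (kr_pos h.base s x).le (loH_nonneg x))
    (fun x => (hS s hs F hF pF x).2.2.1) fun x => (hS s hs F hF pF x).2.2.2
  have e2 := tint_le_one (a := CY) (c_TT h r A s hF hG)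
    ((h.base.c_om s).fun_mul ((((continuous_const (y := A)).fun_mul (h.base.c_k1 s)).fun_mul
      cl).fun_mul (c_YY h s hG))) fun x => by
      have := mul_le_mul_of_nonneg_left (mul_le_mul_of_nonneg_left (hY x)
        (loH_nonneg (n := X.n) (q := q) (σ := X.B.sig s) (G := F) x)) (wk_nonneg h hA s x)
      unfold TT
      rw [omh_eq] at this ⊢
      linarith
  have e3 := mul_le_mul_of_nonneg_left (e2.trans (mul_le_mul_of_nonneg_left e1 hCY)) hA
  have e4 := mul_le_mul_of_nonneg_left hb (mul_nonneg (mul_nonneg hCY hCS) hR0)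
  rw [EH_eq] at e4
  linarith

end HQuad

open HQuad

theorem quad_H (hG : GamHStmt) (hC : CplStmt) {X : DatH} {q : ℕ} {ρ CS s1 : ℝ} (h : X.BaseH q)
    (hCS : 0 < CS) (hS : X.SobH q ρ CS s1) : ∃ C s3 : ℝ, 1 ≤ C ∧ X.Quad q ρ C s3 := by
  obtain ⟨K, lam, s2, -, -, HH⟩ := h.base.ok.hyp
  obtain ⟨CG, hCG, hG⟩ := hG X.Q X.P K X.n q X.θh h.hn h.hq h.θ_pos h.θ_le
  obtain ⟨C0, hC0, hY0⟩ := hC.yh X.Q X.P X.n q X.θ X.θh h.base.θ_pos h.base.θ_le h.θ_pos.le h.θ_le
  obtain ⟨C1, hC1, hY1⟩ :=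
    hC.yh X.Q X.P X.n (q + 1) X.θ X.θh h.base.θ_pos h.base.θ_le h.θ_pos.le h.θ_le
  have gam : ∀ A s t : ℝ, 0 ≤ A → s2 ≤ s → 0 < t → ∀ a f u : E3 → SV, Sm a → Sm f → Sm u →
      2 * X.EH q A s (fun y => (A * X.B.k1 s y) • X.Q.G1 (a y) (f y)) u ≤ t * X.DH q A s u
      + t⁻¹ * (2 * CG ^ 2 * (A * tint (TT X q (q + 1) A s a f) + A * tint (TT X q q A s f a))) :=
    fun A s t hA hs ht a f u ha hf hu => young h hA ht ha hf hu fun x =>
      (hG _ _ a f u ((h.base.ok.sm_k1.slice s).const_smul A) ha hf hu (Lin.sig_pos _ s)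
        (fun x => mul_nonneg hA (k1_pos h.base.ok s x).le)
        (symBd_mul (h.base.ok.sm_k1.slice s) (HH s hs).2.1 hA) x).2
  have hD : 0 < 2 * CG ^ 2 * CS := by positivity
  set D := 2 * CG ^ 2 * CS with hDe
  refine ⟨1 + D * (6 + 2 * C0 + C1), max s1 s2, le_add_of_nonneg_right (by positivity),
    fun A s0 a b G H Z hA hs0 bG bH bZ => ?_, fun A s0 a b G H hA hs0 bH bG => ?_⟩
  · have hA0 : 0 ≤ A := zero_le_one.trans hA
    have ha := bH.nonneg
    have hb := bZ.nonneg
    obtain ⟨r, cr, r0, hr⟩ := bG.di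
    have c1 := cont_DH h (q + 1) A bZ.sm
    have c2 := cont_DH h q A bH.sm
    refine ⟨(h.base.ok.sm_k1.const_smul A).smul (SmC.bilin _ X.Q.cont1 (bG.sm.add bH.sm) bZ.sm),
      fun s => 4 * D * a * X.DH (q + 1) A s (Z s)
        + 2 * D * b * (1 * X.DH q A s (H s) + C0 * r s), by fun_prop, fun s => ?_,
      fun s hs => ⟨?_, fun t ht u hu => ?_⟩⟩
    · have := DH_nonneg h hA0 (q + 1) s (Z s)
      have := DH_nonneg h hA0 q s (H s)
      have := r0 s
      positivity
    · rw [int_two c1 (by fun_prop), int_two c2 cr]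
      have i1 := mul_le_mul_of_nonneg_left (bZ.di s hs) (show 0 ≤ 4 * D * a by positivity)
      have i2 := mul_le_mul_of_nonneg_left (bH.di s hs) (show 0 ≤ 2 * D * b by positivity)
      have i3 := mul_le_mul_of_nonneg_left (hr s hs).1 (show 0 ≤ 2 * D * b * C0 by positivity)
      have i4 : 0 ≤ (1 + D * C1) * a * b := by positivity
      linarith
    · have t1 : s1 ≤ s := (le_max_left _ _).trans (hs0.trans hs)
      have t2 : s2 ≤ s := (le_max_right _ _).trans (hs0.trans hs)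
      have sG := bG.sm.slice s
      have sH := bH.sm.slice s
      have sZ := bZ.sm.slice s
      have eZ : X.EH q A s (Z s) (Z s) ≤ b := (EH_mono h hA0 q.le_succ s sZ).trans (bZ.ee s hs)
      have e1 := TT_le (s := s) (e := 4 * (CS * a)) h hA0 (q + 1) (sG.add sH) sZ fun x => by
        have b1 := loH_add_le (n := X.n) (q := q) (σ := X.B.sig s) sG sH x
        have b2 := (hS s t1 _ sG (bG.per s) x).1.trans
          (mul_le_mul_of_nonneg_left (bG.ee s hs) hCS.le)
        have b3 := (hS s t1 _ sH (bH.per s) x).2.1.trans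
          (mul_le_mul_of_nonneg_left ((EH_one_le h hA q s _).trans (bH.ee s hs)) hCS.le)
        linarith
      have e2 := TT_add (s := s) h hA0 q sZ sG sH
      have e3 := TT_slow h hA0 hCS.le hC0.le hS t1 sZ (bZ.per s) sG (hY0 _ _) (r0 s) eZ (hr s hs).2
      have e4 := TT_le (s := s) (e := CS * b) h hA0 q sZ sH fun x =>
        (hS s t1 _ sZ (bZ.per s) x).2.1.trans
          (mul_le_mul_of_nonneg_left ((EH_one_le h hA q s _).trans eZ) hCS.le)
      refine (gam A s t hA0 t2 ht _ _ u (sG.add sH) sZ hu).trans (add_le_add le_rfl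
        (mul_le_mul_of_nonneg_left ?_ (inv_pos.2 ht).le))
      refine (mul_le_mul_of_nonneg_left (add_le_add e1 (e2.trans (add_le_add
        (mul_le_mul_of_nonneg_left e3 zero_le_two) (mul_le_mul_of_nonneg_left e4 zero_le_two))))
        (by positivity)).trans (le_of_eq ?_)
      rw [hDe]
      ring
  · have hA0 : 0 ≤ A := zero_le_one.trans hA
    have ha := bH.nonneg
    have hb := bG.nonneg
    obtain ⟨r, cr, r0, hr⟩ := bG.di
    have c2 := cont_DH h q A bH.sm
    refine ⟨(h.base.ok.sm_k1.const_smul A).smul (SmC.bilin _ X.Q.cont1 bH.sm bG.sm),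
      fun s => D * b * X.DH q A s (H s) + D * C1 * a * r s, by fun_prop, fun s => ?_,
      fun s hs => ⟨?_, fun t ht u hu => ?_⟩⟩
    · have := DH_nonneg h hA0 q s (H s)
      have := r0 s
      positivity
    · rw [int_two c2 cr]
      have i2 := mul_le_mul_of_nonneg_left (bH.di s hs) (show 0 ≤ D * b by positivity)
      have i3 := mul_le_mul_of_nonneg_left (hr s hs).1 (show 0 ≤ D * C1 * a by positivity)
      have i4 : 0 ≤ (1 + D * (5 + 2 * C0)) * a * b := by positivity
      linarith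
    · have t1 : s1 ≤ s := (le_max_left _ _).trans (hs0.trans hs)
      have t2 : s2 ≤ s := (le_max_right _ _).trans (hs0.trans hs)
      have sG := bG.sm.slice s
      have sH := bH.sm.slice s
      have e3 := TT_slow h hA0 hCS.le hC1.le hS t1 sH (bH.per s) sG (hY1 _ _) (r0 s) (bH.ee s hs)
        (hr s hs).2
      have e4 := TT_le (s := s) (e := CS * b) h hA0 q sG sH fun x =>
        (hS s t1 _ sG (bG.per s) x).1.trans (mul_le_mul_of_nonneg_left (bG.ee s hs) hCS.le)
      refine (gam A s t hA0 t2 ht _ _ u sH sG hu).trans (add_le_add le_rfl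
        (mul_le_mul_of_nonneg_left ?_ (inv_pos.2 ht).le))
      refine (mul_le_mul_of_nonneg_left (add_le_add e3 e4) (by positivity)).trans (le_of_eq ?_)
      rw [hDe]
      ring

end DatH

end Pool.Agent.BoltzM.Pic
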