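import Pool.Agent.BoltzM.Pic.Hot

/-! The estimate for one step of the fast part. -/

set_option autoImplicit false

open Pool.Agent.BoltzM.BoltzC Finset

noncomputable section

namespace Pool.Agent.BoltzM.Pic

variable [Dim]

open HE

omit [Dim] in
/-- Gronwall inequality with a continuous rate of integral at most one. -/
lemma gronwall_rate {E E' D F κ : ℝ → ℝ} {s0 s : ℝ} (hE' : Continuous E') (hD : Continuous D)
    (hF : Continuous F) (hκ : Continuous κ) (hd : ∀ t, HasDerivAt E (E' t) t) (hE0 : ∀ t, 0 ≤ E t)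
    (hD0 : ∀ t, 0 ≤ D t) (hF0 : ∀ t, 0 ≤ F t) (hκ0 : ∀ t, 0 ≤ κ t)
    (hκ1 : ∀ t, s0 ≤ t → ∫ r in s0..t, κ r ≤ 1)
    (h : ∀ t, s0 ≤ t → E' t + D t ≤ κ t * E t + F t) (hs : s0 ≤ s) :
    E s + ∫ t in s0..s, D t ≤ 3 * E s0 + 3 * ∫ t in s0..s, F t := by
  have hE : Continuous E := continuous_iff_continuousAt.2 fun t => (hd t).continuousAt
  have dI : ∀ t, HasDerivAt (fun t => ∫ r in s0..t, κ r) (κ t) t := fun t =>
    (hκ.integral_hasStrictDerivAt s0 t).hasDerivAt
  have cI : Continuous fun t => ∫ r in s0..t, κ r :=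
    continuous_iff_continuousAt.2 fun t => (dI t).continuousAt
  set w : ℝ → ℝ := fun t => Real.exp (1 - ∫ r in s0..t, κ r) with hw
  have cw : Continuous w := Real.continuous_exp.comp (continuous_const.sub cI)
  have w1 : ∀ t, s0 ≤ t → 1 ≤ w t := fun t ht => Real.one_le_exp (sub_nonneg.2 (hκ1 t ht))
  have w3 : ∀ t, s0 ≤ t → w t ≤ 3 := fun t ht => by
    have : 0 ≤ ∫ r in s0..t, κ r := intervalIntegral.integral_nonneg ht fun r _ => hκ0 r
    exact (Real.exp_le_exp.2 (sub_le_self 1 this)).trans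
      (Real.exp_one_lt_d9.le.trans (by norm_num))
  have hwd : ∀ t, HasDerivAt (fun t => w t * E t) (w t * (E' t - κ t * E t)) t := fun t => by
    have := (((dI t).const_sub 1).exp).mul (hd t)
    refine this.congr_deriv ?_
    simp only [hw]
    ring
  have hc : Continuous fun t => w t * (E' t - κ t * E t) := cw.mul (hE'.sub (hκ.mul hE))
  have h1 := intervalIntegral.integral_eq_sub_of_hasDerivAt (a := s0) (b := s) (fun t _ => hwd t)
    (hc.intervalIntegrable _ _)
  have h2 : ∫ t in s0..s, w t * (E' t - κ t * E t) ≤ ∫ t in s0..s, (3 * F t - D t) := by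
    refine intervalIntegral.integral_mono_on hs (hc.intervalIntegrable _ _)
      (Continuous.intervalIntegrable (by fun_prop) _ _) fun t ht => ?_
    have a1 := h t ht.1
    have a2 := mul_le_mul_of_nonneg_left (show E' t - κ t * E t ≤ F t - D t by linarith)
      (zero_le_one.trans (w1 t ht.1))
    nlinarith [w1 t ht.1, w3 t ht.1, hD0 t, hF0 t]
  rw [intervalIntegral.integral_sub (Continuous.intervalIntegrable (by fun_prop) _ _)
    (hD.intervalIntegrable _ _), intervalIntegral.integral_const_mul] at h2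
  nlinarith [w1 s hs, w3 s0 le_rfl, hE0 s, hE0 s0]

lemma continuous_YYs (Q : CollOp) (n : ℕ) (θ : ℝ) {σ : E3 → ℝ} {G : E3 → SV} (hσ : Continuous σ)
    (hG : Sm G) : Continuous (YY Q n θ σ G) := by
  unfold YY lev CollOp.dq
  refine continuous_finsetSum _ fun j _ => continuous_finsetSum _ fun m _ => ?_
  refine (continuous_const.mul (hσ.pow _)).mul (continuous_finsetSum _ fun u _ =>
    continuous_finsetSum _ fun w _ => ?_)
  have h1 := (hG.dXw u).clm (apW w)
  exact ((h1.clm Q.L).ip h1).cont.add (h1.ip h1).cont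

namespace DatH

variable {X : DatH} {q : ℕ}

lemma c_nlH (h : X.BaseH q) (A s : ℝ) {a u : E3 → SV} (ha : Sm a) (hu : Sm u) :
    Continuous fun x => X.omh s x * (A * X.B.k1 s x) *
      (YH X.P X.n X.θh q (X.B.sig s) a x * loH X.n q (X.B.sig s) u x) :=
  ((c_omh h.base s).mul (continuous_const.mul (h.base.c_k1 s))).mul
    ((continuous_YH _ (h.base.c_sig s) ha).mul (continuous_loH (h.base.c_sig s) hu))

/-- The quadratic term on the diagonal. -/
lemma force_diag (h : X.BaseH q) {A s c D : ℝ} (hc : 0 < c) (hD : 0 < D) (hA : 0 < A)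
    {a u : E3 → SV} (ha : Sm a) (hu : Sm u)
    (hl : ∀ x, loH X.n q (X.B.sig s) a x ≤ (c / (8 * D)) ^ 2)
    (hm : ∀ x, |bh X.n X.θh q (X.B.sig s) (fun y => (A * X.B.k1 s y) • X.Q.G1 (a y) (u y)) u x|
      ≤ D * (A * X.B.k1 s x) *
        (√(loH X.n q (X.B.sig s) a x) * √(YH X.P X.n X.θh q (X.B.sig s) u x)
          + √(YH X.P X.n X.θh q (X.B.sig s) a x) * √(loH X.n q (X.B.sig s) u x))
        * √(YH X.P X.n X.θh q (X.B.sig s) u x)) :
    2 * X.EH q A s (fun y => (A * X.B.k1 s y) • X.Q.G1 (a y) (u y)) u ≤ c / 2 * X.DH q A s u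
      + 4 * D ^ 2 / c * (A * tint fun x => X.omh s x * (A * X.B.k1 s x) *
        (YH X.P X.n X.θh q (X.B.sig s) a x * loH X.n q (X.B.sig s) u x)) := by
  have sm : Sm fun y => (A * X.B.k1 s y) • X.Q.G1 (a y) (u y) :=
    ((h.base.ok.sm_k1.slice s).const_smul A).smul (Sm.bilin _ X.Q.cont1 ha hu)
  have key := tint_le_two (a := c / 4) (b := 2 * D ^ 2 / c)
    (cont_wbh (n := X.n) (θ := X.θh) (q := q) (c_omh h.base s) (h.base.c_sig s) sm hu)
    (c_DH h q A s hu) (c_nlH h A s ha hu) fun x => by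
      have hk := mul_pos hA (k1_pos h.base.ok s x)
      have ho := omh_pos h.base s x
      have y0 := YH_nonneg X.P (n := X.n) (r := q) (σ := X.B.sig s) (G := a) h.θ_pos.le x
      have q1 := Real.mul_self_sqrt (mul_nonneg y0
        (loH_nonneg (n := X.n) (q := q) (σ := X.B.sig s) (G := u) x))
      have q3 := Real.mul_self_sqrt
        (YH_nonneg X.P (n := X.n) (r := q) (σ := X.B.sig s) (G := u) h.θ_pos.le x)
      have h1 := (le_abs_self _).trans (hm x)
      have p1 : √(loH X.n q (X.B.sig s) a x) ≤ c / (8 * D) :=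
        Real.sqrt_le_iff.2 ⟨by positivity, hl x⟩
      rw [Real.sqrt_mul y0] at q1
      set p := √(loH X.n q (X.B.sig s) a x)
      set r := √(YH X.P X.n X.θh q (X.B.sig s) a x) * √(loH X.n q (X.B.sig s) u x)
      set y := √(YH X.P X.n X.θh q (X.B.sig s) u x)
      have h2 : D * (p * y + r) * y ≤ c / 4 * (y * y) + 2 * D ^ 2 / c * (r * r) := by
        have e1 : D * p ≤ c / 8 :=
          (mul_le_mul_of_nonneg_left p1 hD.le).trans (le_of_eq (by field_simp))
        have e2 : c / 8 * (y * y) + 2 * D ^ 2 / c * (r * r) - D * r * y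
            = 2 * (c / 4 * y - D * r) ^ 2 / c := by field_simp; ring
        have e3 : 0 ≤ 2 * (c / 4 * y - D * r) ^ 2 / c := by positivity
        have e4 := mul_le_mul_of_nonneg_right e1 (mul_self_nonneg y)
        linarith
      rw [q1, q3] at h2
      have h3 := mul_le_mul_of_nonneg_left h2 (mul_pos ho hk).le
      have h4 := mul_le_mul_of_nonneg_left h1 ho.le
      linarith
  have := mul_le_mul_of_nonneg_left key hA.le
  have e : 4 * D ^ 2 / c = 2 * (2 * D ^ 2 / c) := by ring
  rw [e]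
  unfold EH DH EnH
  linarith

/-- The remainder of the quadratic term is the energy times an integrable rate. -/
lemma nlH_le (h : X.BaseH q) {A s CY e r : ℝ} (hA : 1 ≤ A) (hCY : 0 ≤ CY) (he : 0 ≤ e)
    {G H u : E3 → SV} (hG : Sm G) (hH : Sm H) (hu : Sm u)
    (hY : ∀ x, YH X.P X.n X.θh q (X.B.sig s) G x ≤ CY * YY X.Q X.n X.θ (X.B.sig s) G x)
    (hl : ∀ x, loH X.n q (X.B.sig s) u x ≤ e)
    (hr : tint (fun x => X.om s x * (A * X.B.k1 s x * (X.kr s x * loH X.n q (X.B.sig s) u x) *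
      YY X.Q X.n X.θ (X.B.sig s) G x)) ≤ e * r) :
    (A * tint fun x => X.omh s x * (A * X.B.k1 s x) *
        (YH X.P X.n X.θh q (X.B.sig s) (fun y => G y + H y) x * loH X.n q (X.B.sig s) u x))
      ≤ 2 * (A * e) * (CY * r + X.DH q A s H) := by
  have hA0 : 0 < A := by linarith
  have key := tint_le_two (a := 2 * CY) (b := 2 * e) (c_nlH h A s (hG.add hH) hu)
    (ψ := fun x => X.om s x * (A * X.B.k1 s x * (X.kr s x * loH X.n q (X.B.sig s) u x) *
      YY X.Q X.n X.θ (X.B.sig s) G x))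
    ((h.base.c_om s).mul (((continuous_const.mul (h.base.c_k1 s)).mul ((c_kr h.base s).mul
      (continuous_loH (h.base.c_sig s) hu))).mul (continuous_YYs _ _ _ (h.base.c_sig s) hG)))
    (c_DH h q A s hH) fun x => by
      have hk := (mul_pos (omh_pos h.base s x) (mul_pos hA0 (k1_pos h.base.ok s x))).le
      have l0 := loH_nonneg (n := X.n) (q := q) (σ := X.B.sig s) (G := u) x
      have y0 := YH_nonneg X.P (n := X.n) (r := q) (σ := X.B.sig s) (G := H) h.θ_pos.le x
      have y1 := YH_add X.P (n := X.n) (r := q) (σ := X.B.sig s) h.θ_pos.le hG hH x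
      have a1 := mul_le_mul_of_nonneg_right y1 l0
      have a2 := mul_le_mul_of_nonneg_right (hY x) l0
      have a3 := mul_le_mul_of_nonneg_left (hl x) y0
      have a4 := mul_le_mul_of_nonneg_left (show
        YH X.P X.n X.θh q (X.B.sig s) (fun y => G y + H y) x * loH X.n q (X.B.sig s) u x
          ≤ 2 * CY * (YY X.Q X.n X.θ (X.B.sig s) G x * loH X.n q (X.B.sig s) u x)
            + 2 * e * YH X.P X.n X.θh q (X.B.sig s) H x by linarith) hk
      refine a4.trans (le_of_eq ?_)
      rw [omh_eq]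
      ring
  have d0 := DH_nonneg h hA0.le q s H
  have b1 := mul_le_mul_of_nonneg_left key hA0.le
  have b2 := mul_le_mul_of_nonneg_left hr (show 0 ≤ A * (2 * CY) by positivity)
  have b3 := mul_le_mul_of_nonneg_right hA (mul_nonneg he d0)
  unfold DH at *
  linarith

theorem step_H (hG : GamHStmt) (hC : CplStmt) {X : DatH} {q : ℕ} {ρ c A0 CS s1 : ℝ}
    (h : X.BaseH q) (hc : 0 < c) (hL : X.LinH q c A0 s1) (hCS : 0 < CS) (hS : X.SobH q ρ CS s1) :
    ∃ C a0 s3 : ℝ, 1 ≤ C ∧ 0 < a0 ∧ X.StepH q ρ C a0 A0 s3 := by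
  obtain ⟨K, lam, s2, -, -, HK⟩ := h.base.ok.hyp
  obtain ⟨CG, hCG, hG⟩ := hG X.Q X.P K X.n q X.θh h.hn h.hq h.θ_pos h.θ_le
  obtain ⟨CY, hCY, hY⟩ := hC.yh X.Q X.P X.n q X.θ X.θh h.base.θ_pos h.base.θ_le h.θ_pos.le h.θ_le
  set M := 4 * CG ^ 2 / c * (2 * CS) with hM
  have pM : 0 < M := by positivity
  refine ⟨1 + 3 * (c / 4)⁻¹ + (c / 4)⁻¹ * (3 * (c / 4)⁻¹),
    min ((c / (8 * CG)) ^ 2 / (4 * CS)) (M * CY + M)⁻¹, max s1 s2,
    by rw [add_assoc]; exact le_add_of_nonneg_right (by positivity), by positivity, ?_⟩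
  intro A s0 η a b G H u u' S hA0 hA1 hs0 hη ha bG bH ⟨sS, R, cR, hR0, hR⟩ hu
  have hAp : 0 < A := by linarith
  have hb : 0 ≤ b := by simpa using (hR s0 le_rfl).1
  obtain ⟨r, cr, hr0, hr⟩ := bG.di
  obtain ⟨E', cE, dE, hE⟩ := hL A s0 η _ u u' S hA0 ((le_max_left _ _).trans hs0) hη
    (bG.sm.add bH.sm) sS hu
  have cD := cont_DH h q A hu.smd.sm
  have cH := cont_DH h q A bH.sm
  have ha1 : 4 * CS * a ≤ (c / (8 * CG)) ^ 2 := by
    have := ha.trans (min_le_left _ _)
    rwa [le_div_iff₀' (by positivity)] at this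
  have ha2 : (M * CY + M) * a ≤ 1 := by
    have := mul_le_mul_of_nonneg_left (ha.trans (min_le_right _ _))
      (show 0 ≤ M * CY + M by positivity)
    rwa [mul_inv_cancel₀ (by positivity)] at this
  have main : ∀ s, s0 ≤ s → E' s + c / 4 * X.DH q A s (u s)
      ≤ (M * CY * r s + M * X.DH q A s (H s)) * X.EH q A s (u s) (u s) + (c / 4)⁻¹ * R s :=
    fun s hs => by
    have t1 : s1 ≤ s := (le_max_left _ _).trans (hs0.trans hs)
    have t2 : s2 ≤ s := (le_max_right _ _).trans (hs0.trans hs)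
    have su := hu.smd.sm.slice s
    have sG := bG.sm.slice s
    have sH := bH.sm.slice s
    have sk := h.base.ok.sm_k1.slice s
    have e0 := hE s hs
    have e1 := (hR s hs).2 (c / 4) (by positivity) _ su
    have e2 := force_diag h hc hCG hAp (sG.add sH) su (fun x => by
        have l1 := loH_add_le (n := X.n) (q := q) (σ := X.B.sig s) sG sH x
        have l2 := (hS s t1 _ sG (bG.per s) x).1.trans
          (mul_le_mul_of_nonneg_left (bG.ee s hs) hCS.le)
        have l3 := (hS s t1 _ sH (bH.per s) x).2.1.trans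
          (mul_le_mul_of_nonneg_left ((EH_one_le h hA1 q s _).trans (bH.ee s hs)) hCS.le)
        linarith)
      fun x => (hG _ _ _ _ _ (sk.const_smul A) (sG.add sH) su su (Lin.sig_pos _ s)
        (fun x => (mul_pos hAp (k1_pos h.base.ok s x)).le)
        (symBd_mul sk (HK s t2).2.1 hAp.le) x).1
    have b2 := hS s t1 _ su (hu.per s)
    have e3 := nlH_le h hA1 hCY.le (mul_nonneg hCS.le (EH_nonneg h zero_le_one q s (u s))) sG sH su
      (hY _ _) (fun x => (b2 x).2.1) ((hr s hs).2 _ _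
        ((c_kr h.base s).mul (continuous_loH (h.base.c_sig s) su))
        (fun x => mul_nonneg (kr_pos h.base s x).le (loH_nonneg x))
        (fun x => (b2 x).2.2.1) fun x => (b2 x).2.2.2)
    have e4 := mul_le_mul_of_nonneg_left e3 (show 0 ≤ 4 * CG ^ 2 / c by positivity)
    have e5 : 4 * CG ^ 2 / c * (2 * (A * (CS * X.EH q 1 s (u s) (u s))) *
        (CY * r s + X.DH q A s (H s)))
        = (M * CY * r s + M * X.DH q A s (H s)) * X.EH q A s (u s) (u s) := by
      rw [EH_eq q A, hM]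
      ring
    linarith
  have z0 : X.EH q A s0 (u s0) (u s0) = 0 := by
    rw [show u s0 = fun _ => 0 from funext hu.init, EH, EnH_zero_left, mul_zero]
  have fin : ∀ s, s0 ≤ s → X.EH q A s (u s) (u s) + c / 4 * ∫ t in s0..s, X.DH q A t (u t)
      ≤ 3 * (c / 4)⁻¹ * b := fun s hs => by
    have g := gronwall_rate (D := fun t => c / 4 * X.DH q A t (u t)) (F := fun t => (c / 4)⁻¹ * R t)
      (κ := fun t => M * CY * r t + M * X.DH q A t (H t)) cE (by fun_prop) (by fun_prop)
      (by fun_prop) dE (fun t => EH_nonneg h hAp.le q t _)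
      (fun t => mul_nonneg (by positivity) (DH_nonneg h hAp.le q t _))
      (fun t => mul_nonneg (by positivity) (hR0 t))
      (fun t => add_nonneg (mul_nonneg (by positivity) (hr0 t))
        (mul_nonneg pM.le (DH_nonneg h hAp.le q t _)))
      (fun t ht => by
        rw [int_two cr cH]
        have i1 := mul_le_mul_of_nonneg_left (hr t ht).1 (show 0 ≤ M * CY by positivity)
        have i2 := mul_le_mul_of_nonneg_left (bH.di t ht) pM.le
        linarith) main hs
    rw [intervalIntegral.integral_const_mul, intervalIntegral.integral_const_mul, z0] at g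
    have := mul_le_mul_of_nonneg_left (hR s hs).1 (show 0 ≤ (c / 4)⁻¹ by positivity)
    linarith
  have hI : ∀ s, s0 ≤ s → 0 ≤ ∫ t in s0..s, X.DH q A t (u t) := fun s hs =>
    intervalIntegral.integral_nonneg hs fun t _ => DH_nonneg h hAp.le q t _
  have n1 : 0 ≤ 3 * (c / 4)⁻¹ * b := by positivity
  have n2 : 0 ≤ (c / 4)⁻¹ * (3 * (c / 4)⁻¹ * b) := by positivity
  refine ⟨hu.smd.sm, hu.per, fun s hs => ?_, fun s hs => ?_⟩
  · have := mul_nonneg (show 0 ≤ c / 4 by positivity) (hI s hs)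
    linarith [fin s hs]
  · have h1 := mul_le_mul_of_nonneg_left (show c / 4 * ∫ t in s0..s, X.DH q A t (u t) ≤ _ from
      le_trans (le_add_of_nonneg_left (EH_nonneg h hAp.le q s _)) (fin s hs))
      (show 0 ≤ (c / 4)⁻¹ by positivity)
    rw [← mul_assoc, inv_mul_cancel₀ (by positivity), one_mul] at h1
    linarith

end DatH

end Pool.Agent.BoltzM.Pic
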