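import Pool.Agent.BoltzM.Pic.Hot

/-! The slow part seen from the fast part, and the solver for the fast part. -/

set_option autoImplicit false

open Pool.Agent.BoltzM.BoltzC Finset

noncomputable section

namespace Pool.Agent.BoltzM.Pic

variable [Dim]

open HE
open KK (bb_nonneg continuous_bb)

namespace DatH

lemma nl_gen (hA : AlgStmt) {X : Dat} (h : X.Base) {A s l e α Cd CY : ℝ} {d : ℕ} (hA0 : 0 ≤ A)
    (hd0 : 0 ≤ Cd) (hY0 : 0 ≤ CY) {w : E3 → ℝ} {g V : E3 → SV} (hw : Continuous w) (hg : Sm g)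
    (hV : Sm V) (h0 : ∀ x, 0 ≤ w x) (h1 : ∀ x, w x ≤ e) (h2 : ∀ x, X.B.k1 s x * w x ≤ α * e)
    (hd : ∀ x, YY X.Q X.n X.θ (X.B.sig s) g x ≤ Cd * bb (X.n + d) 1 (X.B.sig s) g g x)
    (hY : ∀ x, YY X.Q X.n X.θ (X.B.sig s) V x
      ≤ CY * (bb X.n X.θ (X.B.sig s) V V x + yy X.Q X.n X.θ (X.B.sig s) V x)) :
    tint (fun x => X.om s x *
        (A * X.B.k1 s x * w x * YY X.Q X.n X.θ (X.B.sig s) (fun y => l • g y + V y) x))
      ≤ 2 * A * (α * e) * (l ^ 2 * Cd * En (X.n + d) 1 (X.om s) (X.B.sig s) g g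
        + CY * X.EE X.n s V V) + 2 * e * CY * X.DD A s V := by
  have c1 := cont_wbb (n := X.n + d) (θ := 1) (h.c_om s) (h.c_sig s) hg hg
  have c2 := cont_wbb (n := X.n) (θ := X.θ) (h.c_om s) (h.c_sig s) hV hV
  rw [Dat.EE, En, En, ← tint_const_mul, ← tint_const_mul CY,
    ← tint_add (continuous_const.fun_mul c1) (continuous_const.fun_mul c2)]
  refine tint_le_two ((h.c_om s).mul (((continuous_const.mul (h.c_k1 s)).mul hw).mul
      (Dat.c_YY hA h s ((hg.const_smul l).add hV))))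
    ((continuous_const.fun_mul c1).fun_add (continuous_const.fun_mul c2)) (Dat.c_DD hA h A s hV)
    fun x => ?_
  have hk := (k1_pos h.ok s x).le
  have hω := (Dat.om_pos (X := X) s x).le
  have y1 := hA.YY_add X.Q X.n X.θ (X.B.sig s) _ _ h.θ_pos.le (hg.const_smul l) hV x
  rw [hA.YY_smul _ _ _ _ _ _ hg] at y1
  have y2 := mul_le_mul_of_nonneg_left (hd x) (sq_nonneg l)
  have b1 := bb_nonneg (n := X.n + d) (σ := X.B.sig s) (G := g) zero_le_one x
  have b2 := bb_nonneg (n := X.n) (σ := X.B.sig s) (G := V) h.θ_pos.le x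
  have b3 := Dat.yy_nonneg hA h s V x
  have b4 := h0 x
  have y3 := mul_le_mul_of_nonneg_left (show YY X.Q X.n X.θ (X.B.sig s) (fun y => l • g y + V y) x
    ≤ 2 * (l ^ 2 * Cd * bb (X.n + d) 1 (X.B.sig s) g g x + CY * bb X.n X.θ (X.B.sig s) V V x)
      + 2 * CY * yy X.Q X.n X.θ (X.B.sig s) V x by linarith [hY x])
    (show 0 ≤ X.om s x * (A * X.B.k1 s x * w x) by positivity)
  have y4 := mul_le_mul_of_nonneg_left (h2 x) (show 0 ≤ X.om s x * A * (2 * (l ^ 2 * Cd *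
    bb (X.n + d) 1 (X.B.sig s) g g x + CY * bb X.n X.θ (X.B.sig s) V V x)) by positivity)
  have y5 := mul_le_mul_of_nonneg_left (h1 x) (show 0 ≤ X.om s x * (A * X.B.k1 s x) *
    (2 * CY * yy X.Q X.n X.θ (X.B.sig s) V x) by positivity)
  linarith

theorem to_G (hA : AlgStmt) {X : DatH} (h : X.Base) {ρ : ℝ} (hρ : 0 < ρ) {gc : ℝ → E3 → SV}
    (sg : SmC gc) (pg : ∀ s, Per (gc s))
    (bg : ∀ n, ∃ Cg, 0 < Cg ∧ ∀ s, 0 ≤ s → En n 1 (X.om s) (X.B.sig s) (gc s) (gc s) ≤ Cg) :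
    ∃ C : ℝ, 1 ≤ C ∧ X.ToG gc ρ C 0 := by
  obtain ⟨CY, hCY, hY⟩ := hA.YY_le_bb_yy X.Q X.n
  obtain ⟨d, Cd, hCd, hd⟩ := hA.YY_le_bb X.Q
  obtain ⟨Cg, hCg, bg⟩ := bg (X.n + d)
  have p1 : 0 < 2 * (Cd * Cg + CY) * ρ⁻¹ + 2 * CY := by positivity
  refine ⟨2 * Cg + 2 + (2 * (Cd * Cg + CY) * ρ⁻¹ + 2 * CY), by linarith,
    fun A s0 l a V hA1 hs0 hAs hl hV => ?_⟩
  have ha := hV.nonneg h
  have hA0 : 0 ≤ A := by linarith
  have cD := Dat.cont_DD hA h A hV.sm
  refine ⟨(sg.const_smul l).add hV.sm, fun s => ((pg s).map _).map₂ (hV.per s) (· + ·),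
    fun s hs => ?_, fun s => 2 * A * (Cd * Cg + CY) * a * Real.exp (-ρ * s)
      + 2 * CY * X.DD A s (V s), by fun_prop, fun s => ?_, fun s hs => ⟨?_, ?_⟩⟩
  · have q1 := Dat.EE_add_le h X.n s ((sg.slice s).const_smul l) (hV.sm.slice s)
    rw [Dat.EE, Dat.EE, En_smul_smul (sg.slice s)] at q1
    have q2 := mul_le_mul hl ((Dat.EE_mono hA h (Nat.le_add_right _ d) h.θ_le s (sg.slice s)).trans
      (bg s (hs0.trans hs))) (Dat.EE_nonneg h _ _ _) ha
    have q3 := hV.ee s hs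
    have q4 := mul_nonneg p1.le ha
    unfold Dat.EE at *
    linarith
  · have := Dat.DD_nonneg hA h hA0 s (V s)
    positivity
  · rw [int_two (by fun_prop) cD]
    have g1 := mul_le_mul_of_nonneg_left (integral_exp_le (s0 := s0) (s := s) hρ)
      (show 0 ≤ 2 * A * (Cd * Cg + CY) * a by positivity)
    have g2 := mul_le_mul_of_nonneg_left (hV.di s hs) (show 0 ≤ 2 * CY by positivity)
    have g3 := mul_le_mul_of_nonneg_left hAs
      (show 0 ≤ 2 * (Cd * Cg + CY) * ρ⁻¹ * a by positivity)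
    have g4 : 0 ≤ (2 * Cg + 2) * a := by positivity
    rw [div_eq_mul_inv] at g1
    linarith
  · intro w e hw h0 h1 h2
    have he : 0 ≤ e := (h0 0).trans (h1 0)
    have b3 := nl_gen (l := l) hA h hA0 hCd.le hCY.le hw (sg.slice s) (hV.sm.slice s) h0 h1 h2
      (hd _ _ _ _ h.θ_pos.le h.θ_le) (hY _ _ _ h.θ_pos.le (hV.sm.slice s))
    have b4 : l ^ 2 * Cd * En (X.n + d) 1 (X.om s) (X.B.sig s) (gc s) (gc s)
        + CY * X.EE X.n s (V s) (V s) ≤ a * Cd * Cg + CY * a := by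
      have := En_nonneg (n := X.n + d) (σ := X.B.sig s) (G := gc s) zero_le_one
        fun x => (Dat.om_pos (X := X.toDat) s x).le
      have := bg s (hs0.trans hs)
      gcongr
      exact hV.ee s hs
    have b5 := mul_le_mul_of_nonneg_left b4
      (show 0 ≤ 2 * A * (Real.exp (-ρ * s) * e) by positivity)
    linarith

theorem solve_H (h3 : M3pStmt) (hV : VHStmt) (X0 : Dat) (hQ : X0.Q.Real) :
    ∃ p0 : ℕ, ∀ (P : HOp X0.Q) (θh N : ℝ) (q : ℕ) (ρ CS s1 : ℝ), (DatH.mk X0 P θh N).BaseH q →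
      p0 ≤ q → 0 < CS → (DatH.mk X0 P θh N).SobH q ρ CS s1 →
      ∃ a0 : ℝ, 0 < a0 ∧ (DatH.mk X0 P θh N).Solve q ρ a0 s1 := by
  obtain ⟨e0, p, he0, h3⟩ := h3 X0.Q hQ
  obtain ⟨C, hC, hsup⟩ := hV.sup p
  refine ⟨p + 4 * dd + 2, fun P θh N q ρ CS s1 h hq hCS hS =>
    ⟨(e0 / C) ^ 2 / ((dd + 2) * (4 * CS)), by positivity,
      fun A s0 η a G H S hA hs0 hη ha hG hH sS pS => ?_⟩⟩
  have ok : X0.B.Ok := h.base.ok
  have hn : 3 * dd + 3 * P.p ≤ X0.n := h.hn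
  have h2 := two_le_dd
  obtain ⟨u, u', a1, a2, a3, a4, a5⟩ := h3 X0.B.fld (fun s x => A * X0.B.k1 s x) N η s0
    (fun s x => G s x + H s x) S ok.fldC (ok.sm_k1.const_smul A)
    (fun s => (per_k1 ok s).map _) (fun s x => mul_pos (by linarith) (k1_pos ok s x)) hη
    (hG.sm.add hH.sm) (fun s => (hG.per s).map₂ (hH.per s) (· + ·)) sS pS fun s hs x w => by
      have b1 : loH X0.n q (X0.B.sig s) (G s) x ≤ CS * a :=
        (hS s (hs0.trans hs) _ (hG.sm.slice s) (hG.per s) x).1.trans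
          (mul_le_mul_of_nonneg_left (hG.ee s hs) hCS.le)
      have b2 : loH X0.n q (X0.B.sig s) (H s) x ≤ CS * a :=
        (hS s (hs0.trans hs) _ (hH.sm.slice s) (hH.per s) x).2.1.trans
          (mul_le_mul_of_nonneg_left ((EH_one_le h hA q s _).trans (hH.ee s hs)) hCS.le)
      have b3 := loH_add_le (n := X0.n) (q := q) (σ := X0.B.sig s) (hG.sm.slice s) (hH.sm.slice s) x
      have hq' : ((p + 4 * dd + 2 : ℕ) : ℝ) ≤ q := Nat.cast_le.2 hq
      have b4 := bW_le_bh (n := X0.n - dd) (q := q - 2 * dd) (σ := X0.B.sig s)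
        (G := fun y => G s y + H s y) (p := p + dd + 1) (m := dd + 1) []
        (by rw [List.length_nil]; omega) (by push_cast at hq' ⊢; simp; linarith) x
      rw [List.length_nil, mul_zero, pow_zero, one_mul, dXw_nil] at b4
      have b5 : bW (p + dd + 1) (dd + 1) (G s x + H s x) ≤ (e0 / C) ^ 2 := by
        rw [le_div_iff₀ (by positivity)] at ha
        have b6 : ((dd + 1 : ℕ) + 1 : ℝ) * loH X0.n q (X0.B.sig s) (fun y => G s y + H s y) x
            ≤ ((dd + 1 : ℕ) + 1 : ℝ) * (4 * CS * a) :=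
          mul_le_mul_of_nonneg_left (by linarith) (by positivity)
        refine b4.trans (b6.trans (le_trans (le_of_eq ?_) ha))
        push_cast
        ring
      refine ((hsup (G s x + H s x)).2.1 w).trans ?_
      rw [← le_div_iff₀' hC]
      exact Real.sqrt_le_iff.2 ⟨by positivity, b5⟩
  exact ⟨u, u', a1, a2, a3, a4, a5⟩

end DatH

end Pool.Agent.BoltzM.Pic
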