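import Pool.Agent.BoltzM.Pic.Step
import Pool.Agent.BoltzM.HE.Basic

/-! The fast part of the iteration: energies, balls, sources and the estimates of one step. -/

set_option autoImplicit false

open Pool.Agent.BoltzM.BoltzC Finset

noncomputable section

namespace Pool.Agent.BoltzM.Pic

variable [Dim]

open HE

/-- The data of the two parts. -/
structure DatH extends Dat where
  P : HOp Q
  θh : ℝ
  N : ℝ

namespace DatH

variable (X : DatH)

/-- The ratio of the collision frequency and the rate. -/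
def kr (s : ℝ) (x : E3) : ℝ := X.B.k1 s x / X.B.mu s x

/-- The combined weight. -/
def omh (s : ℝ) (x : E3) : ℝ := X.B.omH 0 s x + Real.exp (2 * X.δ * s) * X.B.omH X.B.eta s x

/-- The energy of the fast part. -/
def EH (q : ℕ) (A s : ℝ) (G H : E3 → SV) : ℝ := A * EnH X.n X.θh q (X.omh s) (X.B.sig s) G H

/-- The dissipation of the fast part. -/
def DH (q : ℕ) (A s : ℝ) (G : E3 → SV) : ℝ :=
  A * tint fun x => X.omh s x * (A * X.B.k1 s x) * YH X.P X.n X.θh q (X.B.sig s) G x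

/-- Standing assumptions at the weight `q`. -/
structure BaseH (q : ℕ) : Prop where
  base : X.Base
  θ_pos : 0 < X.θh
  θ_le : X.θh ≤ 1
  hn : 3 * dd + 3 * X.P.p ≤ X.n
  hq : 2 * X.n + X.P.q0 ≤ q

/-- Balls for the fast part. -/
structure BdH (q : ℕ) (A s0 a : ℝ) (H : ℝ → E3 → SV) : Prop where
  sm : SmC H
  per : ∀ s, Per (H s)
  ee : ∀ s, s0 ≤ s → X.EH q A s (H s) (H s) ≤ a
  di : ∀ s, s0 ≤ s → ∫ t in s0..s, X.DH q A t (H t) ≤ a

/-- What the fast part uses about the slow part. -/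
structure BdG (ρ A s0 a : ℝ) (G : ℝ → E3 → SV) : Prop where
  sm : SmC G
  per : ∀ s, Per (G s)
  ee : ∀ s, s0 ≤ s → X.EE X.n s (G s) (G s) ≤ a
  di : ∃ r : ℝ → ℝ, Continuous r ∧ (∀ s, 0 ≤ r s) ∧ ∀ s, s0 ≤ s → (∫ t in s0..s, r t) ≤ a ∧
    ∀ (l : E3 → ℝ) (e : ℝ), Continuous l → (∀ x, 0 ≤ l x) → (∀ x, l x ≤ e) →
      (∀ x, X.B.k1 s x * l x ≤ Real.exp (-ρ * s) * e) →
      tint (fun x => X.om s x * (A * X.B.k1 s x * l x * YY X.Q X.n X.θ (X.B.sig s) (G s) x))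
        ≤ e * r s

/-- A source that is controlled through the dissipation. -/
def SrcH (q : ℕ) (A s0 b : ℝ) (S : ℝ → E3 → SV) : Prop :=
  SmC S ∧ ∃ r : ℝ → ℝ, Continuous r ∧ (∀ s, 0 ≤ r s) ∧ ∀ s, s0 ≤ s → (∫ t in s0..s, r t) ≤ b ∧
    ∀ t : ℝ, 0 < t → ∀ u, Sm u → 2 * X.EH q A s (S s) u ≤ t * X.DH q A s u + t⁻¹ * r s

/-- Solutions of the linear problem of the fast part. -/
structure KinH (A s0 η : ℝ) (a u u' S : ℝ → E3 → SV) : Prop where
  smd : SmD u u'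
  per : ∀ s, Per (u s)
  per' : ∀ s, Per (u' s)
  init : ∀ x, u s0 x = 0
  eqn : ∀ s, s0 ≤ s → ∀ x, u' s x + (X.B.fld s).tr (u s) x
    + (A * X.B.k1 s x) • (X.Q.L (u s x) + X.N • Sq (u s x) + η • Jw 4 (u s x))
    - (A * X.B.k1 s x) • X.Q.G1 (a s x) (u s x) = S s x

/-- The linear energy inequality. -/
def LinH (q : ℕ) (c A0 s2 : ℝ) : Prop :=
  ∀ (A s0 η : ℝ) (a u u' S : ℝ → E3 → SV), A0 ≤ A → s2 ≤ s0 → 0 ≤ η → SmC a → SmC S →
    X.KinH A s0 η a u u' S → ∃ E' : ℝ → ℝ, Continuous E' ∧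
      (∀ s, HasDerivAt (fun t => X.EH q A t (u t) (u t)) (E' s) s) ∧
      ∀ s, s0 ≤ s → E' s + c * X.DH q A s (u s) ≤ 2 * X.EH q A s (S s) (u s)
        + 2 * X.EH q A s (fun x => (A * X.B.k1 s x) • X.Q.G1 (a s x) (u s x)) (u s)

/-- Pointwise bounds by the energies. -/
def SobH (q : ℕ) (ρ CS s1 : ℝ) : Prop :=
  ∀ s, s1 ≤ s → ∀ G : E3 → SV, Sm G → Per G → ∀ x,
    loH X.n q (X.B.sig s) G x ≤ CS * X.EE X.n s G G ∧
    loH X.n q (X.B.sig s) G x ≤ CS * X.EH q 1 s G G ∧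
    X.kr s x * loH X.n q (X.B.sig s) G x ≤ CS * X.EH q 1 s G G ∧
    X.B.k1 s x * (X.kr s x * loH X.n q (X.B.sig s) G x)
      ≤ Real.exp (-ρ * s) * (CS * X.EH q 1 s G G)

/-- The three linear couplings. -/
structure Cpl (q : ℕ) (C s3 : ℝ) : Prop where
  ds : ∀ A s0 a V, 1 ≤ A → s3 ≤ s0 → X.Bd A s0 a V →
    X.SrcH q A s0 (C * a / A) fun s x => X.B.mu s x • Ds (V s x)
  jw : ∀ A s0 a ζ H, 1 ≤ A → s3 ≤ s0 → X.BdH (q + 8) A s0 a H →
    X.SrcH q A s0 (C * ζ ^ 2 * a) fun s x => ζ • (A * X.B.k1 s x) • Jw 4 (H s x)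
  sq : ∀ A s0 a H, 1 ≤ A → s3 ≤ s0 → X.BdH q A s0 a H →
    X.SrcV s0 (C * a) fun s x => (A * X.B.k1 s x * X.N) • Sq (H s x)

/-- The two quadratic sources. -/
structure Quad (q : ℕ) (ρ C s3 : ℝ) : Prop where
  tA : ∀ A s0 a b G H Z, 1 ≤ A → s3 ≤ s0 → X.BdG ρ A s0 a G → X.BdH q A s0 a H →
    X.BdH (q + 1) A s0 b Z →
    X.SrcH q A s0 (C * a * b) fun s x => (A * X.B.k1 s x) • X.Q.G1 (G s x + H s x) (Z s x)
  tB : ∀ A s0 a b G H, 1 ≤ A → s3 ≤ s0 → X.BdH q A s0 a H → X.BdG ρ A s0 b G →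
    X.SrcH q A s0 (C * a * b) fun s x => (A * X.B.k1 s x) • X.Q.G1 (H s x) (G s x)

/-- The estimate for the solution of the linear problem. -/
def StepH (q : ℕ) (ρ C a0 A0 s3 : ℝ) : Prop :=
  ∀ A s0 η a b G H u u' S, A0 ≤ A → 1 ≤ A → s3 ≤ s0 → 0 ≤ η → a ≤ a0 → X.BdG ρ A s0 a G →
    X.BdH q A s0 a H → X.SrcH q A s0 b S → X.KinH A s0 η (fun s x => G s x + H s x) u u' S →
    X.BdH q A s0 (C * b) u

/-- The slow part with the corrector. -/
def ToG (gc : ℝ → E3 → SV) (ρ C s3 : ℝ) : Prop :=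
  ∀ A s0 l a V, 1 ≤ A → s3 ≤ s0 → A * Real.exp (-ρ * s0) ≤ 1 → l ^ 2 ≤ a → X.Bd A s0 a V →
    X.BdG ρ A s0 (C * a) fun s x => l • gc s x + V s x

/-- Existence for the linear problem. -/
def Solve (q : ℕ) (ρ a0 s3 : ℝ) : Prop :=
  ∀ A s0 η a G H S, 1 ≤ A → s3 ≤ s0 → 0 < η → a ≤ a0 → X.BdG ρ A s0 a G → X.BdH q A s0 a H →
    SmC S → (∀ s, Per (S s)) → ∃ u u', X.KinH A s0 η (fun s x => G s x + H s x) u u' S

variable {X} {q : ℕ} {ρ A s0 a b : ℝ} {G H H' S S' : ℝ → E3 → SV}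

lemma kr_pos (h : X.Base) (s : ℝ) (x : E3) : 0 < X.kr s x :=
  div_pos (k1_pos h.ok s x) (Lin.mu_pos _ s x)

lemma omh_eq (s : ℝ) (x : E3) : X.omh s x = X.om s x * X.kr s x := by
  simp only [omh, Dat.om, BgD.omH, kr]
  ring

lemma omh_pos (h : X.Base) (s : ℝ) (x : E3) : 0 < X.omh s x := by
  rw [omh_eq]
  exact mul_pos (Dat.om_pos s x) (kr_pos h s x)

lemma cont_omh (h : X.Base) : Continuous fun p : ℝ × E3 => X.omh p.1 p.2 :=
  (h.ok.sm_omH 0).sm.cont.add (Continuous.mul (by fun_prop) (h.ok.sm_omH _).sm.cont)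

lemma c_omh (h : X.Base) (s : ℝ) : Continuous (X.omh s) := cont_slice (cont_omh h) s

lemma c_kr (h : X.Base) (s : ℝ) : Continuous (X.kr s) :=
  (h.c_k1 s).div (h.ok.sm_mu.cont_slice s) fun x => (Lin.mu_pos _ s x).ne'

lemma BaseH.mono {q' : ℕ} (h : X.BaseH q) (hq : q ≤ q') : X.BaseH q' :=
  ⟨h.base, h.θ_pos, h.θ_le, h.hn, h.hq.trans hq⟩

lemma EH_eq (q : ℕ) (A s : ℝ) (G H : E3 → SV) : X.EH q A s G H = A * X.EH q 1 s G H := by
  simp only [EH, one_mul]

lemma EH_nonneg (h : X.BaseH q) (hA : 0 ≤ A) (r : ℕ) (s : ℝ) (G : E3 → SV) : 0 ≤ X.EH r A s G G :=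
  mul_nonneg hA (EnH_nonneg h.θ_pos.le fun x => (omh_pos h.base s x).le)

lemma EH_one_le (h : X.BaseH q) (hA : 1 ≤ A) (r : ℕ) (s : ℝ) (G : E3 → SV) :
    X.EH r 1 s G G ≤ X.EH r A s G G := by
  rw [EH_eq r A]
  exact le_mul_of_one_le_left (EH_nonneg h zero_le_one r s G) hA

lemma c_DH (h : X.BaseH q) (r : ℕ) (A s : ℝ) {G : E3 → SV} (hG : Sm G) :
    Continuous fun x => X.omh s x * (A * X.B.k1 s x) * YH X.P X.n X.θh r (X.B.sig s) G x :=
  ((c_omh h.base s).mul (continuous_const.mul (h.base.c_k1 s))).mul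
    (continuous_YH _ (h.base.c_sig s) hG)

lemma DH_nonneg (h : X.BaseH q) (hA : 0 ≤ A) (r : ℕ) (s : ℝ) (G : E3 → SV) : 0 ≤ X.DH r A s G :=
  mul_nonneg hA (tint_nonneg fun x => mul_nonneg (mul_nonneg (omh_pos h.base s x).le
    (mul_nonneg hA (k1_pos h.base.ok s x).le)) (YH_nonneg _ h.θ_pos.le x))

lemma cont_DH (h : X.BaseH q) (r : ℕ) (A : ℝ) (hH : SmC H) :
    Continuous fun s => X.DH r A s (H s) :=
  continuous_const.mul (continuous_tint (φ := fun s x =>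
    X.omh s x * (A * X.B.k1 s x) * YH X.P X.n X.θh r (X.B.sig s) (H s) x)
    (((cont_omh h.base).mul (continuous_const.mul h.base.ok.sm_k1.cont)).mul
      (cont_YH _ h.base.ok.sm_sig.sm.cont hH)))

lemma BdH.nonneg (hH : X.BdH q A s0 a H) : 0 ≤ a := by simpa using hH.di s0 le_rfl

lemma BdH.mono (hH : X.BdH q A s0 a H) (hab : a ≤ b) : X.BdH q A s0 b H :=
  ⟨hH.sm, hH.per, fun s hs => (hH.ee s hs).trans hab, fun s hs => (hH.di s hs).trans hab⟩

lemma BdG.nonneg (hG : X.BdG ρ A s0 a G) : 0 ≤ a := by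
  obtain ⟨r, -, -, h⟩ := hG.di
  simpa using (h s0 le_rfl).1

lemma BdG.mono (hG : X.BdG ρ A s0 a G) (hab : a ≤ b) : X.BdG ρ A s0 b G := by
  obtain ⟨r, h1, h2, h⟩ := hG.di
  exact ⟨hG.sm, hG.per, fun s hs => (hG.ee s hs).trans hab, r, h1, h2,
    fun s hs => ⟨(h s hs).1.trans hab, (h s hs).2⟩⟩

lemma SrcH.mono (hS : X.SrcH q A s0 a S) (hab : a ≤ b) : X.SrcH q A s0 b S := by
  obtain ⟨h0, r, h1, h2, h⟩ := hS
  exact ⟨h0, r, h1, h2, fun s hs => ⟨(h s hs).1.trans hab, (h s hs).2⟩⟩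

lemma SrcV_mono {X : Dat} (hS : X.SrcV s0 a S) (hab : a ≤ b) : X.SrcV s0 b S := by
  obtain ⟨h0, r, h1, h2, h⟩ := hS
  exact ⟨h0, r, h1, h2, fun s hs => ⟨(h s hs).1.trans hab, (h s hs).2⟩⟩

lemma int_two {f g : ℝ → ℝ} (hf : Continuous f) (hg : Continuous g) (s0 s α β : ℝ) :
    ∫ t in s0..s, (α * f t + β * g t) = α * (∫ t in s0..s, f t) + β * ∫ t in s0..s, g t := by
  rw [intervalIntegral.integral_add (Continuous.intervalIntegrable (by fun_prop) _ _)
    (Continuous.intervalIntegrable (by fun_prop) _ _), intervalIntegral.integral_const_mul,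
    intervalIntegral.integral_const_mul]

lemma SrcH.add (h : X.BaseH q) (hS : X.SrcH q A s0 a S) (hS' : X.SrcH q A s0 b S') :
    X.SrcH q A s0 (2 * a + 2 * b) fun s x => S s x + S' s x := by
  obtain ⟨h0, r, h1, h2, h3⟩ := hS
  obtain ⟨h0', r', h1', h2', h3'⟩ := hS'
  refine ⟨h0.add h0', fun s => 2 * r s + 2 * r' s, by fun_prop,
    fun s => by linarith [h2 s, h2' s], fun s hs => ⟨?_, fun t ht u hu => ?_⟩⟩
  · rw [int_two h1 h1']
    linarith [(h3 s hs).1, (h3' s hs).1]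
  · have e1 := (h3 s hs).2 _ (half_pos ht) u hu
    have e2 := (h3' s hs).2 _ (half_pos ht) u hu
    rw [show (t / 2)⁻¹ = 2 * t⁻¹ by field_simp] at e1 e2
    unfold EH at *
    rw [EnH_add_left (c_omh h.base s) (h.base.c_sig s) (h0.slice s) (h0'.slice s) hu]
    linarith

lemma BdH.zero (ha : 0 ≤ a) : X.BdH q A s0 a fun _ _ => 0 := by
  have h1 := fun s x => YH_smul X.P (n := X.n) (θ := X.θh) (r := q) (σ := X.B.sig s)
    (Sm.const (0 : SV)) 0 x
  simp only [smul_zero, ne_eq, OfNat.ofNat_ne_zero, not_false_eq_true, zero_pow, zero_mul] at h1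
  exact ⟨SmC.const 0, fun _ => Per.const _, fun s _ => by simpa [EH, EnH_zero_left] using ha,
    fun s _ => by simpa [DH, h1] using ha⟩

lemma BdH.sub (h : X.BaseH q) (hA : 0 ≤ A) (hH : X.BdH q A s0 a H) (hH' : X.BdH q A s0 b H') :
    X.BdH q A s0 (2 * a + 2 * b) fun s x => H s x - H' s x := by
  have sm := hH.sm.sub hH'.sm
  refine ⟨sm, fun s => (hH.per s).map₂ (hH'.per s) (· - ·), fun s hs => ?_, fun s hs => ?_⟩
  · have := mul_le_mul_of_nonneg_left (EnH_sub_le (n := X.n) (q := q) h.θ_pos.le (c_omh h.base s)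
      (fun x => (omh_pos h.base s x).le) (h.base.c_sig s) (hH.sm.slice s) (hH'.sm.slice s)) hA
    have e1 := hH.ee s hs
    have e2 := hH'.ee s hs
    unfold EH at *
    linarith
  · have c1 := cont_DH h q A hH.sm
    have c2 := cont_DH h q A hH'.sm
    have := intervalIntegral.integral_mono_on (μ := MeasureTheory.volume) hs
      ((cont_DH h q A sm).intervalIntegrable _ _)
      (Continuous.intervalIntegrable (u := fun t => 2 * X.DH q A t (H t) + 2 * X.DH q A t (H' t))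
        (by fun_prop) _ _) fun t _ => by
        have s1 := hH.sm.slice t
        have s2 := hH'.sm.slice t
        have := mul_le_mul_of_nonneg_left (tint_le_two (a := 2) (b := 2)
          (c_DH h q A t (s1.sub s2)) (c_DH h q A t s1) (c_DH h q A t s2) fun x => by
            have y1 := YH_add X.P (n := X.n) (r := q) (σ := X.B.sig t) h.θ_pos.le s1
              (s2.const_smul (-1)) x
            rw [YH_smul _ s2] at y1
            simp only [neg_smul, one_smul, ← sub_eq_add_neg] at y1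
            have := mul_le_mul_of_nonneg_left y1 (mul_nonneg (omh_pos h.base t x).le
              (mul_nonneg hA (k1_pos h.base.ok t x).le))
            linarith) hA
        unfold DH
        linarith
    rw [int_two c1 c2] at this
    linarith [hH.di s hs, hH'.di s hs]

/-- Lowering the weight. -/
lemma bdH_low (h : X.BaseH q) : ∃ C : ℝ, 1 ≤ C ∧ ∀ (r r' : ℕ) (A s0 a : ℝ) (H : ℝ → E3 → SV),
    0 ≤ A → r ≤ r' → r' ≤ r + 8 → X.BdH r' A s0 a H → X.BdH r A s0 (C * a) H := by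
  obtain ⟨C, hC, hY⟩ := YH_mono X.P 8
  refine ⟨C, hC, fun r r' A s0 a H hA h1 h2 hH => ⟨hH.sm, hH.per, fun s hs => ?_, fun s hs => ?_⟩⟩
  · have s1 := hH.sm.slice s
    refine le_trans ?_ ((hH.ee s hs).trans (le_mul_of_one_le_left hH.nonneg hC))
    refine mul_le_mul_of_nonneg_left ((EnH_le_of_le (a := 1) (c_omh h.base s) (c_omh h.base s)
      (h.base.c_sig s) s1 s1 fun x => ?_).trans (one_mul _).le) hA
    rw [one_mul]
    exact mul_le_mul_of_nonneg_left (bh_mono le_rfl h.θ_pos.le le_rfl (Nat.cast_le.2 h1) x)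
      (omh_pos h.base s x).le
  · have c2 := cont_DH h r' A hH.sm
    have := intervalIntegral.integral_mono_on (μ := MeasureTheory.volume) hs
      ((cont_DH h r A hH.sm).intervalIntegrable _ _)
      (Continuous.intervalIntegrable (u := fun t => C * X.DH r' A t (H t)) (by fun_prop) _ _)
      fun t _ => by
        have s1 := hH.sm.slice t
        have := mul_le_mul_of_nonneg_left (tint_le_one (a := C) (c_DH h r A t s1) (c_DH h r' A t s1)
          fun x => by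
            have := mul_le_mul_of_nonneg_left (hY X.n r r' X.θh (X.B.sig t) (H t) x h.θ_pos.le h1 h2)
              (mul_nonneg (omh_pos h.base t x).le (mul_nonneg hA (k1_pos h.base.ok t x).le))
            linarith) hA
        unfold DH
        linarith
    rw [intervalIntegral.integral_const_mul] at this
    exact this.trans (mul_le_mul_of_nonneg_left (hH.di s hs) (zero_le_one.trans hC))

end DatH

end Pool.Agent.BoltzM.Pic
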