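import Pool.Agent.BoltzM.Spec.Bg

/-!
Interface between the two halves of the Picard module: the iteration produces a sequence of smooth
approximate solutions (`Iter`), the limit step turns it into a classical solution (`Lim`).
-/

set_option autoImplicit false

open Pool.Agent.BoltzM.BoltzC Finset

noncomputable section

namespace Pool.Agent.BoltzM

variable [Dim]

/-- All `x`-derivatives of order at most two are small in the norm `nA N`, uniformly in `x`. -/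
def SmallN (N : ℕ) (η : ℝ) (G : E3 → SV) : Prop :=
  ∀ u : List Ix, u.length ≤ 2 → ∀ x, nA N (dXw u G x) ≤ η

/-- A sequence `h j` of smooth periodic approximate solutions; `g j` enters the quadratic term and
`e j` is the error. -/
structure Iter (Q : CollOp) (F : ℝ → Fld) (k : ℝ → E3 → ℝ) (s0 ε : ℝ) (N : ℕ)
    (h h' g e : ℕ → ℝ → E3 → SV) : Prop where
  smd : ∀ j, SmD (h j) (h' j)
  smg : ∀ j, SmC (g j)
  sme : ∀ j, SmC (e j)
  per : ∀ j s, Per (h j s)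
  per' : ∀ j s, Per (h' j s)
  perg : ∀ j s, Per (g j s)
  pere : ∀ j s, Per (e j s)
  eqn : ∀ j s, s0 ≤ s → ∀ x, h' j s x + (F s).tr (h j s) x + k s x • Q.L (h j s x)
    = (F s).src x + (k s x / 2) • Q.G (g j s x) (g j s x) + e j s x
  small : ∀ j s, s0 ≤ s → ∀ x, nA N (h j s x) ≤ ε
  cauchy : ∀ s1 η : ℝ, 0 < η → ∃ J, ∀ j, J ≤ j → ∀ l, J ≤ l → ∀ s ∈ Set.Icc s0 s1,
    SmallN N η (fun x => h j s x - h l s x) ∧ SmallN N η (fun x => g j s x - h j s x) ∧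
      SmallN N η (e j s)
  init : ∃ (m : ℕ) (Ψ : Fin m → E3 → SV), (∀ i, Sm (Ψ i)) ∧
    ∀ j, ∃ α : Fin m → ℝ, ∀ x, h j s0 x = ∑ i, α i • Ψ i x
  init_small : ∀ j x V, |h j s0 x V| ≤ 1 / 2 * sqM V

/-- M6c-1: the iteration. -/
def IterStmt : Prop :=
  ∀ (Q : CollOp) (B : BgD), B.Ok → ∀ (N : ℕ) (ε : ℝ), 0 < ε →
    ∃ (A s0 : ℝ) (h h' g e : ℕ → ℝ → E3 → SV), 0 < A ∧ 0 ≤ s0 ∧
      Iter Q B.fld (fun s x => A * B.k1 s x) s0 ε N h h' g e

/-- M6c-2: the limit. -/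
def LimitStmt : Prop :=
  ∀ Q : CollOp, (∀ (f g : SV) (v : E3), Q.G f g v = Coll.Gs f g v) → ∀ (p : ℕ) (ε : ℝ), 0 < ε →
    ∃ (N : ℕ) (ε' : ℝ), 0 < ε' ∧ ∀ (F : ℝ → Fld) (k : ℝ → E3 → ℝ) (s0 : ℝ)
      (h h' g e : ℕ → ℝ → E3 → SV), FldC F → SmC k → (∀ s, Per (k s)) →
      Iter Q F k s0 ε' N h h' g e → ∃ f : ℝ → E3 → E3 → ℝ, Lim F k s0 ε p f

theorem picard_of (hc : CollStmt) (h1 : IterStmt) (h2 : LimitStmt) : PicardStmt := by
  obtain ⟨Q, hQ⟩ := hc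
  intro B hB p ε hε
  obtain ⟨N, ε', hε', h2⟩ := h2 Q hQ p ε hε
  obtain ⟨A, s0, h, h', g, e, hA, hs0, hI⟩ := h1 Q B hB N ε' hε'
  obtain ⟨f, hf⟩ := h2 B.fld _ s0 h h' g e hB.fldC (hB.sm_k1.const_smul A)
    (fun s i x => by simp only [BgD.k1, hB.per_C s i x]) hI
  exact ⟨A, s0, f, hA, hs0, hf⟩

end Pool.Agent.BoltzM
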