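import Pool.Agent.BoltzM.Calc.Class
import Pool.Agent.BoltzM.Calc.VSob

/-! Calculus for the passage to the limit: continuous directional derivatives, reflection in time,
evaluation of Schwartz valued maps. -/

set_option autoImplicit false

open Filter Topology Pool.Agent.BoltzM.BoltzC Set
open scoped ContDiff

noncomputable section

namespace Pool.Agent.BoltzM.PicLim

variable [Dim]

section Dir

variable {X : Type*} [NormedAddCommGroup X] [NormedSpace ℝ X] {ι : Type*} [Fintype ι]

lemma hasDerivAt_line_shift {f : X → ℝ} {e : X} {D : X → ℝ}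
    (hf : ∀ x, HasDerivAt (fun t : ℝ => f (x + t • e)) (D x) 0) (x : X) (t : ℝ) :
    HasDerivAt (fun t : ℝ => f (x + t • e)) (D (x + t • e)) t := by
  have h := hf (x + t • e)
  have h2 : HasDerivAt (fun τ : ℝ => f (x + t • e + (τ - t) • e)) (D (x + t • e)) t := by
    have := HasDerivAt.comp_sub_const (f := fun τ : ℝ => f (x + t • e + τ • e)) t t
      (by simpa using h)
    exact this
  refine h2.congr_of_eventuallyEq (Eventually.of_forall fun τ => ?_)
  simp only [sub_smul]
  congr 1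
  abel

theorem hasFDerivAt_of_dir (e : ι → X) (π : ι → X →L[ℝ] ℝ) (he : ∀ x, ∑ i, π i x • e i = x)
    {f : X → ℝ} {D : ι → X → ℝ} (hD : ∀ i, Continuous (D i))
    (hf : ∀ i x, HasDerivAt (fun t : ℝ => f (x + t • e i)) (D i x) 0) (x : X) :
    HasFDerivAt f (∑ i, D i x • π i) x := by
  classical
  rw [hasFDerivAt_iff_isLittleO_nhds_zero, Asymptotics.isLittleO_iff]
  intro c hc
  set A : ℝ := ∑ i, ‖π i‖ + 1 with hA
  set B : ℝ := ∑ i, ‖π i‖ * ‖e i‖ + 1 with hB
  have A0 : 0 < A := by positivity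
  have B0 : 0 < B := by positivity
  have h1 : ∀ᶠ y in 𝓝 x, ∀ i, |D i y - D i x| ≤ c / A := by
    refine eventually_all.2 fun i => ?_
    have := (Metric.tendsto_nhds.1 ((hD i).tendsto x)) (c / A) (by positivity)
    filter_upwards [this] with y hy
    exact (Real.dist_eq _ _ ▸ hy).le
  obtain ⟨δ, hδ, h2⟩ := Metric.eventually_nhds_iff.1 h1
  have key : ∀ (t : ι → ℝ) (S : Finset ι), ∑ i ∈ S, |t i| * ‖e i‖ < δ →
      |f (x + ∑ i ∈ S, t i • e i) - f x - ∑ i ∈ S, D i x * t i| ≤ c / A * ∑ i ∈ S, |t i| := by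
    intro t S
    induction S using Finset.induction_on with
    | empty => simp
    | insert j S hj ih =>
      intro hS
      simp only [Finset.sum_insert hj] at hS ⊢
      have a0 : 0 ≤ |t j| * ‖e j‖ := by positivity
      have a1 := ih (by linarith)
      set y := x + ∑ i ∈ S, t i • e i with hy
      have a2 : ‖y - x‖ ≤ ∑ i ∈ S, |t i| * ‖e i‖ := by
        rw [hy, add_sub_cancel_left]
        exact (norm_sum_le _ _).trans (le_of_eq (Finset.sum_congr rfl fun i _ => by
          rw [norm_smul, Real.norm_eq_abs]))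
      have a3 := Convex.norm_image_sub_le_of_norm_hasDerivWithin_le
        (f := fun τ : ℝ => f (y + τ • e j) - D j x * τ)
        (f' := fun τ => D j (y + τ • e j) - D j x) (C := c / A) (s := uIcc 0 (t j))
        (fun τ _ => by
          have := ((hasDerivAt_line_shift (hf j) y τ).fun_sub
            ((hasDerivAt_id τ).const_mul (D j x))).hasDerivWithinAt (s := uIcc 0 (t j))
          simpa using this)
        (fun τ hτ => by
          refine h2 ?_ j
          rw [dist_eq_norm, add_sub_right_comm]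
          refine (norm_add_le _ _).trans_lt ?_
          have b1 : |τ| ≤ |t j| := by simpa using abs_sub_left_of_mem_uIcc hτ
          have b2 : ‖τ • e j‖ ≤ |t j| * ‖e j‖ := by
            rw [norm_smul, Real.norm_eq_abs]; gcongr
          linarith) (convex_uIcc _ _) left_mem_uIcc right_mem_uIcc
      simp only [zero_smul, add_zero, mul_zero, sub_zero, Real.norm_eq_abs] at a3
      have e1 : x + (t j • e j + ∑ i ∈ S, t i • e i) = y + t j • e j := by rw [hy]; abel
      rw [e1]
      have a4 := abs_add_le (f (y + t j • e j) - D j x * t j - f y)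
        (f y - f x - ∑ i ∈ S, D i x * t i)
      rw [mul_add]
      refine le_trans (le_of_eq ?_) (a4.trans (add_le_add a3 a1))
      congr 1
      ring
  filter_upwards [Metric.ball_mem_nhds (0 : X) (div_pos hδ B0)] with h hh
  rw [mem_ball_zero_iff, lt_div_iff₀ B0] at hh
  have b0 := norm_nonneg h
  have b1 : ∀ i, |π i h| ≤ ‖π i‖ * ‖h‖ := fun i => (π i).le_opNorm h
  have b2 := key (fun i => π i h) Finset.univ (by
    refine lt_of_le_of_lt ?_ hh
    calc ∑ i, |π i h| * ‖e i‖ ≤ ∑ i, ‖π i‖ * ‖h‖ * ‖e i‖ :=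
          Finset.sum_le_sum fun i _ => by gcongr; exact b1 i
      _ = ‖h‖ * ∑ i, ‖π i‖ * ‖e i‖ := by
          rw [Finset.mul_sum]; exact Finset.sum_congr rfl fun i _ => by ring
      _ ≤ _ := by gcongr; linarith)
  rw [he] at b2
  have b3 : ∑ i, |π i h| ≤ A * ‖h‖ := by
    calc ∑ i, |π i h| ≤ ∑ i, ‖π i‖ * ‖h‖ := Finset.sum_le_sum fun i _ => b1 i
      _ = (∑ i, ‖π i‖) * ‖h‖ := by rw [Finset.sum_mul]
      _ ≤ _ := by gcongr; linarith
  simp only [sum_apply, smul_apply, smul_eq_mul,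
    Real.norm_eq_abs]
  refine b2.trans ((mul_le_mul_of_nonneg_left b3 (by positivity)).trans (le_of_eq ?_))
  field_simp

theorem contDiff_one_of_dir (e : ι → X) (π : ι → X →L[ℝ] ℝ) (he : ∀ x, ∑ i, π i x • e i = x)
    {f : X → ℝ} {D : ι → X → ℝ} (hD : ∀ i, Continuous (D i))
    (hf : ∀ i x, HasDerivAt (fun t : ℝ => f (x + t • e i)) (D i x) 0) : ContDiff ℝ 1 f := by
  have h := hasFDerivAt_of_dir e π he hD hf
  rw [contDiff_one_iff_fderiv]
  refine ⟨fun x => (h x).differentiableAt, ?_⟩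
  rw [show fderiv ℝ f = fun x => ∑ i, D i x • π i from funext fun x => (h x).fderiv]
  exact continuous_finsetSum _ fun i _ => (hD i).smul continuous_const

theorem contDiff_of_coind (e : ι → X) (π : ι → X →L[ℝ] ℝ) (he : ∀ x, ∑ i, π i x • e i = x)
    (P : (X → ℝ) → Prop) (hP : ∀ f, P f → Continuous f ∧
      ∀ i, ∃ D, P D ∧ ∀ x, HasDerivAt (fun t : ℝ => f (x + t • e i)) (D x) 0)
    {f : X → ℝ} (hf : P f) : ContDiff ℝ ∞ f := by
  rw [contDiff_infty]
  intro n
  induction n generalizing f with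
  | zero => exact contDiff_zero.2 (hP f hf).1
  | succ n ih =>
    choose D hD1 hD2 using (hP f hf).2
    have h := hasFDerivAt_of_dir e π he (fun i => (hP _ (hD1 i)).1) hD2
    rw [Nat.cast_succ, contDiff_succ_iff_fderiv]
    refine ⟨fun x => (h x).differentiableAt, by simp, ?_⟩
    rw [show fderiv ℝ f = fun x => ∑ i, D i x • π i from funext fun x => (h x).fderiv]
    exact ContDiff.sum fun i _ => (ih (hD1 i)).smul contDiff_const

theorem dir_of_limit {e : X} {f D : ℕ → X → ℝ} {F Dl : X → ℝ}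
    (hf : ∀ N x, HasDerivAt (fun t : ℝ => f N (x + t • e)) (D N x) 0)
    (hF : ∀ x, Tendsto (fun N => f N x) atTop (𝓝 (F x)))
    (hD : TendstoLocallyUniformly D Dl atTop) (x : X) :
    HasDerivAt (fun t : ℝ => F (x + t • e)) (Dl x) 0 := by
  have h1 := hD.comp (fun t : ℝ => x + t • e) (by fun_prop)
  have h2 := hasDerivAt_of_tendstoLocallyUniformlyOn (s := univ) isOpen_univ
    (tendstoLocallyUniformlyOn_univ.2 h1)
    (Eventually.of_forall fun N t _ => hasDerivAt_line_shift (hf N) x t)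
    (fun t _ => hF (x + t • e)) (mem_univ 0)
  simpa using h2

end Dir

/-- Odd reflection in time at `s0`. -/
lemma hasDerivAt_refl {φ φ' : ℝ → ℝ} (h : ∀ s, HasDerivAt φ (φ' s) s) (s0 s : ℝ) :
    HasDerivAt (fun σ => φ (max σ s0) + φ s0 - φ (max (2 * s0 - σ) s0)) (φ' (s0 + |s - s0|)) s := by
  have r : ∀ σ, s0 ≤ σ → φ (max σ s0) + φ s0 - φ (max (2 * s0 - σ) s0) = φ σ := by
    intro σ hσ
    rw [max_eq_left hσ, max_eq_right (by linarith)]
    ring
  have l : ∀ σ, σ ≤ s0 →
      φ (max σ s0) + φ s0 - φ (max (2 * s0 - σ) s0) = 2 * φ s0 - φ (2 * s0 - σ) := by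
    intro σ hσ
    rw [max_eq_right hσ, max_eq_left (by linarith)]
    ring
  have dl : HasDerivAt (fun σ => 2 * φ s0 - φ (2 * s0 - σ)) (φ' (2 * s0 - s)) s := by
    simpa using ((h (2 * s0 - s)).comp_const_sub (2 * s0) s).const_sub (2 * φ s0)
  rcases lt_trichotomy s s0 with hs | rfl | hs
  · rw [abs_of_neg (by linarith), show s0 + -(s - s0) = 2 * s0 - s by ring]
    refine dl.congr_of_eventuallyEq ?_
    filter_upwards [Iio_mem_nhds hs] with σ hσ using l σ (le_of_lt hσ)
  · rw [sub_self, abs_zero, add_zero, ← hasDerivWithinAt_univ, ← Iic_union_Ici (a := s)]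
    refine HasDerivWithinAt.union ?_ ?_
    · rw [show 2 * s - s = s by ring] at dl
      exact dl.hasDerivWithinAt.congr (fun σ hσ => l σ hσ) (l s le_rfl)
    · exact (h s).hasDerivWithinAt.congr (fun σ hσ => r σ hσ) (r s le_rfl)
  · rw [abs_of_pos (by linarith), show s0 + (s - s0) = s by ring]
    refine (h s).congr_of_eventuallyEq ?_
    filter_upwards [Ioi_mem_nhds hs] with σ hσ using r σ (le_of_lt hσ)

lemma continuous_evalSV : Continuous fun p : SV × E3 => p.1 p.2 :=
  (continuous_eval (F := BoundedContinuousFunction E3 ℝ)).comp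
    (((SchwartzMap.toBoundedContinuousFunctionCLM ℝ E3 ℝ).continuous.comp continuous_fst).prodMk
      continuous_snd)

/-- Evaluation at a velocity. -/
def evV (V : E3) : SV →L[ℝ] ℝ :=
  (BoundedContinuousFunction.evalCLM ℝ V).comp (SchwartzMap.toBoundedContinuousFunctionCLM ℝ E3 ℝ)

@[simp] lemma evV_apply (V : E3) (f : SV) : evV V f = f V := rfl

lemma hd_eval {γ : ℝ → SV} {a : SV} {t : ℝ} (h : HD γ a t) (V : E3) :
    HasDerivAt (fun s => γ s V) (a V) t := (h.clm (evV V)).hasDerivAt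

theorem contDiff_of_sm {G : E3 → SV} (hG : Sm G) :
    ContDiff ℝ ∞ fun q : E3 × E3 => G q.1 q.2 := by
  refine contDiff_of_coind (ι := Ix ⊕ Ix)
    (Sum.elim (fun i => ((ev i, 0) : E3 × E3)) fun j => (0, ev j))
    (Sum.elim (fun i => (EuclideanSpace.proj i : E3 →L[ℝ] ℝ).comp (ContinuousLinearMap.fst ℝ _ _))
      fun j => (EuclideanSpace.proj j : E3 →L[ℝ] ℝ).comp (ContinuousLinearMap.snd ℝ _ _))
    (fun x => ?_) (fun f => ∃ G : E3 → SV, Sm G ∧ f = fun q => G q.1 q.2) ?_ ⟨G, hG, rfl⟩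
  · rw [Fintype.sum_sum_type]
    ext1
    · simpa [Prod.fst_sum] using sum_coord_ev x.1
    · simpa [Prod.snd_sum] using sum_coord_ev x.2
  · rintro _ ⟨G, hG, rfl⟩
    refine ⟨continuous_evalSV.comp ((hG.cont.comp continuous_fst).prodMk continuous_snd), ?_⟩
    rintro (i | j)
    · refine ⟨_, ⟨_, hG.dX i, rfl⟩, fun x => ?_⟩
      simpa using hd_eval (hG.dif i x.1) x.2
    · refine ⟨_, ⟨_, hG.clm (dV j), rfl⟩, fun x => ?_⟩
      simpa using hasDerivAt_line (G x.1) j x.2

end Pool.Agent.BoltzM.PicLim
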