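import Pool.Agent.BoltzM.Pic.LimB
import Pool.Agent.BoltzM.Spec.Hot

/-! The limit of the Picard iterates is a classical solution. -/

set_option autoImplicit false

open Filter Topology Pool.Agent.BoltzM.BoltzC Set
open scoped ContDiff

noncomputable section

namespace Pool.Agent.BoltzM.PicLim

variable [Dim]

open Coll

lemma vel_apply (F : Fld) (x : E3) (f : SV) (V : E3) :
    F.vel x f V = -∑ j, F.bj x V j * (V j / 2 * f V - dV j f V) := by
  simp only [Fld.vel, Fld.bj, neg_apply, add_apply, smul_apply, mulV_apply, ap_apply,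
    dV_apply, smul_eq_mul, _root_.sum_apply, add_mul, Finset.sum_add_distrib, Finset.sum_mul,
    mul_assoc]
  rw [Finset.sum_comm (f := fun i j => F.b1 i j x * _), Finset.sum_comm (f := fun i j => F.b2 i x * _)]

lemma tr_apply (F : Fld) (G : E3 → SV) (x V : E3) :
    F.tr G x V = ∑ i, (F.u i x + F.c x * V i) * dX i G x V
      - ∑ j, F.bj x V j * (V j / 2 * G x V - dV j (G x) V) := by
  simp only [Fld.tr, add_apply, smul_apply, mulV_apply, vel_apply, smul_eq_mul,
    _root_.sum_apply, add_mul, mul_assoc, sub_eq_add_neg]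

lemma dV_Sq (j : Ix) (f : SV) (V : E3) : dV j (Sq f) V = -(sqM V * (V j / 2 * f V - dV j f V)) := by
  have e : (Sq f : E3 → ℝ) = fun W => sqM W * f W := funext (Sq_apply f)
  rw [dV_apply, dV_apply, e, ((hasFDerivAt_sqM V).fun_mul (f.hasFDerivAt V)).fderiv]
  simp [inner_ev]
  ring

lemma Sq_vel (F : Fld) (x : E3) (f : SV) (V : E3) :
    Sq (F.vel x f) V = ∑ j, F.bj x V j * dV j (Sq f) V := by
  rw [Sq_apply, vel_apply, mul_neg, Finset.mul_sum, ← Finset.sum_neg_distrib]
  exact Finset.sum_congr rfl fun j _ => by rw [dV_Sq]; ring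

lemma Sq_tr (F : Fld) (G : E3 → SV) (x V : E3) :
    Sq (F.tr G x) V = ∑ i, (F.u i x * Sq (dX i G x) V + F.c x * (V i * Sq (dX i G x) V))
      + ∑ j, F.bj x V j * dV j (Sq (G x)) V := by
  rw [Fld.tr, map_add, add_apply, Sq_vel, map_sum, _root_.sum_apply]
  congr 1
  exact Finset.sum_congr rfl fun i _ => by
    simp only [Sq_apply, add_apply, smul_apply, mulV_apply, smul_eq_mul]
    ring

lemma Sq_G1 {Q : CollOp} (hQ : Q.Real) (f g : SV) (V : E3) :
    Sq (Q.G1 f g) V = Tri (fun _ => 1) (Sq f) (Sq g) V := by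
  rw [Sq_apply, hQ.1, show (Sq f : E3 → ℝ) = fun W => sM W * f W from funext (Sq_apply f),
    show (Sq g : E3 → ℝ) = fun W => sM W * g W from funext (Sq_apply g)]
  exact sM_mul_Gam f g V

lemma nice_sv (q : ℕ) (f : SV) : ∃ K, Nice q K f := by
  obtain ⟨C, hC, h⟩ := weighted_le_nA q
  exact ⟨_, nice_of_fderiv f.differentiable (fun v => (h f v).1.trans (le_max_left _ _))
    fun v => (h f v).2.trans (le_max_right _ _)⟩

lemma dV_le {q : ℕ} {K : ℝ} {f : SV} (h : PW q K f) (V : E3) (j : Ix) :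
    (1 + ‖V‖) ^ q * |dV j (Sq f) V| ≤ K := by
  refine le_trans (mul_le_mul_of_nonneg_left ?_ (wt_pos V q).le) (h V).2
  simpa [dV_apply, norm_ev] using (fderiv ℝ (Sq f) V).le_opNorm (ev j)

variable {s0 : ℝ} {p : ℕ} {φ : ℕ → Fn} {ψ : Fn}

lemma Cv.bj {F : ℝ → Fld} (hF : FldC F) (h : Cv s0 (p + 2) φ ψ) (j : Ix) :
    Cv s0 p (fun N s x V => (F s).bj x V j * φ N s x V)
      fun s x V => (F s).bj x V j * ψ s x V := by
  have a0 := (h.mono (p' := p) (by omega)).coef (hF.b0 j) fun s => ((hF.reg s).b0 j).2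
  have a1 := Cv.sum Finset.univ fun i =>
    ((h.mono (p' := p + 1) (by omega)).coord i).coef (hF.b1 i j) fun s => ((hF.reg s).b1 i j).2
  have a2 := Cv.sum Finset.univ fun i =>
    ((h.coord j).coord i).coef (hF.b2 i) fun s => ((hF.reg s).b2 i).2
  have e : ∀ (s : ℝ) (x V : E3) (y : ℝ), (F s).bj x V j * y = (F s).b0 j x * y +
      ∑ i, (F s).b1 i j x * (V i * y) + ∑ i, (F s).b2 i x * (V i * (V j * y)) := by
    intro s x V y
    simp only [Fld.bj, add_mul, Finset.sum_mul, mul_assoc]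
  simp only [e]
  exact (a0.add a1).add a2

/-- The directions in `(s, x, V)`. -/
def dir : Unit ⊕ Ix ⊕ Ix → ℝ × E3 × E3 :=
  Sum.elim (fun _ => (1, 0, 0)) (Sum.elim (fun i => (0, ev i, 0)) fun j => (0, 0, ev j))

/-- The coordinates in `(s, x, V)`. -/
def crd : Unit ⊕ Ix ⊕ Ix → (ℝ × E3 × E3) →L[ℝ] ℝ :=
  Sum.elim (fun _ => ContinuousLinearMap.fst ℝ _ _) (Sum.elim
    (fun i => (EuclideanSpace.proj i : E3 →L[ℝ] ℝ).comp
      ((ContinuousLinearMap.fst ℝ _ _).comp (ContinuousLinearMap.snd ℝ _ _)))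
    fun j => (EuclideanSpace.proj j : E3 →L[ℝ] ℝ).comp
      ((ContinuousLinearMap.snd ℝ _ _).comp (ContinuousLinearMap.snd ℝ _ _)))

lemma sum_crd (q : ℝ × E3 × E3) : ∑ i, crd i q • dir i = q := by
  rw [Fintype.sum_sum_type, Fintype.sum_sum_type]
  ext1
  · simp [crd, dir, Prod.fst_sum]
  · ext1
    · simpa [crd, dir, Prod.fst_sum, Prod.snd_sum] using sum_coord_ev q.2.1
    · simpa [crd, dir, Prod.fst_sum, Prod.snd_sum] using sum_coord_ev q.2.2

lemma norm_crd_le (i : Unit ⊕ Ix ⊕ Ix) : ‖crd i‖ ≤ 1 := by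
  refine ContinuousLinearMap.opNorm_le_bound _ zero_le_one fun q => ?_
  rw [one_mul]
  rcases i with i | i | i
  · exact norm_fst_le q
  · exact (PiLp.norm_apply_le q.2.1 i).trans ((norm_fst_le q.2).trans (norm_snd_le q))
  · exact (PiLp.norm_apply_le q.2.2 i).trans ((norm_snd_le q.2).trans (norm_snd_le q))

/-- The extension of a convergent sequence is of class `C^1`. -/
lemma hasFDerivAt_odd {h h' : ℕ → ℝ → E3 → SV} (hd : ∀ j, SmD (h j) (h' j)) {α : Fn}
    {β χ : Ix → Fn} (c0 : Cv s0 p (fun N s x V => h N s x V) ψ)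
    (c1 : Cv s0 p (fun N s x V => h' N s x V) α)
    (c2 : ∀ i, Cv s0 p (fun N s x V => dX i (h N s) x V) (β i))
    (c3 : ∀ j, Cv s0 p (fun N s x V => dV j (h N s x) V) (χ j)) :
    ContDiff ℝ 1 (odd s0 ψ) ∧ ∀ q, HasFDerivAt (odd s0 ψ)
      (∑ i, Sum.elim (fun _ => even s0 α) (Sum.elim (fun i => odd s0 (β i)) fun j => odd s0 (χ j))
        i q • crd i) q := by
  have hD : ∀ i : Unit ⊕ Ix ⊕ Ix, Continuous (Sum.elim (fun _ => even s0 α)
      (Sum.elim (fun i => odd s0 (β i)) fun j => odd s0 (χ j)) i) := by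
    rintro (i | i | i)
    · exact c1.even.continuous (Frequently.of_forall fun N => continuous_even (hd N).sm')
    · exact (c2 i).odd.continuous (Frequently.of_forall fun N => continuous_odd ((hd N).sm.dX i))
    · exact (c3 i).odd.continuous
        (Frequently.of_forall fun N => continuous_odd ((hd N).sm.clm (dV i)))
  have pt : ∀ q, Tendsto (fun N => odd s0 (fun s x V => h N s x V) q) atTop (𝓝 (odd s0 ψ q)) :=
    fun q => (tendstoLocallyUniformlyOn_univ.2 c0.odd).tendsto_at (mem_univ q)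
  have hf : ∀ (i : Unit ⊕ Ix ⊕ Ix) q, HasDerivAt (fun t : ℝ => odd s0 ψ (q + t • dir i))
      (Sum.elim (fun _ => even s0 α)
        (Sum.elim (fun i => odd s0 (β i)) fun j => odd s0 (χ j)) i q) 0 := by
    rintro (i | i | i)
    · refine dir_of_limit (fun N q => ?_) pt c1.even
      have := (hasDerivAt_refl (fun s => hd_eval ((hd N).hd s q.2.1) q.2.2) s0 q.1)
      rw [← add_zero q.1] at this
      simpa [odd, even, dir] using this.comp_const_add q.1 0
    · refine dir_of_limit (fun N q => ?_) pt (c2 i).odd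
      have k := fun s => hd_eval ((hd N).sm.dif s i q.2.1) q.2.2
      simpa [odd, dir] using ((k _).fun_add (k s0)).fun_sub (k _)
    · refine dir_of_limit (fun N q => ?_) pt (c3 i).odd
      have k := fun s => hasDerivAt_line (h N s q.2.1) i q.2.2
      simpa [odd, dir] using ((k _).fun_add (k s0)).fun_sub (k _)
  exact ⟨contDiff_one_of_dir dir crd sum_crd hD hf, hasFDerivAt_of_dir dir crd sum_crd hD hf⟩

lemma smooth_of_span {m : ℕ} {Ψ : Fin m → E3 → SV} (hΨ : ∀ i, Sm (Ψ i)) {h : ℕ → E3 → SV}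
    (hs : ∀ j, ∃ α : Fin m → ℝ, ∀ x, h j x = ∑ i, α i • Ψ i x) {f : E3 × E3 → ℝ}
    (ht : ∀ q, Tendsto (fun j => h j q.1 q.2) atTop (𝓝 (f q))) : ContDiff ℝ ∞ f := by
  set W : Submodule ℝ (E3 × E3 → ℝ) := Submodule.span ℝ (range fun i q => Ψ i q.1 q.2) with hW
  have : FiniteDimensional ℝ W := FiniteDimensional.span_of_finite ℝ (finite_range _)
  have hf : f ∈ W := W.closed_of_finiteDimensional.mem_of_tendsto (tendsto_pi_nhds.2 ht)
    (Eventually.of_forall fun j => by
      obtain ⟨α, hα⟩ := hs j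
      refine (Submodule.mem_span_range_iff_exists_fun ℝ).2 ⟨α, ?_⟩
      funext q
      simp [hα])
  obtain ⟨α, rfl⟩ := (Submodule.mem_span_range_iff_exists_fun ℝ).1 hf
  have := contDiff_of_sm (Sm.sum Finset.univ fun i _ => (hΨ i).const_smul (α i))
  refine (congrArg (ContDiff ℝ ∞) (funext fun q => ?_)).mp this
  simp

end Pool.Agent.BoltzM.PicLim

namespace Pool.Agent.BoltzM

variable [Dim]

open PicLim Coll

theorem limit (hT : TriStmt) : LimitStmt := by
  intro Q hQ p ε hε
  obtain ⟨P, hT, -⟩ := hT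
  obtain ⟨C, hC, T⟩ := hT p
  replace T : TB p P C := T
  refine ⟨p + P + 2, ε / 2 ^ (p + P + 2), by positivity, fun F k s0 h h' g g' e hF hk pk I => ?_⟩
  have sd : ∀ j, SmD (fun s x => Sq (h j s x)) fun s x => Sq (h' j s x) := fun j => (I.smd j).clm Sq
  have dx : ∀ j s i x, dX i (fun y => Sq (h j s y)) x = Sq (dX i (h j s) x) := fun j s i x =>
    congrFun (dX_clm ((I.smd j).sm.dif s) Sq i) x
  obtain ⟨ψ, c0⟩ := exists_cv (s0 := s0) (p := p + P + 2) (φ := fun N s x V => Sq (h N s x) V)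
    fun s1 δ hδ => (I.cauchy s1 δ hδ).imp fun J t j hj l hl s hs x V => by
      simpa only [map_sub, sub_apply] using ((t j hj l hl s hs x).1 V).1
  choose χ c3 using fun i => exists_cv (s0 := s0) (p := p + P + 2)
    (φ := fun N s x V => dV i (Sq (h N s x)) V)
    fun s1 δ hδ => (I.cauchy s1 δ hδ).imp fun J t j hj l hl s hs x V => by
      simpa only [map_sub, sub_apply] using dV_le (t j hj l hl s hs x).1 V i
  choose β c2 using fun i => exists_cv (s0 := s0) (p := p + P + 2)
    (φ := fun N s x V => Sq (dX i (h N s) x) V)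
    fun s1 δ hδ => (I.cauchy s1 δ hδ).imp fun J t j hj l hl s hs x V => by
      simpa only [map_sub, sub_apply] using ((t j hj l hl s hs x).2.1 i V).1
  have near : ∀ a : ℕ → ℝ → E3 → SV, (∀ s1 η : ℝ, 0 < η → ∃ J, ∀ j, J ≤ j → ∀ s ∈ Icc s0 s1, ∀ x,
      PW (p + P + 2) η (a j s x - h j s x)) →
      NCv s0 (p + P) (fun N s x V => Sq (a N s x) V) ψ := by
    intro a ha
    refine ncv_of_cv (g := fun N s x => Sq (a N s x)) (χ := χ) (Cv.mono (p := p + P + 2) ?_ (by omega))
      fun i => Cv.mono (p := p + P + 2) ?_ (by omega)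
    · have : Cv s0 (p + P + 2) (fun N s x V => Sq (a N s x) V - Sq (h N s x) V) fun _ _ _ => 0 :=
        fun s1 δ hδ => (ha s1 δ hδ).elim fun J t => (eventually_ge_atTop J).mono
          fun j hj s hs x V => by simpa only [map_sub, sub_apply, sub_zero] using (t j hj s hs x V).1
      simpa only [sub_add_cancel, zero_add] using this.add c0
    · have : Cv s0 (p + P + 2) (fun N s x V => dV i (Sq (a N s x)) V - dV i (Sq (h N s x)) V)
          fun _ _ _ => 0 :=
        fun s1 δ hδ => (ha s1 δ hδ).elim fun J t => (eventually_ge_atTop J).mono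
          fun j hj s hs x V => by
            simpa only [map_sub, sub_apply, sub_zero] using dV_le (t j hj s hs x) V i
      simpa only [sub_add_cancel, zero_add] using this.add (c3 i)
  have ng := near g fun s1 η hη => (I.cauchy s1 η hη).imp fun J t j hj s hs x =>
    (t j hj j hj s hs x).2.2.1
  have ng' := near g' fun s1 η hη => (I.cauchy s1 η hη).imp fun J t j hj s hs x =>
    (t j hj j hj s hs x).2.2.2.1
  have nh : NCv s0 (p + P) (fun N s x V => Sq (h N s x) V) ψ :=
    ncv_of_cv (g := fun N s x => Sq (h N s x)) (c0.mono (by omega)) fun i => (c3 i).mono (by omega)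
  have e0 : Cv s0 (p + P + 2) (fun N s x V => Sq (e N s x) V) fun _ _ _ => 0 := fun s1 δ hδ =>
    (I.cauchy s1 δ hδ).elim fun J t => (eventually_ge_atTop J).mono fun j hj s hs x V => by
      simpa only [sub_zero] using ((t j hj j hj s hs x).2.2.2.2 V).1
  have nice : ∀ s, s0 ≤ s → ∀ x, Nice (p + P + 2) ε (ψ s x) := by
    intro s hs x
    refine nice_of_tendsto (c0.tendsto hs x) (Eventually.of_forall fun j => ?_)
    have := nice_of_fderiv (Sq (h j s x)).differentiable (fun V => (I.small j s hs x V).1)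
      fun V => (I.small j s hs x V).2
    rwa [mul_div_cancel₀ _ (by positivity)] at this
  obtain ⟨KM, nM⟩ := nice_sv (p + P) (Sq sqMS)
  have nb : NBd s0 (p + P) ψ := fun _ => ⟨ε, fun s hs x => (nice s hs.1 x).mono (by omega)⟩
  have nbM : NBd s0 (p + P) fun _ _ => Sq sqMS := fun _ => ⟨_, fun _ _ _ => nM⟩
  set α : Fn := fun s x V => Sq ((F s).src x) V + k s x * Tri (fun _ => 1) (ψ s x) (ψ s x) V + 0
    - (∑ i, ((F s).u i x * β i s x V + (F s).c x * (V i * β i s x V))
      + ∑ j, (F s).bj x V j * χ j s x V)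
    + k s x * (Tri (fun _ => 1) (Sq sqMS) (ψ s x) V + Tri (fun _ => 1) (ψ s x) (Sq sqMS) V) with hα
  have c1 : Cv s0 p (fun N s x V => Sq (h' N s x) V) α := by
    refine (((((Cv.const fun s x V => Sq ((F s).src x) V).add
      ((cv_Tri T hC ng ng' nb nb).coef hk pk)).add
      (e0.mono (by omega))).sub ((Cv.sum Finset.univ fun i =>
        (((c2 i).mono (by omega)).coef (hF.u i) fun s => ((hF.reg s).u i).2).add
        ((((c2 i).mono (by omega)).coord i).coef hF.c fun s => (hF.reg s).c.2)).add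
      (Cv.sum Finset.univ fun j => Cv.bj hF ((c3 j).mono (by omega)) j))).add
      (((cv_Tri T hC (NCv.const _) nh nbM nb).add
        (cv_Tri T hC nh (NCv.const _) nb nbM)).coef hk pk)).congr fun N s hs x V => ?_
    have := congrArg (fun f : SV => Sq f V) (I.eqn N s hs x)
    simp only [map_add, map_smul, map_neg, add_apply, smul_apply, smul_eq_mul, Sq_tr, Q.L_eq,
      Q.G_eq, neg_apply, Sq_G1 hQ] at this
    linarith
  obtain ⟨d1, d2⟩ := hasFDerivAt_odd sd (c0.mono (by omega)) c1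
    (fun i => by simpa only [dx] using (c2 i).mono (p' := p) (by omega))
    fun j => (c3 j).mono (by omega)
  refine ⟨fun s x V => odd s0 ψ (s, x, V), d1, fun s V i x => ?_, fun s hs x => ?_, fun s1 => ?_,
    fun s hs x V => ?_, ?_, fun x V => ?_⟩
  · have pp : ∀ s, s0 ≤ s → ψ s (x + ev i) V = ψ s x V := fun s hs =>
      tendsto_nhds_unique (c0.tendsto hs (x + ev i) V) (by
        simpa only [I.per _ s i x] using c0.tendsto hs x V)
    simp only [odd]
    rw [pp _ (le_max_right _ _), pp _ le_rfl, pp _ (le_max_right _ _)]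
  · simp only [odd_of_le ψ hs]
    exact (nice s hs x).mono (by omega)
  · obtain ⟨K1, k1⟩ := c1.bd (fun N => bd_of_smC (sd N).sm' (fun s => (I.per' N s).map _) s0 p) s1
    choose K2 k2 using fun i => ((c2 i).mono (p' := p) (by omega)).bd
      (fun N => bd_of_smC (((I.smd N).sm.dX i).clm Sq) (fun s => ((I.per N s).dX i).map _) s0 p) s1
    choose K3 k3 using fun i => ((c3 i).mono (p' := p) (by omega)).bd
      (fun N => bd_of_smC ((sd N).sm.clm (dV i))
        (fun s => (I.per N s).map fun f => dV i (Sq f)) s0 p) s1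
    refine ⟨K1 + (∑ i, K2 i + ∑ i, K3 i), fun s hs x V => ?_⟩
    rw [(d2 (s, x, V)).fderiv]
    refine (mul_le_mul_of_nonneg_left ((norm_sum_le _ _).trans (Finset.sum_le_sum fun i _ =>
      (norm_smul_le _ _).trans (mul_le_of_le_one_right (norm_nonneg _) (norm_crd_le i))))
      (wt_pos V p).le).trans ?_
    rw [Finset.mul_sum, Fintype.sum_sum_type, Fintype.sum_sum_type]
    simp only [Sum.elim_inl, Sum.elim_inr, odd_of_le _ hs.1, even_of_le _ hs.1, Real.norm_eq_abs,
      Finset.univ_unique, Finset.sum_singleton]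
    exact add_le_add (k1 s hs x V) (add_le_add (Finset.sum_le_sum fun i _ => k2 i s hs x V)
      (Finset.sum_le_sum fun i _ => k3 i s hs x V))
  · have D := d2 (s, x, V)
    have eM : (Sq sqMS : E3 → ℝ) = fun W => sqM W ^ 2 := funext fun W => by simp [sq]
    have a1 : deriv (fun t => odd s0 ψ (t, x, V)) s = α s x V := by
      have := (D.comp_hasDerivAt s
        ((hasDerivAt_id s).prodMk (hasDerivAt_const s (x, V)))).deriv
      simpa [Function.comp_def, crd, Fintype.sum_sum_type, even_of_le _ hs] using this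
    have a2 : ∀ i, fderiv ℝ (fun y => odd s0 ψ (s, y, V)) x (ev i) = β i s x V := by
      intro i
      have t : HasFDerivAt (fun y : E3 => (s, y, V)) _ x := (hasFDerivAt_const s x).prodMk
        ((hasFDerivAt_id (𝕜 := ℝ) x).prodMk (hasFDerivAt_const V x))
      have := (D.comp x t).fderiv
      simp only [Function.comp_def] at this
      rw [this]
      simp [crd, Fintype.sum_sum_type, odd_of_le _ hs]
    have a3 : ∀ j, fderiv ℝ (fun W => sqM W ^ 2 + odd s0 ψ (s, x, W)) V (ev j) =
        dV j (Sq sqMS) V + χ j s x V := by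
      intro j
      have t : HasFDerivAt (fun W : E3 => (s, x, W)) _ V := (hasFDerivAt_const s V).prodMk
        ((hasFDerivAt_const x V).prodMk (hasFDerivAt_id (𝕜 := ℝ) V))
      have := ((Sq sqMS).hasFDerivAt V).add (D.comp V t)
      have e : (fun W => sqM W ^ 2 + odd s0 ψ (s, x, W)) =
          ⇑(Sq sqMS) + (odd s0 ψ ∘ fun W => (s, x, W)) := funext fun W => by simp [sq]
      rw [e, this.fderiv]
      simp [crd, Fintype.sum_sum_type, odd_of_le _ hs, dV_apply]
    simp only [a1, a2, a3]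
    simp only [odd_of_le ψ hs]
    have n1 : Nice (p + P) ε (ψ s x) := (nice s hs x).mono (by omega)
    have a4 : Tri (fun _ => 1) (Sq sqMS) (Sq sqMS) V = 0 := by
      rw [← Sq_G1 hQ, Sq_apply, hQ.1, show ((sqMS : SV) : E3 → ℝ) = sM from funext sqMS_apply,
        Gam_sM_sM, mul_zero]
    have a5 := T.add_left nM n1 (nM.add n1) V
    rw [T.add_right nM nM n1, T.add_right n1 nM n1, a4] at a5
    simp only [congrFun eM] at a5
    rw [a5, hα]
    simp only [Fld.src, map_neg, neg_apply, Sq_vel, add_mul, mul_add, mul_assoc,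
      Finset.sum_add_distrib]
    ring
  · obtain ⟨m, Ψ, h1, h2⟩ := I.init
    refine smooth_of_span (Ψ := fun i x => Sq (Ψ i x)) (h := fun j x => Sq (h j s0 x))
      (fun i => (h1 i).clm Sq) (fun j => (h2 j).imp fun a ha x => by simp [ha]) fun q => ?_
    simp only [odd_of_le ψ le_rfl]
    exact c0.tendsto le_rfl q.1 q.2
  · simp only [odd_of_le ψ le_rfl]
    refine le_of_tendsto' (c0.tendsto le_rfl x V).abs fun j => ?_
    rw [Sq_apply, abs_mul, abs_of_pos (sqM_pos V)]
    exact (mul_le_mul_of_nonneg_left (I.init_small j x V) (sqM_pos V).le).trans_eq (by ring)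

end Pool.Agent.BoltzM
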