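import Pool.Agent.BoltzM.Lin.YF

/-! Pointwise comparison of the weights used in the Picard iteration. -/

set_option autoImplicit false

open Pool.Agent.BoltzM.BoltzC Finset

noncomputable section

namespace Pool.Agent.BoltzM.Pic

variable [Dim]

open Lin

variable {B : BgD}

lemma r_pos (hB : B.Ok) : 0 < B.r := zero_lt_one.trans hB.one_lt_r

lemma k1_pos (hB : B.Ok) (s : ℝ) (x : E3) : 0 < B.k1 s x :=
  mul_pos (Real.exp_pos _) (Real.rpow_pos_of_pos (hB.C_pos s x) _)

lemma per_k1 (hB : B.Ok) (s : ℝ) : Per (B.k1 s) := fun i x => by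
  simp only [BgD.k1, hB.per_C s i x]

lemma exp_le_sig (s : ℝ) (x : E3) : Real.exp (-s) ≤ B.sig s x :=
  le_trans (le_add_of_nonneg_right (Real.sqrt_nonneg _)) (B.sig0_le_sig s x)

lemma nu_Lam_le (hB : B.Ok) (s : ℝ) (x : E3) : B.nu * B.Lam s x ≤ B.sig s x := by
  have h1 := hB.nu_pos
  have h3 : B.nu ^ 2 ≤ 1 := pow_le_one₀ h1.le hB.nu_le
  refine le_trans (le_trans ?_ (le_add_of_nonneg_left (Real.exp_pos _).le)) (B.sig0_le_sig s x)
  refine Real.le_sqrt_of_sq_le ?_
  rw [mul_pow, BgD.Lam, Real.sq_sqrt (by linarith [Real.exp_pos (-2 * s), rho2_nonneg B x])]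
  nlinarith [Real.exp_pos (-2 * s)]

lemma nu_pow_le (hB : B.Ok) (a s : ℝ) (x : E3) :
    B.nu ^ dd * (Real.exp (-2 * a * s) * B.Lam s x ^ (-2 * a)) ≤ B.sig s x ^ dd * B.om a s x := by
  have hL := Lam_pos B s x
  have h1 := hB.nu_pos
  have e : B.Lam s x ^ (-2 * a) = B.Lam s x ^ dd * B.Lam s x ^ (-(dd : ℝ) - 2 * a) := by
    rw [← Real.rpow_natCast, ← Real.rpow_add hL]; congr 1; ring
  have h2 := pow_le_pow_left₀ (by positivity) (nu_Lam_le hB s x) dd
  have h3 := mul_le_mul_of_nonneg_right h2 (om_pos B a s x).le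
  refine le_trans (le_of_eq ?_) h3
  rw [e, BgD.om]
  ring

lemma wt_facts (hB : B.Ok) : ∃ Ck : ℝ, 0 < Ck ∧ ∀ s, 0 ≤ s → ∀ x,
    B.mu s x ≤ Ck * B.k1 s x ∧
    B.mu s x ^ 2 ≤ Ck * Real.exp (-min B.kap B.r * s) * B.k1 s x ∧
    1 ≤ Ck * (B.sig s x ^ dd * B.om 0 s x) ∧
    B.k1 s x ≤ Ck * Real.exp (B.kap * s) * (B.sig s x ^ dd * B.om B.eta s x) := by
  obtain ⟨c0, hc0, hC⟩ := hB.C_ge
  obtain ⟨K, hK⟩ := hB.sym
  have hν := hB.nu_pos
  have k0 := hB.kap_pos
  have hr := r_pos hB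
  have hg : 0 ≤ (dd : ℝ) + 199 / 100 := by positivity
  set a := (c0 ^ ((dd : ℝ) + 199 / 100))⁻¹ with ha
  set b := (B.nu ^ dd)⁻¹ with hb
  set T : ℝ := (dd + 1) ^ B.kap with hT
  have ha0 : 0 < a := by positivity
  have hb0 : 0 < b := by positivity
  have hT0 : 0 < T := by positivity
  refine ⟨T * a + b + |K 0| ^ ((dd : ℝ) + 199 / 100) * b, by positivity, fun s hs x => ?_⟩
  have hL := Lam_pos B s x
  have hk := k1_pos hB s x
  have hμ := mu_pos B s x
  have hσ := sig_pos B s x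
  have hTL : ∀ q, 0 ≤ q → q ≤ B.kap → B.Lam s x ^ q ≤ T := fun q h0 h1 =>
    (Real.rpow_le_rpow hL.le (Lam_le B hs x) h0).trans
      (Real.rpow_le_rpow_of_exponent_le (by linarith [dr_pos]) h1)
  have e11 : (B.Lam s x ^ (1 - B.r)) ^ ((dd : ℝ) + 199 / 100) = B.Lam s x ^ (-B.r) * B.Lam s x ^ (-B.kap) := by
    rw [← Real.rpow_mul hL.le, ← Real.rpow_add hL]
    congr 1; unfold BgD.kap; ring
  have low : B.mu s x ≤ a * B.Lam s x ^ B.kap * B.k1 s x := by
    have h1 := Real.rpow_le_rpow (by positivity) (hC s hs x) hg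
    rw [Real.mul_rpow hc0.le (by positivity), e11] at h1
    have h2 := mul_le_mul_of_nonneg_left h1
      (show 0 ≤ a * B.Lam s x ^ B.kap * Real.exp (-B.r * s) by positivity)
    refine le_trans (le_of_eq ?_) (h2.trans (le_of_eq (by rw [BgD.k1]; ring)))
    rw [BgD.mu, Real.rpow_neg hL.le B.kap, ha]
    field_simp
  have hX : 0 ≤ |K 0| ^ ((dd : ℝ) + 199 / 100) * b := by positivity
  refine ⟨?_, ?_, ?_, ?_⟩
  · refine low.trans (mul_le_mul_of_nonneg_right ?_ hk.le)
    have := mul_le_mul_of_nonneg_left (hTL _ k0.le le_rfl) ha0.le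
    linarith
  · set q := min B.kap B.r
    have q1 : q ≤ B.kap := min_le_left _ _
    have q2 : q ≤ B.r := min_le_right _ _
    have q0 : 0 < q := lt_min k0 hr
    have h1 : B.mu s x * B.Lam s x ^ B.kap ≤ Real.exp (-q * s) * T := by
      have h := Lam_rpow_le B s x (b := q - B.r) (by linarith)
      have e : B.mu s x * B.Lam s x ^ B.kap
          = Real.exp (-B.r * s) * B.Lam s x ^ (q - B.r) * B.Lam s x ^ (B.kap - q) := by
        rw [BgD.mu, mul_assoc, mul_assoc, ← Real.rpow_add hL, ← Real.rpow_add hL]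
        congr 2
        ring
      rw [e]
      refine mul_le_mul ((mul_le_mul_of_nonneg_left h (Real.exp_pos _).le).trans (le_of_eq ?_))
        (hTL _ (by linarith) (by linarith)) (by positivity) (by positivity)
      rw [← Real.exp_add]; congr 1; ring
    have h2 := mul_le_mul_of_nonneg_left low hμ.le
    have h3 := mul_le_mul_of_nonneg_right h1 (show 0 ≤ a * B.k1 s x by positivity)
    have h4 : 0 ≤ (b + |K 0| ^ ((dd : ℝ) + 199 / 100) * b) * Real.exp (-q * s) * B.k1 s x := by positivity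
    linarith
  · have h1 := nu_pow_le hB 0 s x
    simp only [mul_zero, zero_mul, Real.exp_zero, Real.rpow_zero, mul_one] at h1
    have h2 := mul_le_mul_of_nonneg_left h1 hb0.le
    rw [hb, inv_mul_cancel₀ (by positivity), ← hb] at h2
    have := om_pos B 0 s x
    have h4 : 0 ≤ (T * a + |K 0| ^ ((dd : ℝ) + 199 / 100) * b) * (B.sig s x ^ dd * B.om 0 s x) := by positivity
    linarith
  · have h0 : B.C s x ≤ |K 0| * B.Lam s x ^ (1 - B.r) := by
      have := (hK s hs).2.1 [] le_rfl x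
      simp only [List.length_nil, pow_zero, one_mul, dXw] at this
      exact (le_abs_self _).trans (this.trans
        (mul_le_mul_of_nonneg_right (le_abs_self _) (by positivity)))
    have h1 := Real.rpow_le_rpow (hB.C_pos s x).le h0 hg
    rw [Real.mul_rpow (abs_nonneg _) (by positivity), e11, ← Real.rpow_add hL,
      show -B.r + -B.kap = -2 * B.eta by unfold BgD.eta; ring] at h1
    have e2 : Real.exp (-B.r * s) = Real.exp (B.kap * s) * Real.exp (-2 * B.eta * s) := by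
      rw [← Real.exp_add]; congr 1; unfold BgD.eta; ring
    have h3 := mul_le_mul_of_nonneg_left (nu_pow_le hB B.eta s x)
      (show 0 ≤ |K 0| ^ ((dd : ℝ) + 199 / 100) * b * Real.exp (B.kap * s) by positivity)
    have := om_pos B B.eta s x
    have h4 : 0 ≤ (T * a + b) * Real.exp (B.kap * s) * (B.sig s x ^ dd * B.om B.eta s x) := by
      positivity
    have h5 : B.k1 s x ≤ |K 0| ^ ((dd : ℝ) + 199 / 100) * b * Real.exp (B.kap * s) *
        (B.nu ^ dd * (Real.exp (-2 * B.eta * s) * B.Lam s x ^ (-2 * B.eta))) := by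
      rw [BgD.k1]
      refine (mul_le_mul_of_nonneg_left h1 (Real.exp_pos _).le).trans (le_of_eq ?_)
      rw [e2, hb]
      field_simp
    linarith

end Pool.Agent.BoltzM.Pic
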