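import Pool.Agent.BoltzM.Pic.Seq
import Pool.Agent.BoltzM.Pic.HLin
import Pool.Agent.BoltzM.Pic.HCpl
import Pool.Agent.BoltzM.Pic.HQuad
import Pool.Agent.BoltzM.Pic.HStep
import Pool.Agent.BoltzM.Pic.HToG

/-! Choice of the constants: the Picard iteration. -/

set_option autoImplicit false

open Pool.Agent.BoltzM.BoltzC Finset Filter Topology

noncomputable section

namespace Pool.Agent.BoltzM.Pic

variable [Dim]

omit [Dim] in
lemma ev_small (a : ℝ) {b : ℝ} (hb : 0 < b) : ∀ᶠ M in 𝓝[>] (0 : ℝ), a * M ≤ b := by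
  have : Tendsto (fun M : ℝ => a * M) (𝓝[>] 0) (𝓝 (a * 0)) :=
    (tendsto_id.mono_left nhdsWithin_le_nhds).const_mul a
  exact this.eventually (ge_mem_nhds (by simpa using hb))

omit [Dim] in
lemma ev_inv (a : ℝ) {b : ℝ} (hb : 0 < b) : ∀ᶠ A in atTop, a * (A⁻¹ : ℝ) ^ 2 ≤ b := by
  have : Tendsto (fun A : ℝ => a * A⁻¹ ^ 2) atTop (𝓝 (a * 0 ^ 2)) :=
    (tendsto_inv_atTop_zero.pow 2).const_mul a
  exact this.eventually (ge_mem_nhds (by simpa using hb))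

theorem exists_cut (hV : VCutStmt) (n : ℕ) {e : ℝ} (he : 0 < e) :
    ∃ (Pt : SV →L[ℝ] SV) (Ce : ℝ), (∀ g, nA n ((PP - Pt) g) ≤ e * ip g g) ∧
      ∀ g V, |Pt g V| ≤ Ce * √(ip g g) * sqM V := by
  obtain ⟨et, C, hC, h1, h2⟩ := hV n (e / (dd + 2)) (by positivity)
  have ap : ∀ g, (∑ a, (ipL (eH a)).smulRight (et a)) g = ∑ a, ip (eH a) g • et a := fun g => by
    simp
  have hp : ∀ g, ∑ a, ip (eH a) g ^ 2 ≤ ip g g := fun g => (ip_PP_PP g).symm.trans_le (ip_PP_PP_le g)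
  refine ⟨∑ a, (ipL (eH a)).smulRight (et a), (dd + 2) * C, fun g => ?_, fun g V => ?_⟩
  · rw [sub_apply, ap, PP_apply, ← sum_sub_distrib]
    simp only [← smul_sub]
    calc _ ≤ (∑ a, ip (eH a) g ^ 2) * ∑ a, nA n (eH a - et a) := by
          simp only [nA, map_sum (apW _), map_smul (apW _)]
          rw [sum_comm, mul_sum]
          exact sum_le_sum fun w _ => ip_sum_smul_le _ _ _
      _ ≤ ip g g * e := mul_le_mul (hp g) ((sum_le_card_nsmul _ _ _ fun a _ => h1 a).trans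
          (le_of_eq (by simp; field_simp; ring))) (sum_nonneg fun _ _ => nA_nonneg _ _) (ip_self_nonneg _)
      _ = _ := mul_comm _ _
  · rw [ap, _root_.sum_apply]
    refine (abs_sum_le_sum_abs _ _).trans ((sum_le_card_nsmul _ _ (√(ip g g) * (C * sqM V))
      fun a _ => ?_).trans (le_of_eq (by simp; ring)))
    rw [smul_apply, smul_eq_mul, abs_mul]
    exact mul_le_mul (Real.abs_le_sqrt ((single_le_sum (f := fun a => ip (eH a) g ^ 2)
      (fun _ _ => sq_nonneg _) (mem_univ a)).trans (hp g))) (h2 a V) (abs_nonneg _)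
      (Real.sqrt_nonneg _)

lemma En_le {X : Dat} (h : X.Base) {n : ℕ} {θ s C p q r : ℝ} {G : E3 → SV} (hG : Sm G) (hs : 0 ≤ s)
    (hC : 0 ≤ C) (h0 : X.B.E n θ 0 s G G ≤ C * Real.exp (p * s))
    (h1 : X.B.E n θ X.B.eta s G G ≤ C * Real.exp (q * s)) (hp : p ≤ r) (hq : 2 * X.δ + q ≤ r) :
    En n θ (X.om s) (X.B.sig s) G G ≤ 2 * C * Real.exp (r * s) := by
  have a0 := mul_le_mul_of_nonneg_left (Real.exp_le_exp.2 (mul_le_mul_of_nonneg_right hp hs)) hC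
  have a1 := mul_le_mul_of_nonneg_left (Real.exp_le_exp.2 (mul_le_mul_of_nonneg_right hq hs)) hC
  have a2 := mul_le_mul_of_nonneg_left h1 (Real.exp_pos (2 * X.δ * s)).le
  rw [add_mul, Real.exp_add] at a1
  rw [Dat.En_om h _ _ _ hG hG]
  linarith

lemma Dat.Sob.mono {X : Dat} (h : X.Base) {CS CS' s1 s1' : ℝ} (hS : X.Sob CS s1) (hC : CS ≤ CS')
    (hs : s1 ≤ s1') : X.Sob CS' s1' := fun s h1 N G h2 hG pG x => by
  have := Dat.EE_nonneg h X.n s G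
  obtain ⟨a, b⟩ := hS s (hs.trans h1) N G h2 hG pG x
  exact ⟨a.trans (by gcongr), b.trans (by gcongr)⟩

namespace DatH

/-- The estimates of the fast part at one weight. -/
structure HotC (X : DatH) (q : ℕ) (ρ C a0 CS A0 s3 : ℝ) : Prop where
  sob : X.SobH q ρ CS s3
  cpl : X.Cpl q C s3
  quad : X.Quad q ρ C s3
  step : X.StepH q ρ C a0 A0 s3
  solve : X.Solve q ρ a0 s3

variable {X : DatH} {q : ℕ} {ρ C C' a0 a0' CS CS' A0 A0' s3 s3' c : ℝ}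

lemma SobH.mono (h : X.BaseH q) (hS : X.SobH q ρ CS s3) (hC : CS ≤ CS') (hs : s3 ≤ s3') :
    X.SobH q ρ CS' s3' := fun s h1 G hG pG x => by
  have := Dat.EE_nonneg h.base X.n s G
  have := EH_nonneg h zero_le_one q s G
  obtain ⟨a, b, c, d⟩ := hS s (hs.trans h1) G hG pG x
  exact ⟨a.trans (by gcongr), b.trans (by gcongr), c.trans (by gcongr), d.trans (by gcongr)⟩

lemma HotC.mono (h : X.BaseH q) (H : X.HotC q ρ C a0 CS A0 s3) (hC : C ≤ C') (ha : a0' ≤ a0)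
    (hS : CS ≤ CS') (hA : A0 ≤ A0') (hs : s3 ≤ s3') : X.HotC q ρ C' a0' CS' A0' s3' :=
  ⟨H.sob.mono h hS hs, H.cpl.mono h.base hC hs, H.quad.mono hC hs, H.step.mono hC ha hA hs,
    H.solve.mono ha hs⟩

theorem hot_at (hA : AlgStmt) (hG : GamHStmt) (hS : SobHStmt) (hC : CplStmt) (h : X.BaseH q)
    (h0 : X.Sob CS s3) (hCS : 0 < CS) (hρ : ρ ≤ 2 * X.δ - X.B.kap) (hc : 0 < c)
    (hL : X.LinH q c A0 s3')
    (sol : ∀ CS s1, 0 < CS → X.SobH q ρ CS s1 → ∃ a0, 0 < a0 ∧ X.Solve q ρ a0 s1) :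
    ∃ C a0 CS s3 : ℝ, 0 < a0 ∧ X.HotC q ρ C a0 CS A0 s3 := by
  obtain ⟨CS, s1, hCS, -, hS⟩ := sob_H hS hC h h0 hCS hρ
  obtain ⟨C1, s2, -, h1⟩ := cpl_H hA hC h
  obtain ⟨C2, s3, -, h2⟩ := quad_H hG hC h hCS hS
  obtain ⟨C3, a3, s4, -, ha3, h3⟩ := step_H hG hC h (s1 := max s1 s3') hc
    (fun A s0 η a u u' S e1 e2 => hL A s0 η a u u' S e1 ((le_max_right _ _).trans e2)) hCS
    (hS.mono h le_rfl (le_max_left _ _))
  obtain ⟨a4, ha4, h4⟩ := sol CS s1 hCS hS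
  exact ⟨max C1 (max C2 C3), min a3 a4, CS, max (max s1 s2) (max s3 s4), lt_min ha3 ha4,
    hS.mono h le_rfl (by simp), h1.mono h.base (by simp) (by simp), h2.mono (by simp) (by simp),
    h3.mono (by simp) (by simp) le_rfl (by simp), h4.mono (by simp) (by simp)⟩

/-- The constants of the fast part. -/
theorem hot_all (hA : AlgStmt) (hV : VHStmt) (h4 : M4HStmt) (hG : GamHStmt) (hS : SobHStmt)
    (hC : CplStmt) (h3 : M3pStmt) {X : Dat} (hQ : X.Q.Real) (h : X.Base) (hd : X.δ ≤ X.B.eta)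
    (P : HOp X.Q) (hn : 3 * dd + 3 * P.p ≤ X.n) (h0 : X.Sob CS s3) (hCS : 0 < CS)
    (hρ : ρ ≤ 2 * X.δ - X.B.kap) (q1 : ℕ) (C1 : ℝ) :
    ∃ (θh N : ℝ) (q : ℕ) (C a0 CS' A0 s4 : ℝ), q1 ≤ q ∧ C1 ≤ C ∧ 0 < a0 ∧ CS ≤ CS' ∧
      (DatH.mk X P θh N).BaseH q ∧ (DatH.mk X P θh N).HotC q ρ C a0 CS' A0 s4 ∧
      (DatH.mk X P θh N).HotC (q + 8) ρ C a0 CS' A0 s4 := by
  obtain ⟨p0, sol⟩ := solve_H h3 hV X hQ
  obtain ⟨q, hq⟩ : ∃ q, q = 2 * X.n + P.q0 + p0 + q1 := ⟨_, rfl⟩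
  obtain ⟨N0, l0⟩ := lin_H h4 X h hd P q (by omega)
  obtain ⟨N8, l8⟩ := lin_H h4 X h hd P (q + 8) (by omega)
  obtain ⟨θ0, p0, e0, l0⟩ := l0 _ (le_max_left N0 N8)
  obtain ⟨θ8, p8, -, l8⟩ := l8 _ (le_max_right N0 N8)
  obtain ⟨c0, A0, s0, hc0, l0⟩ := l0 _ (lt_min p0 p8) (min_le_left _ _)
  obtain ⟨c8, A8, s8, hc8, l8⟩ := l8 _ (lt_min p0 p8) (min_le_right _ _)
  have b0 : (DatH.mk X P (min θ0 θ8) (max N0 N8)).BaseH q :=
    ⟨h, lt_min p0 p8, (min_le_left _ _).trans e0, hn, by change 2 * X.n + P.q0 ≤ q; omega⟩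
  have b8 := b0.mono (Nat.le_add_right q 8)
  obtain ⟨C0, a0, S0, t0, ha0, H0⟩ := hot_at hA hG hS hC b0 h0 hCS hρ hc0 l0
    fun CS s1 => sol P _ _ q ρ CS s1 b0 (by omega)
  obtain ⟨C8, a8, S8, t8, ha8, H8⟩ := hot_at hA hG hS hC b8 h0 hCS hρ hc8 l8
    fun CS s1 => sol P _ _ (q + 8) ρ CS s1 b8 (by omega)
  exact ⟨_, _, q, max C1 (max C0 C8), min a0 a8, max CS (max S0 S8), max A0 A8, max t0 t8,
    by omega, le_max_left _ _, lt_min ha0 ha8, le_max_left _ _, b0,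
    H0.mono b0 (by simp) (by simp) (by simp) (by simp) (by simp),
    H8.mono b8 (by simp) (by simp) (by simp) (by simp) (by simp)⟩

end DatH

theorem iterStmt (hA : AlgStmt) (h4 : M4Stmt) (hG : GamStmt) (hS : SobStmt) (hC : CorrStmt)
    (hK : KStmt) (h3 : M3kStmt) (h3h : M3hStmt) (h5 : M5Stmt) (hV : VCutStmt) (hH : HStmt)
    (hVH : VHStmt) (h4H : M4HStmt) (hGH : GamHStmt) (hSH : SobHStmt) (hCp : CplStmt)
    (h3p : M3pStmt) : IterStmt := by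
  intro Q hQ B hB p ε hε
  obtain ⟨P⟩ := hH Q hQ
  have k0 := hB.kap_pos
  have hr := r_pos hB
  have hη := hB.eta_pos
  obtain ⟨δ1, d1, d2⟩ := exists_between
    (lt_min (half_lt_self k0) (show B.kap / 2 < B.eta by unfold BgD.eta; linarith))
  have d3 := d2.trans_le (min_le_left _ _)
  have d4 := d2.trans_le (min_le_right _ _)
  have d0 := (half_pos k0).trans d1
  obtain ⟨n4, h4⟩ := m4_at h4 Q hB
  obtain ⟨n5, h5⟩ := h5 B hB
  obtain ⟨n, hn⟩ : ∃ n, n = n4 + n5 + 2 * Q.p + 3 * P.p + 5 * dd + 8 := ⟨_, rfl⟩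
  obtain ⟨θ, A0, C4, c, s1, hθ, hθ1, hA0, hC4, hc, hs1, h4⟩ := h4 n (by omega)
  obtain ⟨m, φ, C0, CK, sK, hC0, hCK, hφ, hK⟩ :=
    hK B hB n θ C4 (B.eta - δ1) (by omega) hθ hθ1 (by linarith)
  obtain ⟨δ0, hδ0, h5⟩ := h5 (n + 1) (by omega) θ hθ hθ1 m φ hφ δ1 d0 d4
  obtain ⟨δ, hδ1, hδ2⟩ := exists_between (max_lt hδ0 d1)
  have hδ3 := (le_max_right _ _).trans_lt hδ1
  have hδ := (half_pos k0).trans hδ3
  obtain ⟨m', ψ, C5, s5, hC5, hψ, h5⟩ := h5 δ ((le_max_left _ _).trans_lt hδ1) hδ2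
  let X : Dat := ⟨Q, B, n, θ, δ, m, φ, C0⟩
  have h : X.Base := ⟨hB, hθ, hθ1, hδ, hφ, hC0⟩
  have hK1 : X.KBd CK sK := fun s hs i => ⟨(hK s hs).1 i, fun G hG pG => ((hK s hs).2 G hG pG).1 i⟩
  obtain ⟨s2, hs2, hL⟩ := lin_est hA h (s1 := max s1 sK) hA0 hC4 hc (sub_pos.2 d4)
    (by change _ + δ ≤ B.eta; linarith)
    (fun a ha ha1 g g' hg pg => (h4 a ha ha1 g g' hg pg).imp fun E' hE =>
      ⟨hE.1, hE.2.1, fun A hA s hs => hE.2.2 A hA s ((le_max_left _ _).trans hs)⟩)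
    (fun s hs => hK1 s ((le_max_right _ _).trans hs))
    fun s hs G hG pG => ((hK s ((le_max_right _ _).trans hs)).2 G hG pG).2
  obtain ⟨CS, sS, hCS, hsS, hS⟩ := Dat.sob_at hA hS h (by change dd ≤ n; omega)
  obtain ⟨gc, gc', R, sg, sR, pg, pg', pR, src, bC⟩ := hC B hB Q
  have bg : ∀ n, ∃ Cg, 0 < Cg ∧ ∀ s, 0 ≤ s →
      En n 1 (X.om s) (X.B.sig s) (gc s) (gc s) ≤ Cg := fun n => by
    obtain ⟨Cc, hCc, bC⟩ := bC n δ1 d0 d3.le d4
    refine ⟨2 * Cc, by positivity, fun s hs => ?_⟩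
    simpa using En_le h (p := 0) (r := 0) (sg.sm.slice s) hs hCc.le (by simpa using (bC s hs).1)
      (bC s hs).2.1 le_rfl (by change 2 * δ + _ ≤ _; linarith)
  obtain ⟨ρ, hρ, hρ0⟩ := exists_between (show 0 < min (min (δ1 - δ) (2 * δ - B.kap))
    (min (min (B.kap / 2) B.r) (δ * B.r / B.eta)) from lt_min (lt_min (by linarith) (by linarith))
      (lt_min (lt_min (half_pos k0) hr) (by positivity)))
  simp only [lt_min_iff] at hρ0
  obtain ⟨⟨hρ1, hρ2⟩, ⟨hρ3, hρ4⟩, hρ5⟩ := hρ0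
  obtain ⟨C, s3, hC, hs3, hE⟩ := Dat.step_est hA hG h (by change n / 2 + Q.p + dd ≤ n; omega)
    (s2 := max s2 sS) (lt_min hc (half_pos (sub_pos.2 d4))) (hsS.trans (le_max_right _ _))
    (fun A s0 u u' S h1 h2 => hL A s0 u u' S h1 ((le_max_left _ _).trans h2)) hCS
    (fun s hs => hS s ((le_max_right _ _).trans hs)) hρ hρ2.le
    (le_min (by change ρ ≤ B.kap; linarith) hρ4.le) hρ5 sg.sm pg bg
  obtain ⟨θh, N, q, C1, a0, CS', AH, sH, hq, hC1, ha0, hCS', bH, H0, H8⟩ := DatH.hot_all hA hVH h4H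
    hGH hSH hCp h3p (X := X) hQ h (by change δ ≤ B.eta; linarith) P (by change _ ≤ n; omega) hS hCS
    hρ2.le (p + 4 * dd + 4) 1
  obtain ⟨C2, -, hT⟩ := DatH.to_G hA bH.base hρ sg.sm pg bg
  obtain ⟨C3, -, hl⟩ := DatH.bdH_low bH
  obtain ⟨CH, hCH⟩ : ∃ CH, CH = max C1 (max C2 C3) := ⟨_, rfl⟩
  have c1 : C1 ≤ CH := by simp [hCH]
  have c2 : C2 ≤ CH := by simp [hCH]
  have c3 : C3 ≤ CH := by simp [hCH]
  have CH1 := hC1.trans c1
  obtain ⟨CP, hCP, sup⟩ := hVH.sup p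
  obtain ⟨ξ, hξ, hξ1⟩ := ((ev_small 1 one_pos).and (ev_small (10 * C * CH) one_pos)).and
    self_mem_nhdsWithin |>.exists
  replace hξ1 : 0 < ξ := hξ1
  set CW := 2 * C5 * ((C0 / 2) ^ 2 * CK) with hCW
  have CW0 : 0 < CW := by positivity
  obtain ⟨Pt, Ce, hP, bP⟩ := exists_cut hV n (e := (10 * C * CW)⁻¹) (by positivity)
  obtain ⟨Cg, hCg, bg⟩ := bg n
  obtain ⟨Cc, hCc, bC⟩ := bC n δ1 d0 d3.le d4
  obtain ⟨M, ⟨⟨⟨⟨m1, m2⟩, m3⟩, m4⟩, m5⟩, hM⟩ := ((((((ev_small (20 * C * (2 * CW + 2) ^ 2)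
    one_pos).and (ev_small (4 * Ce ^ 2 * (CS' * CW)) one_pos)).and
    (ev_small (CP ^ 2 * ((dd + 2) * (4 * CS' * (CH * (2 * CW + 2))))) (pow_pos hε 2))).and
    (ev_small (CH * (2 * CW + 2)) ha0)).and (ev_small (112 * CH ^ 4 * (2 * CW + 2)) one_pos)).and
    self_mem_nhdsWithin).exists
  replace hM : 0 < M := hM
  obtain ⟨A, ⟨⟨⟨⟨a1, a2⟩, a3⟩, a4⟩, a5⟩, a6⟩ := ((((((ev_inv 1 hM).and
    (ev_inv (10 * C * Cg) hM)).and (eventually_ge_atTop 1)).and (eventually_ge_atTop A0)).and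
    (eventually_ge_atTop AH)).and (eventually_ge_atTop (64 * CH ^ 2 / ξ))).exists
  obtain ⟨s0, ⟨⟨⟨⟨b1, b2⟩, b3⟩, b4⟩, b5⟩, b6⟩ := ((((((ev_exp hρ A one_pos).and
    (ev_exp hρ (5 * C * (8 * Cc)) hM)).and (ev_exp hρ (5 * C * CW) one_pos)).and
    (eventually_ge_atTop s3)).and (eventually_ge_atTop s5)).and (eventually_ge_atTop sH)).exists
  obtain ⟨aa, h5⟩ := h5 s0 b5
  rw [mul_assoc] at m4
  replace H0 := H0.mono bH c1 m4 le_rfl a5 b6
  replace H8 := H8.mono (bH.mono (Nat.le_add_right q 8)) c1 m4 le_rfl a5 b6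
  have t1 : s2 ≤ s0 := (le_max_left _ _).trans (hs3.trans b4)
  have t2 : sS ≤ s0 := (le_max_right _ _).trans (hs3.trans b4)
  have t0 := hsS.trans t2
  have t3 : sK ≤ s0 := (le_max_right _ _).trans (hs2.trans t1)
  have hK2 : X.KBd CK s0 := fun s hs => hK1 s (t3.trans hs)
  have bg' : ∀ s, s0 ≤ s → X.EE n s (gc s) (gc s) ≤ Cg := fun s hs =>
    (Dat.EE_mono hA h le_rfl hθ1 s (sg.sm.slice s)).trans (bg s (t0.trans hs))
  let Y : It := ⟨⟨X, P, θh, N⟩, q, m', ψ, gc, gc', R, Pt, A, s0, aa⟩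
  have hY : Y.Reg := ⟨h, bH, hψ, sg, sR, pg, pg', pR, a3, t0⟩
  have hN : Y.Num M C CW CH ξ ρ := by
    refine ⟨hM, hC, CW0, fun a v c W W' hv hc hW s hs => ?_, ⟨8 * Cc, _,
      fun A' s' l1 l2 a1 a2 b f b2 V1 V2 W S1 S2 u u' h1 h2 h3 =>
        hE A' s' l1 l2 a1 a2 b f b2 V1 V2 W S1 S2 u u' (a4.trans h1) h2 (b4.trans h3),
      b1, fun s hs => ?_, b2, b3, by positivity, hP, le_of_eq (by field_simp)⟩,
      (one_mul _).symm.trans_le a1, le_trans ?_ a2, m1, CH1, hξ1,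
      (one_mul _).symm.trans_le hξ.1, H0.cpl, H8.cpl, H0.quad, H8.quad, H0.step, H8.step,
      hT.mono c2 t0, H8.solve, fun r r' a H e1 e2 hH => (hl r r' A s0 a H (by linarith) e1 e2 hH).mono
        (mul_le_mul_of_nonneg_right c3 hH.nonneg), hξ.2, ?_, by linarith⟩
    · have := (h5 c (C0 / 2 * √(CK * a)) (by positivity) fun s hs i => by
        rw [hc]; exact Dat.cc_bd hA h hCK.le hK2 le_rfl hv hs i).2 W W' hW.smd hW.per hW.hyd
        hW.init hW.eqn s hs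
      have ha := hv.nonneg h
      rw [mul_pow, Real.sq_sqrt (by positivity)] at this
      refine (En_le h (p := 0) (r := 0) (hW.smd.sm.slice s) (t0.trans hs) (by positivity)
        (by simpa using this.2) this.1 le_rfl (by change 2 * δ + _ ≤ _; linarith)).trans
        (le_of_eq ?_)
      rw [zero_mul, Real.exp_zero, hCW]
      ring
    · have s' := t0.trans hs
      have sT := (sg.sm'.add (hA.smC_tr _ _ hB.fldC sg.sm)).slice s
      have q1 := Dat.EE_sub_le h n s (sR.slice s) (sT.const_smul A⁻¹)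
      have hm := le_min hρ3.le hρ4.le
      have q2 := (Dat.EE_mono hA h le_rfl hθ1 s (sR.slice s)).trans (En_le h (r := -2 * ρ)
        (sR.slice s) s' hCc.le ((bC s s').2.2.2.2 0 (Or.inl rfl)) ((bC s s').2.2.2.2 _ (Or.inr rfl))
        (by linarith) (by change 2 * δ + _ ≤ _; linarith))
      have q3 := (Dat.EE_mono hA h le_rfl hθ1 s sT).trans (En_le h (r := -2 * ρ) sT s' hCc.le
        (bC s s').2.2.1 (bC s s').2.2.2.1
        (by linarith) (by change 2 * δ + _ ≤ _; linarith))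
      have q4 := mul_le_mul (pow_le_one₀ (n := 2) (by positivity) (inv_le_one_of_one_le₀ a3)) q3
        (Dat.EE_nonneg h _ _ _) zero_le_one
      rw [Dat.EE, Dat.EE, Dat.EE, En_smul_smul sT] at q1
      refine le_trans q1 ?_
      unfold Dat.EE at q2 q4
      linarith
    · have := mul_le_mul_of_nonneg_left (bg' s0 le_rfl)
        (show 0 ≤ 10 * C * A⁻¹ ^ 2 by positivity)
      refine le_trans (le_of_eq ?_) (this.trans (le_of_eq (by ring)))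
      exact (mul_assoc _ _ _).symm
    · change 64 * CH ^ 2 / A ≤ ξ
      rw [div_le_iff₀ hξ1] at a6
      rw [div_le_iff₀ (by linarith)]
      linarith
  obtain ⟨h, h', g, g', e, hI⟩ := It.iter hA hVH h3 h3h hY hN (p := p) (ε := ε)
    hq (hCS.trans_le hCS') (hS.mono h hCS' t2) H0.sob H8.sob hCK hK2 src bP
    (by linarith) hCP (fun f => (sup f).1) hε (by linarith)
  exact ⟨A, s0, h, h', g, g', e, by linarith, t0, hI⟩

end Pool.Agent.BoltzM.Pic
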