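import Pool.Agent.BoltzM.Pic.Hot

/-! Weighted pointwise bounds: algebra, and bounds by the low norm. -/

set_option autoImplicit false

open Pool.Agent.BoltzM.BoltzC Finset

noncomputable section

namespace Pool.Agent.BoltzM.Pic

variable [Dim]

open HE

variable {p : ℕ} {a b : ℝ} {f g : SV}

lemma PW_mono (h : PW p a f) (hab : a ≤ b) : PW p b f :=
  fun V => ⟨(h V).1.trans hab, (h V).2.trans hab⟩

lemma PW_add (h : PW p a f) (h' : PW p b g) : PW p (a + b) (f + g) := fun V => by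
  have h0 : 0 ≤ (1 + ‖V‖) ^ p := by positivity
  rw [map_add]
  constructor
  · have := mul_le_mul_of_nonneg_left (abs_add_le (Sq f V) (Sq g V)) h0
    rw [SchwartzMap.add_apply]
    linarith [(h V).1, (h' V).1]
  · have e : fderiv ℝ (Sq f + Sq g : SV) V = fderiv ℝ (Sq f) V + fderiv ℝ (Sq g) V :=
      fderiv_add (Sq f).differentiableAt (Sq g).differentiableAt
    have := mul_le_mul_of_nonneg_left (norm_add_le (fderiv ℝ (Sq f) V) (fderiv ℝ (Sq g) V)) h0
    rw [e]
    linarith [(h V).2, (h' V).2]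

lemma PW_smul (h : PW p a f) {c K : ℝ} (hc : |c| ≤ K) : PW p (K * a) (c • f) := fun V => by
  have h0 : 0 ≤ (1 + ‖V‖) ^ p := by positivity
  have hK := (abs_nonneg c).trans hc
  rw [map_smul]
  constructor
  · rw [SchwartzMap.smul_apply, smul_eq_mul, abs_mul, mul_left_comm]
    exact mul_le_mul hc (h V).1 (by positivity) hK
  · have e : fderiv ℝ (c • Sq f : SV) V = c • fderiv ℝ (Sq f) V :=
      fderiv_const_smul (Sq f).differentiableAt c
    rw [e, norm_smul, mul_left_comm]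
    exact mul_le_mul hc (h V).2 (by positivity) hK

lemma PW_neg (h : PW p a f) : PW p a (-f) := by
  simpa using PW_smul h (c := -1) (K := 1) (by simp)

lemma PW_sub (h : PW p a f) (h' : PW p b g) : PW p (a + b) (f - g) := by
  rw [sub_eq_add_neg]; exact PW_add h (PW_neg h')

/-- The pointwise bound of a function and of its images under the three multipliers. -/
lemma pw_ops (hV : VHStmt) (p : ℕ) : ∃ C : ℝ, 0 < C ∧ ∀ (f : SV) (a : ℝ),
    (bW (p + dd + 1) (dd + 1) f ≤ a → PW p (C * √a) f ∧ PW p (C * √a) (Sq f)) ∧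
    (bW (p + dd + 1 + 8) (dd + 1) f ≤ a → PW p (C * √a) (Jw 4 f)) ∧
    (nA (dd + 1) f ≤ a → PW p (C * √a) (Ds f)) := by
  obtain ⟨C, hC, h⟩ := hV.sup p
  choose c1 p1 h1 using hV.sqb (p + dd + 1) (p + dd + 1)
  choose c2 p2 h2 using hV.jwb (p + dd + 1)
  choose c3 p3 h3 using hV.ds (p + dd + 1)
  set D := 1 + ∑ l ∈ range (dd + 1 + 1), (c1 l + c2 l + c3 l) with hD
  have e : D = 1 + (∑ l ∈ range (dd + 1 + 1), c1 l + ∑ l ∈ range (dd + 1 + 1), c2 l
    + ∑ l ∈ range (dd + 1 + 1), c3 l) := by simp only [hD, sum_add_distrib]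
  have s1 := sum_nonneg (s := range (dd + 1 + 1)) fun l _ => (p1 l).le
  have s2 := sum_nonneg (s := range (dd + 1 + 1)) fun l _ => (p2 l).le
  have s3 := sum_nonneg (s := range (dd + 1 + 1)) fun l _ => (p3 l).le
  have hD0 : 0 < D := by linarith
  have key : ∀ (g : SV) (a c : ℝ), 0 ≤ a → c ≤ D → bW (p + dd + 1) (dd + 1) g ≤ c * a →
      PW p (C * √D * √a) g := fun g a c ha hc hg => PW_mono (h g).1 (by
    rw [mul_assoc, ← Real.sqrt_mul hD0.le]
    exact mul_le_mul_of_nonneg_left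
      (Real.sqrt_le_sqrt (hg.trans (mul_le_mul_of_nonneg_right hc ha))) hC.le)
  have hl : ∀ (r a : ℝ) (f : SV), bW r (dd + 1) f ≤ a → ∀ l ∈ range (dd + 1 + 1), bW r l f ≤ a :=
    fun r a f hf l hl => (bW_mono le_rfl (by have := mem_range.1 hl; omega) f).trans hf
  refine ⟨C * √D, by positivity, fun f a => ⟨fun hf => ?_, fun hf => ?_, fun hf => ?_⟩⟩
  · have ha := (bW_nonneg _ _ f).trans hf
    refine ⟨key f a 1 ha (by linarith) (by rwa [one_mul]),
      key _ a (∑ l ∈ range (dd + 1 + 1), c1 l) ha (by linarith) ?_⟩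
    rw [bW, sum_mul]
    exact sum_le_sum fun l h' =>
      (h1 l f).trans (mul_le_mul_of_nonneg_left (hl _ _ _ hf l h') (p1 l).le)
  · refine key _ a (∑ l ∈ range (dd + 1 + 1), c2 l) ((bW_nonneg _ _ f).trans hf) (by linarith) ?_
    rw [bW, sum_mul]
    exact sum_le_sum fun l h' =>
      (h2 l f).trans (mul_le_mul_of_nonneg_left (hl _ _ _ hf l h') (p2 l).le)
  · refine key _ a (∑ l ∈ range (dd + 1 + 1), c3 l) ((nA_nonneg _ _).trans hf) (by linarith) ?_
    rw [bW, sum_mul]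
    refine sum_le_sum fun l h' => (h3 l f).trans (mul_le_mul_of_nonneg_left ?_ (p3 l).le)
    exact (nA_sub_PP_le l f).trans ((nA_mono (by have := mem_range.1 h'; omega) f).trans hf)

/-- The weighted norm of a derivative is bounded by the low norm. -/
lemma bW_le_lo {B : BgD} {n : ℕ} {r q s s1 : ℝ} (hs : s ≤ s1) (hs1 : 0 ≤ s1) (hn : 2 * dd + 2 ≤ n)
    (hq : r + 3 * dd + 3 ≤ q) (G : E3 → SV) {u : List Ix} (hu : u.length ≤ 1) (x : E3) :
    bW r (dd + 1) (dXw u G x)
      ≤ Real.exp s1 ^ 2 * (dd + 2) * loH n q (B.sig s) G x := by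
  have hu' : (u.length : ℝ) ≤ 1 := by exact_mod_cast hu
  have h1 := bW_le_bh (n := n - dd) (q := q - 2 * dd) (σ := B.sig s) (G := G) (p := r)
    (m := dd + 1) u (by omega) (by push_cast; linarith) x
  have h2 : 1 ≤ Real.exp s1 := Real.one_le_exp hs1
  have h3 : 1 ≤ Real.exp s1 * B.sig s x := by
    refine le_trans ?_ (mul_le_mul_of_nonneg_left (exp_le_sig s x) (Real.exp_pos _).le)
    rw [← Real.exp_add]
    exact Real.one_le_exp (by linarith)
  have h4 := one_le_pow₀ (n := 2 * u.length) h3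
  have h5 : Real.exp s1 ^ (2 * u.length) ≤ Real.exp s1 ^ 2 := pow_le_pow_right₀ h2 (by omega)
  have h6 := bW_nonneg r (dd + 1) (dXw u G x)
  have h7 := pow_pos (Lin.sig_pos B s x) (2 * u.length)
  calc _ ≤ (Real.exp s1 * B.sig s x) ^ (2 * u.length) * bW r (dd + 1) (dXw u G x) :=
        le_mul_of_one_le_left h6 h4
    _ ≤ Real.exp s1 ^ 2 * (B.sig s x ^ (2 * u.length) * bW r (dd + 1) (dXw u G x)) := by
        rw [mul_pow, mul_assoc]; gcongr
    _ ≤ _ := by
        rw [mul_assoc]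
        refine mul_le_mul_of_nonneg_left (h1.trans (le_of_eq ?_)) (by positivity)
        push_cast
        rw [loH]
        ring

/-- The same without derivative. -/
lemma bW_le_lo₀ {σ : E3 → ℝ} {n : ℕ} {r q : ℝ} (hn : 2 * dd + 2 ≤ n)
    (hq : r + 3 * dd + 3 ≤ q) (G : E3 → SV) (x : E3) :
    bW r (dd + 1) (G x) ≤ (dd + 2) * loH n q σ G x := by
  have h1 := bW_le_bh (n := n - dd) (q := q - 2 * dd) (σ := σ) (G := G) (p := r)
    (m := dd + 1) [] (by simp; omega) (by simp; linarith) x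
  simp only [List.length_nil, mul_zero, pow_zero, one_mul] at h1
  refine h1.trans (le_of_eq ?_)
  push_cast
  rw [loH]
  ring

/-- The collision frequency is bounded on bounded time intervals. -/
lemma k1_bdd {B : BgD} (hB : B.Ok) (s0 s1 : ℝ) :
    ∃ K : ℝ, 0 < K ∧ ∀ s ∈ Set.Icc s0 s1, ∀ x, |B.k1 s x| ≤ K :=
  exists_bound_of_per hB.sm_k1.cont (per_k1 hB) isCompact_Icc

end Pool.Agent.BoltzM.Pic
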