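import Pool.Agent.BoltzM.Pic.Map
import Pool.Agent.BoltzM.Pic.PW

/-! The sequence of iterates and its properties. -/

set_option autoImplicit false

open Pool.Agent.BoltzM.BoltzC Finset Filter Topology

noncomputable section

namespace Pool.Agent.BoltzM.Pic

variable [Dim]

open KK (term_le_bb ip_le_bb)

lemma L_hyd (Q : CollOp) {f : SV} (h : PP f = f) : Q.L f = 0 := by
  apply ip_self_eq_zero
  rw [Q.L_symm, ← h, ip_PP, Q.L_eq (Q.L _), map_neg, Q.hyd, neg_zero, map_zero]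

namespace Dat

variable {X : Dat} {CS CK s0 s s1 : ℝ}

lemma small_of (hS : X.Sob CS s0) (hs0 : 0 ≤ s0) (hs : s ∈ Set.Icc s0 s1) {N L : ℕ}
    (hn : L + N + dd ≤ X.n) {G : E3 → SV} (hG : Sm G) (pG : Per G) {u : List Ix}
    (hu : u.length ≤ L) (x : E3) :
    nA N (dXw u G x) ≤ Real.exp s1 ^ (2 * L) * (CS * X.EE X.n s G G) := by
  have h1 := (term_le_bb (n := L + N) (σ := X.B.sig s) (G := G) zero_le_one u N (by omega) x).trans
    (hS s hs.1 _ G hn hG pG x).1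
  have h2 : 1 ≤ Real.exp s1 := Real.one_le_exp (hs0.trans (hs.1.trans hs.2))
  have h3 : 1 ≤ Real.exp s1 * X.B.sig s x := by
    refine le_trans ?_ (mul_le_mul_of_nonneg_left (exp_le_sig s x) (Real.exp_pos _).le)
    rw [← Real.exp_add]
    exact Real.one_le_exp (by linarith [hs.2])
  have h4 := one_le_pow₀ (n := 2 * u.length) h3
  have h5 : Real.exp s1 ^ (2 * u.length) ≤ Real.exp s1 ^ (2 * L) := pow_le_pow_right₀ h2 (by omega)
  have h6 := nA_nonneg N (dXw u G x)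
  have h7 := pow_pos (Lin.sig_pos X.B s x) (2 * u.length)
  rw [one_pow, one_mul] at h1
  calc _ ≤ (Real.exp s1 * X.B.sig s x) ^ (2 * u.length) * nA N (dXw u G x) :=
        le_mul_of_one_le_left h6 h4
    _ ≤ Real.exp s1 ^ (2 * L) * (X.B.sig s x ^ (2 * u.length) * nA N (dXw u G x)) := by
        rw [mul_pow, mul_assoc]; gcongr
    _ ≤ _ := by gcongr

lemma EE_fin (hA : AlgStmt) (h : X.Base) (hCK : 0 ≤ CK) (hK : X.KBd CK s0) (hs0 : 0 ≤ s0)
    (hs : s0 ≤ s) {d : Fin X.m → ℝ} {D : ℝ} (hD : 0 ≤ D)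
    (hd : ∀ i, |d i| ≤ D * Real.exp (-X.δ * s)) :
    X.EE X.n s (fun x => ∑ i, d i • X.B.per (X.φ i) s x) (fun x => ∑ i, d i • X.B.per (X.φ i) s x)
      ≤ 2 * CK * X.m ^ 2 * D ^ 2 := by
  have sφ := fun i => (hA.smC_per X.B _ (h.inD i).1).slice s
  have se := Sm.sum univ fun i _ => (sφ i).const_smul (d i)
  have pe := Per.sum univ fun i _ => (per_Bper X.B (X.φ i) s).map (d i • ·)
  set G := fun x => ∑ i, d i • X.B.per (X.φ i) s x with hG
  set r := √(CK * X.B.E X.n X.θ X.B.eta s G G) with hr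
  set y := X.m * (D * Real.exp (-X.δ * s)) with hy
  have key : ∀ a, (∀ i, X.B.E X.n X.θ a s (X.B.per (X.φ i) s) G ^ 2
      ≤ CK * X.B.E X.n X.θ X.B.eta s G G) → X.B.E X.n X.θ a s G G ≤ y * r := fun a ha => by
    have e : X.B.E X.n X.θ a s G G = _ := En_sum_left (h.c_oma a s) (h.c_sig s) univ sφ se d
    rw [e, hy, mul_assoc]
    refine (sum_le_card_nsmul _ _ (D * Real.exp (-X.δ * s) * r) fun i _ => ?_).trans (by simp)
    refine (le_abs_self _).trans ?_
    rw [abs_mul]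
    exact mul_le_mul (hd i) (Real.abs_le_sqrt (ha i)) (abs_nonneg _) (by positivity)
  have k1 := key _ (cc_sq_le hA h hK hs se)
  have k0 := key _ fun i => (hK s hs i).2 G se pe
  have r0 : 0 ≤ r := Real.sqrt_nonneg _
  have y0 : 0 ≤ y := by positivity
  have r2 : r * r ≤ CK * y * r := by
    rw [hr, Real.mul_self_sqrt (mul_nonneg hCK (E_nonneg h _ _ _ _)), mul_assoc]
    exact mul_le_mul_of_nonneg_left k1 hCK
  have r3 : r ≤ CK * y := by
    rcases r0.eq_or_lt with e | e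
    · rw [← e]; positivity
    · exact le_of_mul_le_mul_right r2 e
  have r4 := mul_le_mul_of_nonneg_left r3 y0
  have e : Real.exp (-X.δ * s) ^ 2 * Real.exp (2 * X.δ * s) = 1 := by
    rw [← Real.exp_nat_mul, ← Real.exp_add, Real.exp_eq_one_iff]; push_cast; ring
  have e1 : Real.exp (-X.δ * s) ^ 2 ≤ 1 := pow_le_one₀ (Real.exp_pos _).le
    (Real.exp_le_one_iff.2 (by nlinarith [h.δ_pos]))
  have e2 := mul_le_mul_of_nonneg_left e1 (show 0 ≤ CK * X.m ^ 2 * D ^ 2 by positivity)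
  have e3 := mul_le_mul_of_nonneg_left (k1.trans r4) (Real.exp_pos (2 * X.δ * s)).le
  have e4 : Real.exp (2 * X.δ * s) * (y * (CK * y)) = CK * X.m ^ 2 * D ^ 2 *
      (Real.exp (-X.δ * s) ^ 2 * Real.exp (2 * X.δ * s)) := by rw [hy]; ring
  have e5 : y * (CK * y) = CK * X.m ^ 2 * D ^ 2 * Real.exp (-X.δ * s) ^ 2 := by rw [hy]; ring
  rw [EE_eq h _ _ se se]
  rw [e4, e] at e3
  linarith

end Dat

namespace It

variable {Y : It} {M C CW CH ξ ρ : ℝ}

theorem exists_seq (hA : AlgStmt) (h3 : M3kStmt) (h3h : M3hStmt) (h : Y.Reg)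
    (hN : Y.Num M C CW CH ξ ρ) :
    ∃ (v H W W' u' Z' : ℕ → ℝ → E3 → SV) (c : ℕ → C(ℝ, Fin Y.m → ℝ)),
      (∀ j, Y.Step ((1 / 2) ^ j) (v j) (H j) (c j) (W j) (W' j) (v (j + 1)) (u' j) (H (j + 1))
        (Z' j)) ∧ (∀ j, Y.Bd Y.A Y.s0 M (v j)) ∧ (∀ j, Y.BdH (Y.q + 8) Y.A Y.s0 (ξ * M) (H j)) ∧
      ∀ J j l, J ≤ j → J ≤ l →
        Y.Bd Y.A Y.s0 (8 * CH ^ 2 * M * (3 / 4) ^ J) (fun s x => v j s x - v l s x) ∧
        Y.BdH Y.q Y.A Y.s0 (ξ * (8 * CH ^ 2 * M * (3 / 4) ^ J)) fun s x => H j s x - H l s x := by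
  have hM := hN.M_pos
  have hξ := hN.ξ_pos
  have hC := hN.CH_ge
  have hA0 := zero_le_one.trans h.A_ge
  have hη : ∀ j : ℕ, (0 : ℝ) < (1 / 2) ^ j := fun j => by positivity
  let T := {z : (ℝ → E3 → SV) × (ℝ → E3 → SV) //
    Y.Bd Y.A Y.s0 M z.1 ∧ Y.BdH (Y.q + 8) Y.A Y.s0 (ξ * M) z.2}
  choose c W W' u u' Z Z' hs using fun (j : ℕ) (z : T) =>
    exists_step hA h3 h3h h hN (hη j) z.2.1 z.2.2
  have h0 : Y.Bd Y.A Y.s0 M fun _ _ => 0 := Dat.Bd.of_hyd hA h.base (SmC.const 0)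
    (fun _ => Per.const _) (fun _ _ => map_zero _) fun _ _ => En_zero_left.le.trans hM.le
  let z : ℕ → T := fun j => Nat.rec ⟨(_, _), h0, DatH.BdH.zero (mul_pos hξ hM).le⟩
    (fun i w => ⟨(u i w, Z i w), ball hA h hN w.2.1 w.2.2 (hs i w),
      ballH hA h hN (hη i).le w.2.1 w.2.2 (hs i w)⟩) j
  refine ⟨fun j => (z j).1.1, fun j => (z j).1.2, fun j => W j (z j), fun j => W' j (z j),
    fun j => u' j (z j), fun j => Z' j (z j), fun j => c j (z j), fun j => hs j (z j),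
    fun j => (z j).2.1, fun j => (z j).2.2, fun J => ?_⟩
  have c2 : 1 ≤ CH ^ 2 := one_le_pow₀ hC
  induction J with
  | zero =>
    refine fun j l _ _ => ⟨((z j).2.1.sub hA h.base hA0 (z l).2.1).mono (by nlinarith),
      ((hN.low Y.q _ _ _ (by omega) le_rfl (z j).2.2).sub h.baseH hA0
        (hN.low Y.q _ _ _ (by omega) le_rfl (z l).2.2)).mono ?_⟩
    have := mul_le_mul_of_nonneg_right (show CH ≤ 2 * CH ^ 2 by nlinarith) (mul_pos hξ hM).le
    linarith
  | succ J ih =>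
    intro j l hj hl
    obtain ⟨j, rfl⟩ : ∃ k, j = k + 1 := ⟨j - 1, by omega⟩
    obtain ⟨l, rfl⟩ : ∃ k, l = k + 1 := ⟨l - 1, by omega⟩
    obtain ⟨d1, d2⟩ := ih j l (by omega) (by omega)
    refine ⟨(contr hA h hN (z j).2.1 (z l).2.1 (hs _ _) (hs _ _) d1 d2).2.mono (le_of_eq (by ring)),
      (contrH hA h hN (hη j).le (hη l).le (z j).2.1 (z j).2.2 (z l).2.1 (z l).2.2 (hs _ _) (hs _ _)
        d1 d2 ?_).mono (le_of_eq (by ring))⟩
    have a1 : ((1 / 2 : ℝ)) ^ j ≤ (1 / 2) ^ J :=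
      pow_le_pow_of_le_one (by norm_num) (by norm_num) (by omega)
    have a2 : ((1 / 2 : ℝ)) ^ l ≤ (1 / 2) ^ J :=
      pow_le_pow_of_le_one (by norm_num) (by norm_num) (by omega)
    have a3 : (((1 / 2 : ℝ)) ^ l - (1 / 2) ^ j) ^ 2 ≤ ((1 / 2) ^ J) ^ 2 :=
      sq_le_sq' (by linarith [hη l]) (by linarith [hη j])
    have a4 : (((1 / 2 : ℝ)) ^ J) ^ 2 ≤ (3 / 4) ^ J := by
      rw [← pow_mul, mul_comm, pow_mul]
      exact pow_le_pow_left₀ (by norm_num) (by norm_num) J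
    have := mul_le_mul_of_nonneg_left (a3.trans a4) (show 0 ≤ 8 * CH ^ 2 * M by positivity)
    linarith

theorem iter (hA : AlgStmt) (hV : VHStmt) (h3 : M3kStmt) (h3h : M3hStmt) (h : Y.Reg)
    (hN : Y.Num M C CW CH ξ ρ) {CS CK CP Ce ε : ℝ} {p : ℕ} (hp : p + 4 * dd + 4 ≤ Y.q)
    (hCS : 0 < CS) (hS : Y.Sob CS Y.s0) (hS0 : Y.SobH Y.q ρ CS Y.s0)
    (hS8 : Y.SobH (Y.q + 8) ρ CS Y.s0) (hCK : 0 < CK) (hK : Y.KBd CK Y.s0)
    (src : ∀ s x, (Y.B.fld s).src x = Y.B.k1 s x • Y.Q.L (Y.gc s x) + Y.R s x)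
    (bP : ∀ g V, |Y.Pt g V| ≤ Ce * √(ip g g) * sqM V) (n8 : 4 * Ce ^ 2 * (CS * (CW * M)) ≤ 1)
    (hCP : 0 < CP) (sup : ∀ f, PW p (CP * √(bW (p + dd + 1) (dd + 1) f)) f) (hε : 0 < ε)
    (n9 : CP ^ 2 * ((dd + 2) * (4 * CS * (CH * ((2 * CW + 2) * M)))) ≤ ε ^ 2) :
    ∃ h h' g g' e : ℕ → ℝ → E3 → SV,
      Iter Y.Q Y.B.fld (fun s x => Y.A * Y.B.k1 s x) Y.s0 ε p h h' g g' e := by
  obtain ⟨v, H, W, W', u', Z', c, hs, hv, hH, hd⟩ := exists_seq hA h3 h3h h hN
  have hM := hN.M_pos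
  have hCW := hN.CW_pos
  have hC0 := h.base.C0_pos
  have hCH := zero_lt_one.trans_le hN.CH_ge
  have hξ := hN.ξ_pos
  have hAp := zero_lt_one.trans_le h.A_ge
  have hd2 := two_le_dd
  have hn : 2 * dd + 2 ≤ Y.n := by have := h.baseH.hn; omega
  have hp' : (p : ℝ) + 4 * dd + 4 ≤ Y.q := by exact_mod_cast hp
  have sφ := fun i => hA.smC_per Y.B _ (h.base.inD i).1
  have sψ := fun i => (hA.smC_per Y.B _ (h.inD i).1).slice Y.s0
  have sW := fun j => (hs j).hyd.smd.sm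
  have sh := fun j l => sm_full h (sW j) (hv l).sm
  have ph := fun j l s => per_full h ((hs j).hyd.per s) ((hv l).per s)
  have se : ∀ j, SmC fun s x => ∑ i, (c j s i - c (j + 1) s i) • Y.B.per (Y.φ i) s x := fun j =>
    SmC.sum _ fun i _ => (SmC.of_time (by fun_prop)).smul (sφ i)
  have pe : ∀ j s, Per fun x => ∑ i, (c j s i - c (j + 1) s i) • Y.B.per (Y.φ i) s x := fun j s =>
    Per.sum _ fun i _ => (per_Bper _ _ s).map _
  have lo : ∀ {r : ℕ} {b s : ℝ} {G : ℝ → E3 → SV}, Y.SobH r ρ CS Y.s0 → Y.BdH r Y.A Y.s0 b G →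
      Y.s0 ≤ s → ∀ x, loH Y.n r (Y.B.sig s) (G s) x ≤ CS * b := fun hr hG hs' x =>
    (hr _ hs' _ (hG.sm.slice _) (hG.per _) x).2.1.trans (mul_le_mul_of_nonneg_left
      ((DatH.EH_one_le h.baseH h.A_ge _ _ _).trans (hG.ee _ hs')) hCS.le)
  have i0 : ∀ j x, Y.full (W j) (v (j + 1)) Y.s0 x + H (j + 1) Y.s0 x = Y.Pt (W j Y.s0 x) :=
    fun j x => by
      rw [full, (hs j).init, (hs j).kinH.init, sub_apply, (hs j).hyd.hyd]
      abel
  have i1 : ∀ j x, Y.full (W j) (v (j + 1)) Y.s0 x + H (j + 1) Y.s0 x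
      = ∑ i, Y.aa (c j) i • Y.Pt (Y.B.per (Y.ψ i) Y.s0 x) := fun j x => by
    simp only [i0, (hs j).hyd.init, map_sum, map_smul]
  refine ⟨fun j s x => Y.full (W j) (v (j + 1)) s x + H (j + 1) s x,
    fun j s x => Y.A⁻¹ • Y.gc' s x + (W' j s x + u' j s x) + Z' j s x,
    fun j s x => Y.full (W j) (v j) s x + H j s x,
    fun j s x => Y.full (W j) (v j) s x + H (j + 1) s x,
    fun j s x => ∑ i, (c j s i - c (j + 1) s i) • Y.B.per (Y.φ i) s x
      + Y.B.mu s x • Ds (v j s x - v (j + 1) s x)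
      + (Y.A * Y.B.k1 s x * Y.N) • Sq (H j s x - H (j + 1) s x)
      - ((1 / 2) ^ j * (Y.A * Y.B.k1 s x)) • Jw 4 (H (j + 1) s x),
    fun j => ((h.smd.const_smul _).add ((hs j).hyd.smd.add (hs j).kin.smd)).add (hs j).kinH.smd,
    fun j s => (ph j _ s).map₂ ((hH _).per s) (· + ·), fun j s i x => ?_, fun j s hs' x => ?_,
    fun j s hs' x => ?_, fun s1 η hη => ?_,
    ⟨_, _, fun i => (sψ i).clm Y.Pt, fun j => ⟨_, i1 j⟩⟩, fun j x V => ?_⟩
  · simp only [h.per' s i x, (hs j).hyd.per' s i x, (hs j).kin.per' s i x, (hs j).kinH.per' s i x]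
  · have sg := h.smd.sm.slice s
    have e1 := (hs j).kin.eqn s hs' x
    have e2 := (hs j).hyd.eqn s hs' x
    have e5 := (hs j).kinH.eqn s hs' x
    have e3 : (Y.A * Y.B.k1 s x) • Y.A⁻¹ • Y.Q.L (Y.gc s x) = Y.B.k1 s x • Y.Q.L (Y.gc s x) := by
      rw [smul_smul]; congr 1; field_simp
    have e4 : (Y.B.fld s).tr (Y.full (W j) (v (j + 1)) s) x = _ :=
      Lin.tr_add _ (sg.const_smul Y.A⁻¹).dif (((sW j).add (hv (j + 1)).sm).dif s) x
    rw [Lin.tr_add _ ((sh j (j + 1)).dif s) ((hH (j + 1)).sm.dif s), e4, Lin.tr_smul _ sg.dif,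
      Lin.tr_add _ ((sW j).dif s) ((hv (j + 1)).sm.dif s), src, eq_sub_of_add_eq e2,
      eq_sub_of_add_eq (eq_sub_of_add_eq (eq_sub_of_add_eq (eq_sub_of_add_eq e1))),
      eq_sub_of_add_eq (eq_sub_of_add_eq (eq_add_of_sub_eq e5)), map_add Y.Q.L]
    simp only [sub_smul, sum_sub_distrib, (hs (j + 1)).hc]
    rw [frc, frH, Y.Q.G_eq]
    generalize Y.full (W j) (v j) s x = G
    rw [full, map_add Y.Q.L, map_add Y.Q.L, L_hyd _ ((hs j).hyd.hyd s x), map_smul, ← e3, S1,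
      Dat.mic]
    simp only [map_add, map_sub, LinearMap.add_apply]
    module
  · have a1 := (hS0 s hs' _ ((sh j (j + 1)).slice s) (ph j _ s) x).1.trans
      (mul_le_mul_of_nonneg_left
        ((bdG_full hA h hN (hv j) (hs j).hc (hs j).hyd (hv (j + 1))).ee s hs') hCS.le)
    have a2 := lo hS0 ((hN.low Y.q _ _ _ (by omega) le_rfl (hH (j + 1))).mono hN.xi_le') hs' x
    have a3 := HE.loH_add_le (n := Y.n) (q := Y.q) (σ := Y.B.sig s) ((sh j (j + 1)).slice s)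
      ((hH (j + 1)).sm.slice s) x
    have a4 := (bW_le_lo₀ (r := p + dd + 1) (σ := Y.B.sig s) hn (by linarith) _ x).trans
      (mul_le_mul_of_nonneg_left (a3.trans (show _ ≤ 4 * CS * (CH * ((2 * CW + 2) * M)) by
        linarith)) (by positivity))
    refine PW_mono (sup _) (abs_le_of_sq_le_sq' ?_ hε.le).2
    rw [mul_pow, Real.sq_sqrt (bW_nonneg _ _ _)]
    exact (mul_le_mul_of_nonneg_left a4 (sq_nonneg CP)).trans n9
  · obtain ⟨Cp, hCp, hP⟩ := pw_ops hV p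
    obtain ⟨Kk, hKk, bk⟩ := k1_bdd h.base.ok Y.s0 s1
    set T := 2 * CW + 2 + 2 * CK * Y.m ^ 2 * ((Y.C0 / 2) ^ 2 * CK) with hT
    set E := Real.exp s1 ^ 2 * (dd + 2) * (CS * T) with hE
    set z0 := (dd + 2) * (CS * (ξ * M))
    have lim : Tendsto (fun J : ℕ =>
        (2 + Y.A * Kk * |Y.N|) * (Cp * √(E * (8 * CH ^ 2 * M * (3 / 4) ^ J)))
          + (1 / 2) ^ J * (Y.A * Kk) * (Cp * √z0)) atTop (𝓝 ((2 + Y.A * Kk * |Y.N|) *
          (Cp * √(E * (8 * CH ^ 2 * M * 0))) + 0 * (Y.A * Kk) * (Cp * √z0))) :=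
      ((((((tendsto_pow_atTop_nhds_zero_of_lt_one (by norm_num) (by norm_num)).const_mul _).const_mul
        _).sqrt).const_mul _).const_mul _).add (((tendsto_pow_atTop_nhds_zero_of_lt_one
          (by norm_num) (by norm_num)).mul_const _).mul_const _)
    obtain ⟨J, hJ⟩ := (lim.eventually (eventually_le_nhds (b := η) (by simpa using hη))).exists
    set a := 8 * CH ^ 2 * M * (3 / 4) ^ J with ha
    have a0 : 0 ≤ a := by positivity
    set y := Cp * √(E * a) with hy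
    have y0 : 0 ≤ y := by positivity
    have t1 : 0 ≤ 2 * CK * Y.m ^ 2 * ((Y.C0 / 2) ^ 2 * CK) * a := by positivity
    have t2 : 0 ≤ CW * a := by positivity
    have t3 : a ≤ T * a := by rw [hT]; linarith
    have t4 : 0 ≤ Y.A * Kk * |Y.N| * y := by positivity
    have t5 : 0 ≤ (1 / 2) ^ J * (Y.A * Kk) * (Cp * √z0) := by positivity
    refine ⟨J, fun j hj l hl s hs' x => ?_⟩
    have hs1 := h.s0_ge.trans (hs'.1.trans hs'.2)
    have k0 : ∀ G : E3 → SV, loH Y.n Y.q (Y.B.sig s) G x ≤ CS * (T * a) → ∀ u : List Ix,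
        u.length ≤ 1 → PW p y (dXw u G x) ∧ PW p y (Sq (dXw u G x)) := fun G hG u hu =>
      (hP _ _).1 ((bW_le_lo (r := p + dd + 1) hs'.2 hs1 hn (by linarith) G hu x).trans
        ((mul_le_mul_of_nonneg_left hG (by positivity)).trans (le_of_eq (by rw [hE]; ring))))
    have k1 : ∀ G : E3 → SV, Sm G → Per G → Y.EE Y.n s G G ≤ T * a → ∀ u : List Ix,
        u.length ≤ 1 → PW p y (dXw u G x) := fun G hG pG hb u hu =>
      (k0 G ((hS0 s hs'.1 G hG pG x).1.trans (mul_le_mul_of_nonneg_left hb hCS.le)) u hu).1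
    have k2 : ∀ i i', J ≤ i → J ≤ i' → ∀ u : List Ix, u.length ≤ 1 →
        PW p y (dXw u (fun x => H i s x - H i' s x) x) ∧
          PW p y (Sq (dXw u (fun x => H i s x - H i' s x) x)) := fun i i' hi hi' =>
      k0 _ (lo hS0 ((hd J i i' hi hi').2.mono
        ((mul_le_of_le_one_left a0 hN.ξ_le).trans t3)) hs'.1 x)
    have dv := (hd J j (j + 1) hj (by omega)).1
    have k3 : PW p y (v j s x - v (j + 1) s x) :=
      k1 _ (dv.sm.slice s) (dv.per s) ((dv.ee s hs'.1).trans t3) [] (by simp)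
    have k4 := k2 j (j + 1) hj (by omega) [] (by simp)
    have k5 : ∀ u : List Ix, u.length ≤ 1 → PW p η
        (dXw u (fun x => Y.full (W j) (v (j + 1)) s x + H (j + 1) s x) x
          - dXw u (fun x => Y.full (W l) (v (l + 1)) s x + H (l + 1) s x) x) := fun u hu => by
      have s1' := ((sW j).sub (sW l)).slice s
      have s2' := ((hv (j + 1)).sm.sub (hv (l + 1)).sm).slice s
      have s3' := ((hH (j + 1)).sm.sub (hH (l + 1)).sm).slice s
      have q1 := Dat.EE_add_le h.base Y.n s s1' s2'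
      have q2 := (Dat.EE_mono hA h.base (Nat.le_succ _) le_rfl s s1').trans
        ((contr hA h hN (hv j) (hv l) (hs j) (hs l) (hd J j l hj hl).1 (hd J j l hj hl).2).1 s hs'.1)
      have q3 := (hd J (j + 1) (l + 1) (by omega) (by omega)).1.ee s hs'.1
      have q4 := k1 _ (s1'.add s2') ((((hs j).hyd.per s).map₂ ((hs l).hyd.per s) (· - ·)).map₂
        (((hv _).per s).map₂ ((hv _).per s) (· - ·)) (· + ·)) (by rw [hT]; linarith) u hu
      have q5 := PW_add q4 (k2 (j + 1) (l + 1) (by omega) (by omega) u hu).1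
      have e1 := congrFun (dXw_add (s1'.add s2') s3' u) x
      have e2 := congrFun (dXw_sub (((sh j (j + 1)).add (hH (j + 1)).sm).slice s)
        (((sh l (l + 1)).add (hH (l + 1)).sm).slice s) u) x
      have e3 : (fun x => Y.full (W j) (v (j + 1)) s x + H (j + 1) s x
          - (Y.full (W l) (v (l + 1)) s x + H (l + 1) s x)) = fun x => W j s x - W l s x
            + (v (j + 1) s x - v (l + 1) s x) + (H (j + 1) s x - H (l + 1) s x) :=
        funext fun x => by simp only [full]; abel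
      rw [← e2, e3, e1]
      exact PW_mono q5 (by linarith)
    refine ⟨k5 [] (by simp), fun i => k5 [i] (by simp), ?_, ?_, ?_⟩
    · have e : Y.full (W j) (v j) s x + H j s x - (Y.full (W j) (v (j + 1)) s x + H (j + 1) s x)
          = v j s x - v (j + 1) s x + (H j s x - H (j + 1) s x) := by simp only [full]; abel
      rw [e]
      exact PW_mono (PW_add k3 k4.1) (by linarith)
    · have e : Y.full (W j) (v j) s x + H (j + 1) s x
          - (Y.full (W j) (v (j + 1)) s x + H (j + 1) s x) = v j s x - v (j + 1) s x := by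
        simp only [full]; abel
      rw [e]
      exact PW_mono k3 (by linarith)
    · have b1 := k1 _ ((se j).slice s) (pe j s) ((Dat.EE_fin hA h.base hCK.le hK h.s0_ge hs'.1
        (D := Y.C0 / 2 * √(CK * a)) (by positivity) fun i => by
          rw [(hs j).hc, (hs (j + 1)).hc,
            ← Dat.cc_sub hA h.base s ((hv j).sm.slice s) ((hv (j + 1)).sm.slice s)]
          exact Dat.cc_bd hA h.base hCK.le hK le_rfl dv hs'.1 i).trans (by
          rw [mul_pow, Real.sq_sqrt (by positivity), hT]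
          linarith)) [] (by simp)
      have b2 : PW p y (Ds (v j s x - v (j + 1) s x)) := by
        refine (hP _ _).2.2 ?_
        have := Dat.small_of (L := 0) (N := dd + 1) (u := []) hS h.s0_ge hs' (by omega)
          (dv.sm.slice s) (dv.per s) le_rfl x
        rw [mul_zero, pow_zero, one_mul] at this
        refine (this.trans (mul_le_mul_of_nonneg_left ((dv.ee s hs'.1).trans t3) hCS.le)).trans ?_
        have e1 : 1 ≤ Real.exp s1 ^ 2 * (dd + 2) :=
          one_le_mul_of_one_le_of_one_le (one_le_pow₀ (Real.one_le_exp hs1)) (by linarith [dr_pos])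
        have := mul_le_mul_of_nonneg_right e1 (mul_nonneg hCS.le (a0.trans t3))
        rw [hE]
        linarith
      have b3 : PW p (Cp * √z0) (Jw 4 (H (j + 1) s x)) := (hP _ _).2.1
        ((bW_le_lo₀ (σ := Y.B.sig s) hn (by push_cast; linarith) _ x).trans
          (mul_le_mul_of_nonneg_left (lo hS8 (hH (j + 1)) hs'.1 x) (by positivity)))
      have c1 : |Y.B.mu s x| ≤ 1 := by
        rw [abs_of_pos (Lin.mu_pos _ s x)]; exact Lin.mu_le_one _ h.base.ok s x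
      have c2 : |Y.A * Y.B.k1 s x| ≤ Y.A * Kk := by
        rw [abs_mul, abs_of_pos hAp]; exact mul_le_mul_of_nonneg_left (bk s hs' x) hAp.le
      have c3 : |Y.A * Y.B.k1 s x * Y.N| ≤ Y.A * Kk * |Y.N| := by
        rw [abs_mul]; exact mul_le_mul_of_nonneg_right c2 (abs_nonneg _)
      have c4 : |(1 / 2 : ℝ) ^ j * (Y.A * Y.B.k1 s x)| ≤ (1 / 2) ^ J * (Y.A * Kk) := by
        rw [abs_mul, abs_of_pos (by positivity)]
        exact mul_le_mul (pow_le_pow_of_le_one (by norm_num) (by norm_num) hj) c2 (abs_nonneg _)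
          (by positivity)
      exact PW_mono (PW_sub (PW_add (PW_add b1 (PW_smul b2 c1)) (PW_smul k4.2 c3)) (PW_smul b3 c4))
        (by linarith)
  · have sW0 := (sW j).slice Y.s0
    have q1 := (ip_le_bb (n := 0) (σ := Y.B.sig Y.s0) zero_le_one x).trans
      ((hS _ le_rfl 0 _ (by omega) sW0 ((hs j).hyd.per _) x).1.trans (mul_le_mul_of_nonneg_left
        ((Dat.EE_mono hA h.base (Nat.le_succ _) le_rfl _ sW0).trans
          (hN.hydro M _ _ _ _ (hv j) (hs j).hc (hs j).hyd _ le_rfl)) hCS.le))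
    simp only [i0]
    refine (bP _ V).trans (mul_le_mul_of_nonneg_right ?_ (sqM_pos V).le)
    refine abs_le_of_sq_le_sq' ?_ (by norm_num) |>.2
    rw [mul_pow, Real.sq_sqrt (ip_self_nonneg _)]
    linarith [mul_le_mul_of_nonneg_left q1 (sq_nonneg Ce)]

end It

end Pool.Agent.BoltzM.Pic
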