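import Pool.Agent.BoltzM.Pic.Bd

/-! The estimate for one step of the iteration. -/

set_option autoImplicit false

open Pool.Agent.BoltzM.BoltzC Finset

noncomputable section

namespace Pool.Agent.BoltzM.Pic

variable [Dim]

open KK (bb_nonneg continuous_bb)

open Filter Topology in
lemma ev_exp {ρ : ℝ} (hρ : 0 < ρ) (a : ℝ) {b : ℝ} (hb : 0 < b) :
    ∀ᶠ s in atTop, a * Real.exp (-ρ * s) ≤ b := by
  have : Tendsto (fun s : ℝ => a * Real.exp (-ρ * s)) atTop (𝓝 (a * 0)) :=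
    (Real.tendsto_exp_atBot.comp (tendsto_id.const_mul_atTop_of_neg (neg_neg_of_pos hρ))).const_mul a
  exact this.eventually (ge_mem_nhds (by simpa using hb))

namespace Dat

variable (X : Dat)

/-- Pointwise bounds by the energy. -/
def Sob (CS s1 : ℝ) : Prop :=
  ∀ s, s1 ≤ s → ∀ (N : ℕ) (G : E3 → SV), N + dd ≤ X.n → Sm G → Per G → ∀ x,
    bb N 1 (X.B.sig s) G G x ≤ CS * X.EE X.n s G G ∧
    X.B.k1 s x * bb N 1 (X.B.sig s) G G x
      ≤ CS * Real.exp ((X.B.kap - 2 * X.δ) * s) * X.EE X.n s G G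

/-- A source that is controlled through the energy integrated against the rate. -/
def SrcV (s0 b : ℝ) (S : ℝ → E3 → SV) : Prop :=
  SmC S ∧ ∃ r : ℝ → ℝ, Continuous r ∧ (∀ s, 0 ≤ r s) ∧ ∀ s, s0 ≤ s → (∫ t in s0..s, r t) ≤ b ∧
    ∀ t : ℝ, 0 < t → ∀ u, Sm u → 2 * X.EE X.n s (S s) u ≤ t * X.MM s u + t⁻¹ * r s

/-- The estimate for the solution of the linear problem with a quadratic forcing. -/
def StepEst (gc : ℝ → E3 → SV) (ρ C A0 s3 : ℝ) : Prop :=
  ∀ (A s0 l1 l2 a1 a2 b f b2 : ℝ) (V1 V2 W S1 S2 u u' : ℝ → E3 → SV), A0 ≤ A → 1 ≤ A → s3 ≤ s0 →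
    A * Real.exp (-ρ * s0) ≤ 1 → l1 ^ 2 ≤ a1 → l2 ^ 2 ≤ a2 → X.Bd A s0 a1 V1 → X.Bd A s0 a2 V2 →
    SmC W → (∀ s x, PP (W s x) = W s x) → (∀ s, s0 ≤ s → X.EE (X.n + 1) s (W s) (W s) ≤ b) →
    SmC S1 → (∀ s, s0 ≤ s → X.EE X.n s (S1 s) (S1 s) ≤ f * Real.exp (-2 * ρ * s)) →
    X.SrcV s0 b2 S2 →
    X.Kin A s0 u u' (fun s x => S1 s x + (A * X.B.k1 s x / 2) •
      X.Q.G (l1 • gc s x + V1 s x) (l2 • gc s x + V2 s x) - X.mic s (W s) x + S2 s x) →
    X.Bd A s0 (C * (X.EE X.n s0 (u s0) (u s0) + (f + b) * Real.exp (-ρ * s0) + a1 * a2 + b2)) u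

variable {X}

lemma slow_mono {K K' : ℝ} {σ a : E3 → ℝ} (h : Slow K σ a) (hK : K ≤ K') : Slow K' σ a :=
  ⟨h.sm, h.per, h.pos, fun i x => (h.bd i x).trans (mul_le_mul_of_nonneg_right hK (h.pos x).le)⟩

theorem sob_at (hA : AlgStmt) (hS : SobStmt) (h : X.Base) (hn : dd ≤ X.n) :
    ∃ CS s1 : ℝ, 0 < CS ∧ 0 ≤ s1 ∧ X.Sob CS s1 := by
  obtain ⟨K, lam, s1, -, hs1, H⟩ := h.ok.hyp
  obtain ⟨Ck, hCk, hw⟩ := wt_facts h.ok
  obtain ⟨Sg, -, hSg⟩ := Lin.sig_le _ h.ok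
  obtain ⟨C, hC, hS⟩ := hS (max (K 1) Sg) (X.n - dd) X.θ h.θ_pos h.θ_le
  refine ⟨Ck * C, s1, by positivity, hs1, fun s hs N G hN hG pG x => ?_⟩
  have key : ∀ a, 0 ≤ a → a ≤ X.B.eta → X.B.sig s x ^ dd * X.B.om a s x * bb N 1 (X.B.sig s) G G x
      ≤ C * X.B.E X.n X.θ a s G G := fun a ha ha1 => by
    have h3 := (H s hs).2.2.1 a ha ha1
    have := hS _ _ G (slow_mono h3.hω (le_max_left _ _)) (slow_mono h3.hσ (le_max_left _ _))
      (fun y => (hSg s (hs1.trans hs) y).trans (le_max_right _ _)) hG pG x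
    rw [Nat.sub_add_cancel hn] at this
    refine le_trans (mul_le_mul_of_nonneg_left
      (hA.mono _ _ _ _ _ _ (by omega) zero_le_one le_rfl x) ?_) this
    exact (mul_pos (pow_pos (Lin.sig_pos _ s x) _) (Lin.om_pos _ _ _ _)).le
  obtain ⟨-, -, w3, w4⟩ := hw s (hs1.trans hs) x
  have hb := bb_nonneg (n := N) (σ := X.B.sig s) (G := G) zero_le_one x
  have e0 := E_nonneg h X.n 0 s G
  have e1 := E_nonneg h X.n X.B.eta s G
  have hp := Real.exp_pos (2 * X.δ * s)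
  rw [EE_eq h _ _ hG hG]
  constructor
  · have a1 := mul_le_mul_of_nonneg_right w3 hb
    have a2 := mul_le_mul_of_nonneg_left (key 0 le_rfl h.ok.eta_pos.le) hCk.le
    have a3 : 0 ≤ Ck * C * (Real.exp (2 * X.δ * s) * X.B.E X.n X.θ X.B.eta s G G) := by positivity
    linarith
  · have a1 := mul_le_mul_of_nonneg_right w4 hb
    have a2 := mul_le_mul_of_nonneg_left (key _ h.ok.eta_pos.le le_rfl)
      (show 0 ≤ Ck * Real.exp (X.B.kap * s) by positivity)
    have a3 : 0 ≤ Ck * C * Real.exp ((X.B.kap - 2 * X.δ) * s) * X.B.E X.n X.θ 0 s G G := by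
      positivity
    have e : Real.exp (X.B.kap * s)
        = Real.exp ((X.B.kap - 2 * X.δ) * s) * Real.exp (2 * X.δ * s) := by
      rw [← Real.exp_add]; congr 1; ring
    rw [e] at a1 a2
    linarith

lemma nl_le (hA : AlgStmt) (h : X.Base) {A s l e α CS Cd CY : ℝ} {d : ℕ} (hA0 : 0 ≤ A)
    (hd0 : 0 ≤ Cd) (hY0 : 0 ≤ CY) {G g V : E3 → SV} (hG : Sm G) (hg : Sm g) (hV : Sm V)
    (h1 : ∀ x, X.lo s G x ≤ CS * e) (h2 : ∀ x, X.B.k1 s x * X.lo s G x ≤ α * e)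
    (hd : ∀ x, YY X.Q X.n X.θ (X.B.sig s) g x ≤ Cd * bb (X.n + d) 1 (X.B.sig s) g g x)
    (hY : ∀ x, YY X.Q X.n X.θ (X.B.sig s) V x
      ≤ CY * (bb X.n X.θ (X.B.sig s) V V x + yy X.Q X.n X.θ (X.B.sig s) V x)) :
    tint (fun x => X.om s x *
        (A * X.B.k1 s x * X.lo s G x * YY X.Q X.n X.θ (X.B.sig s) (fun y => l • g y + V y) x))
      ≤ 2 * A * (α * e) * (l ^ 2 * Cd * En (X.n + d) 1 (X.om s) (X.B.sig s) g g
        + CY * X.EE X.n s V V) + 2 * (CS * e) * CY * X.DD A s V := by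
  have c1 := cont_wbb (n := X.n + d) (θ := 1) (h.c_om s) (h.c_sig s) hg hg
  have c2 := cont_wbb (n := X.n) (θ := X.θ) (h.c_om s) (h.c_sig s) hV hV
  rw [EE, En, En, ← tint_const_mul, ← tint_const_mul CY,
    ← tint_add (continuous_const.fun_mul c1) (continuous_const.fun_mul c2)]
  refine tint_le_two (c_nl hA h A s hG ((hg.const_smul l).add hV))
    ((continuous_const.fun_mul c1).fun_add (continuous_const.fun_mul c2)) (c_DD hA h A s hV)
    fun x => ?_
  have hk := (k1_pos h.ok s x).le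
  have hω := (om_pos (X := X) s x).le
  have y1 := hA.YY_add X.Q X.n X.θ (X.B.sig s) _ _ h.θ_pos.le (hg.const_smul l) hV x
  rw [hA.YY_smul _ _ _ _ _ _ hg] at y1
  have y2 := mul_le_mul_of_nonneg_left (hd x) (sq_nonneg l)
  have b1 := bb_nonneg (n := X.n + d) (σ := X.B.sig s) (G := g) zero_le_one x
  have b2 := bb_nonneg (n := X.n) (σ := X.B.sig s) (G := V) h.θ_pos.le x
  have b3 := yy_nonneg hA h s V x
  have b4 : 0 ≤ X.lo s G x := bb_nonneg zero_le_one x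
  have y3 := mul_le_mul_of_nonneg_left (show YY X.Q X.n X.θ (X.B.sig s) (fun y => l • g y + V y) x
    ≤ 2 * (l ^ 2 * Cd * bb (X.n + d) 1 (X.B.sig s) g g x + CY * bb X.n X.θ (X.B.sig s) V V x)
      + 2 * CY * yy X.Q X.n X.θ (X.B.sig s) V x by linarith [hY x])
    (show 0 ≤ X.om s x * (A * X.B.k1 s x * X.lo s G x) by positivity)
  have y4 := mul_le_mul_of_nonneg_left (h2 x) (show 0 ≤ X.om s x * A * (2 * (l ^ 2 * Cd *
    bb (X.n + d) 1 (X.B.sig s) g g x + CY * bb X.n X.θ (X.B.sig s) V V x)) by positivity)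
  have y5 := mul_le_mul_of_nonneg_left (h1 x) (show 0 ≤ X.om s x * (A * X.B.k1 s x) *
    (2 * CY * yy X.Q X.n X.θ (X.B.sig s) V x) by positivity)
  linarith

lemma gron2 {E E' D D1 D2 R : ℝ → ℝ} {ρ s0 c P C a1 a2 b2 s : ℝ} (hρ : 0 < ρ) (hs0 : 0 ≤ s0) (hc : 0 < c)
    (hP : 0 ≤ P) (hC : 0 ≤ C) (ha1 : 0 ≤ a1) (ha2 : 0 ≤ a2) (cE : Continuous E') (cD : Continuous D)
    (cD1 : Continuous D1) (cD2 : Continuous D2) (dE : ∀ s, HasDerivAt E (E' s) s)
    (hE : ∀ s, 0 ≤ E s) (hD : ∀ s, 0 ≤ D s) (hD1 : ∀ s, 0 ≤ D1 s) (hD2 : ∀ s, 0 ≤ D2 s)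
    (hs : s0 ≤ s) (i1 : ∫ t in s0..s, D1 t ≤ a1) (i2 : ∫ t in s0..s, D2 t ≤ a2)
    (cR : Continuous R) (hR : ∀ s, 0 ≤ R s) (i3 : ∫ t in s0..s, R t ≤ b2)
    (main : ∀ s, s0 ≤ s → E' s + c / 2 * D s ≤ ρ * Real.exp (-ρ * s) * E s
      + (P * Real.exp (-ρ * s) + C * (a1 * D2 s + a2 * D1 s) + c⁻¹ * R s)) :
    E s + c / 2 * ∫ t in s0..s, D t
      ≤ 3 * E s0 + 3 * (P * (Real.exp (-ρ * s0) * ρ⁻¹) + 2 * C * (a1 * a2) + c⁻¹ * b2) := by
  have g := gronwall hρ hs0 cE (D := fun s => c / 2 * D s) (by fun_prop) (by fun_prop) dE hE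
    (fun s => mul_nonneg (by positivity) (hD s))
    (fun s _ => by have := hD1 s; have := hD2 s; have := hR s; positivity) main hs
  rw [intervalIntegral.integral_const_mul, intervalIntegral.integral_add
    (Continuous.intervalIntegrable (by fun_prop) _ _)
    (Continuous.intervalIntegrable (by fun_prop) _ _), intervalIntegral.integral_add
    (Continuous.intervalIntegrable (by fun_prop) _ _)
    (Continuous.intervalIntegrable (by fun_prop) _ _), intervalIntegral.integral_const_mul,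
    intervalIntegral.integral_const_mul, intervalIntegral.integral_const_mul,
    intervalIntegral.integral_add
    (Continuous.intervalIntegrable (by fun_prop) _ _)
    (Continuous.intervalIntegrable (by fun_prop) _ _), intervalIntegral.integral_const_mul,
    intervalIntegral.integral_const_mul] at g
  have g1 := mul_le_mul_of_nonneg_left (integral_exp_le (s0 := s0) (s := s) hρ) hP
  have g2 := mul_le_mul_of_nonneg_left (add_le_add (mul_le_mul_of_nonneg_left i2 ha1)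
    (mul_le_mul_of_nonneg_left i1 ha2)) hC
  have g3 := mul_le_mul_of_nonneg_left i3 (inv_pos.2 hc).le
  rw [div_eq_mul_inv] at g1
  linarith

theorem step_est (hA : AlgStmt) (hG : GamStmt) (h : X.Base) (hn : X.n / 2 + X.Q.p + dd ≤ X.n)
    {c A0 s2 CS ρ CL β : ℝ} (hc : 0 < c) (hs2 : 0 ≤ s2) (hL : X.LinEst c A0 s2 CL β) (hCS : 0 < CS)
    (hS : X.Sob CS s2) (hρ : 0 < ρ) (hρ1 : ρ ≤ 2 * X.δ - X.B.kap) (hρ2 : ρ ≤ min X.B.kap X.B.r)
    (hρ3 : ρ < β) {gc : ℝ → E3 → SV}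
    (sg : SmC gc) (pg : ∀ s, Per (gc s))
    (bg : ∀ n, ∃ Cg, 0 < Cg ∧ ∀ s, 0 ≤ s → En n 1 (X.om s) (X.B.sig s) (gc s) (gc s) ≤ Cg) :
    ∃ C s3, 0 < C ∧ s2 ≤ s3 ∧ X.StepEst gc ρ C A0 s3 := by
  obtain ⟨K, lam, s1, -, hs1, H⟩ := h.ok.hyp
  obtain ⟨Ck, hCk, hw⟩ := wt_facts h.ok
  obtain ⟨CM, hCM, hM⟩ := hA.mic_tr K X.n X.θ h.θ_pos h.θ_le
  obtain ⟨CG, hCG, hG⟩ := hG X.Q K X.n X.θ h.θ_pos h.θ_le
  obtain ⟨CY, hCY, hY⟩ := hA.YY_le_bb_yy X.Q X.n
  obtain ⟨d, Cd, hCd, hd⟩ := hA.YY_le_bb X.Q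
  obtain ⟨Cg, hCg, bg⟩ := bg (X.n + d)
  obtain ⟨s4, hs4⟩ := Filter.eventually_atTop.1 (ev_exp (sub_pos.2 hρ3) CL (half_pos hρ))
  set C2 := 4 * (CM * Ck) / c
  set C3 := 2 * CG ^ 2 / c
  set C4 := C3 * (4 * CS * (2 * Cg + 2) * (Cd * Cg + CY)) with hC4
  set C5 := C3 * (2 * CS * (2 * Cg + 2) * CY) with hC5
  have p2 : 0 < C2 := by positivity
  have p3 : 0 < C3 := by positivity
  have p4 : 0 < C4 := by positivity
  have p5 : 0 < C5 := by positivity
  set C6 := 3 * (1 + 2 * ρ⁻¹ * ρ⁻¹ + C2 * ρ⁻¹ + C4 * ρ⁻¹ + 2 * C5 + c⁻¹) with hC6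
  refine ⟨(1 + 2 / c) * C6, max (max s1 s4) s2, by positivity, le_max_right _ _, ?_⟩
  intro A s0 l1 l2 a1 a2 b f b2 V1 V2 W S1 S2 u u' hA0 hA1 hs0 hAs hl1 hl2 hV1 hV2 sW hyd bW sS bS
    ⟨sS2, R, cR, hR0, hR⟩ hu
  have hb2 : 0 ≤ b2 := by simpa using (hR s0 le_rfl).1
  have hAp : 0 < A := by linarith
  have hs00 : 0 ≤ s0 := hs2.trans ((le_max_right _ _).trans hs0)
  have ha1 := hV1.nonneg h
  have ha2 := hV2.nonneg h
  have hb : 0 ≤ b := (EE_nonneg h _ _ _).trans (bW s0 le_rfl)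
  have hf : 0 ≤ f := nonneg_of_mul_nonneg_left ((EE_nonneg h _ _ _).trans (bS s0 le_rfl))
    (Real.exp_pos _)
  obtain ⟨E', cE, dE, hE⟩ := hL A s0 u u' _ hA0 ((le_max_right _ _).trans hs0) hu
  have cD := cont_DD hA h A hu.smd.sm
  have cD1 := cont_DD hA h A hV1.sm
  have cD2 := cont_DD hA h A hV2.sm
  set P := 2 * ρ⁻¹ * f + C2 * b + C4 * A * (a1 * a2) with hP
  have hP0 : 0 ≤ P := by positivity
  have main : ∀ s, s0 ≤ s → E' s + c / 2 * X.DD A s (u s)
      ≤ ρ * Real.exp (-ρ * s) * X.EE X.n s (u s) (u s) + (P * Real.exp (-ρ * s)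
        + C5 * (a1 * X.DD A s (V2 s) + a2 * X.DD A s (V1 s)) + c⁻¹ * R s) := fun s hs => by
    have t0 := hs00.trans hs
    have t1 : s1 ≤ s := (le_max_left _ _).trans ((le_max_left _ _).trans (hs0.trans hs))
    have t4 : s4 ≤ s := (le_max_right _ _).trans ((le_max_left _ _).trans (hs0.trans hs))
    have t2 : s2 ≤ s := (le_max_right _ _).trans (hs0.trans hs)
    have su := hu.smd.sm.slice s
    have sg := sg.slice s
    have sk := h.ok.sm_k1.slice s
    have s1' := (sg.const_smul l1).add (hV1.sm.slice s)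
    have s2' := (sg.const_smul l2).add (hV2.sm.slice s)
    have s3' : Sm fun x => (A * X.B.k1 s x / 2) •
        X.Q.G (l1 • gc s x + V1 s x) (l2 • gc s x + V2 s x) :=
      Sm.smul (by simpa only [div_eq_mul_inv, smul_eq_mul] using
        (sk.const_smul A).mul (Sm.const (2 : ℝ)⁻¹)) (Sm.bilin _ X.Q.cont s1' s2')
    have hx := Real.exp_pos (-ρ * s)
    have e0 := hE s hs
    have e0' : CL * Real.exp (-β * s) * X.EE X.n s (u s) (u s)
        ≤ ρ / 2 * Real.exp (-ρ * s) * X.EE X.n s (u s) (u s) := by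
      refine mul_le_mul_of_nonneg_right (le_trans (le_of_eq ?_)
        (mul_le_mul_of_nonneg_right (hs4 s t4) hx.le)) (EE_nonneg h _ _ _)
      rw [mul_assoc, ← Real.exp_add]
      congr 2
      ring
    have e6 := (hR s hs).2 c hc _ su
    rw [EE, EE, En_add_left (h.c_om s) (h.c_sig s)
      (((sS.slice s).add s3').sub ((sm_mic hA h sW).slice s)) (sS2.slice s) su,
      En_sub_left (h.c_om s) (h.c_sig s) ((sS.slice s).add s3') ((sm_mic hA h sW).slice s) su,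
      En_add_left (h.c_om s) (h.c_sig s) (sS.slice s) s3' su] at e0
    have e1 := force_one h s (mul_pos (half_pos hρ) hx) (sS.slice s) su
    have e1' : (ρ / 2 * Real.exp (-ρ * s))⁻¹ * X.EE X.n s (S1 s) (S1 s)
        ≤ 2 * ρ⁻¹ * f * Real.exp (-ρ * s) := by
      refine (mul_le_mul_of_nonneg_left (bS s hs) (by positivity)).trans (le_of_eq ?_)
      rw [show -2 * ρ * s = -ρ * s + -ρ * s by ring, Real.exp_add]
      field_simp
    have hxk : Real.exp (-min X.B.kap X.B.r * s) ≤ Real.exp (-ρ * s) :=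
      Real.exp_le_exp.2 (mul_le_mul_of_nonneg_right (by linarith) t0)
    have e2 := force_mic hA h s hc (D := CM * Ck * Real.exp (-ρ * s)) (by positivity) hA1
      (sW.slice s) su fun x => by
        refine (hM _ _ _ _ (h.ok.fldC.reg s) (H s t1).1 (Lin.sig_pos _ s) (Lin.mu_pos _ s)
          (sW.slice s) (hyd s) x).trans
          (mul_le_mul_of_nonneg_right ?_ (bb_nonneg h.θ_pos.le x))
        have := k1_pos h.ok s x
        calc CM * X.B.mu s x ^ 2
            ≤ CM * (Ck * Real.exp (-min X.B.kap X.B.r * s) * X.B.k1 s x) := by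
              gcongr; exact (hw s t0 x).2.1
          _ ≤ CM * (Ck * Real.exp (-ρ * s) * X.B.k1 s x) := by gcongr
          _ = _ := by ring
    have e2' : 4 * (CM * Ck * Real.exp (-ρ * s)) / c * X.EE (X.n + 1) s (W s) (W s)
        ≤ C2 * b * Real.exp (-ρ * s) :=
      (mul_le_mul_of_nonneg_left (bW s hs) (by positivity)).trans (le_of_eq (by simp only [C2]; ring))
    have e3 := force_gam hA h s hc hAp s1' s2' su (hG _ _ _ _ _ (sk.const_smul A) s1' s2' su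
      (Lin.sig_pos _ s) (fun x => (mul_pos hAp (k1_pos h.ok s x)).le)
      (symBd_mul sk (H s t1).2.1 hAp.le))
    have nl : ∀ {l l' a a' : ℝ} {V V' : ℝ → E3 → SV}, l ^ 2 ≤ a → l' ^ 2 ≤ a' → X.Bd A s0 a V →
        X.Bd A s0 a' V' → C3 * tint (fun x => X.om s x * (A * X.B.k1 s x *
          X.lo s (fun y => l • gc s y + V s y) x *
          YY X.Q X.n X.θ (X.B.sig s) (fun y => l' • gc s y + V' s y) x))
        ≤ C4 / 2 * A * (a * a') * Real.exp (-ρ * s) + C5 * (a * X.DD A s (V' s)) := by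
      intro l l' a a' V V' hl hl' hV hV'
      have ha := hV.nonneg h
      have ha' := hV'.nonneg h
      have sG := (sg.const_smul l).add (hV.sm.slice s)
      have b0 := bg s t0
      have b1 : X.EE X.n s (fun y => l • gc s y + V s y) (fun y => l • gc s y + V s y)
          ≤ (2 * Cg + 2) * a := by
        have q1 := EE_add_le h X.n s (sg.const_smul l) (hV.sm.slice s)
        rw [EE, EE, En_smul_smul sg] at q1
        have q2 := mul_le_mul hl ((EE_mono hA h (Nat.le_add_right _ d) h.θ_le s sg).trans b0)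
          (EE_nonneg h _ _ _) ha
        have q3 := hV.ee s hs
        unfold EE at *
        linarith
      have b2 := hS s t2 _ _ hn sG (((pg s).map _).map₂ (hV.per s) (· + ·))
      have hxd : Real.exp ((X.B.kap - 2 * X.δ) * s) ≤ Real.exp (-ρ * s) :=
        Real.exp_le_exp.2 (mul_le_mul_of_nonneg_right (by linarith) t0)
      have b3 := nl_le (l := l') (e := (2 * Cg + 2) * a) (α := CS * Real.exp (-ρ * s)) hA h hAp.le
        hCd.le hCY.le sG sg (hV'.sm.slice s)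
        (fun x => (b2 x).1.trans (mul_le_mul_of_nonneg_left b1 hCS.le))
        (fun x => (b2 x).2.trans (mul_le_mul (mul_le_mul_of_nonneg_left hxd hCS.le) b1
          (EE_nonneg h _ _ _) (by positivity)))
        (hd _ _ _ _ h.θ_pos.le h.θ_le) (hY _ _ _ h.θ_pos.le (hV'.sm.slice s))
      have b4 : l' ^ 2 * Cd * En (X.n + d) 1 (X.om s) (X.B.sig s) (gc s) (gc s)
          + CY * X.EE X.n s (V' s) (V' s) ≤ a' * Cd * Cg + CY * a' := by
        have := En_nonneg (n := X.n + d) (σ := X.B.sig s) (G := gc s) zero_le_one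
          fun x => (om_pos (X := X) s x).le
        gcongr
        exact hV'.ee s hs
      have b5 := mul_le_mul_of_nonneg_left b4
        (show 0 ≤ 2 * A * (CS * Real.exp (-ρ * s) * ((2 * Cg + 2) * a)) by positivity)
      refine (mul_le_mul_of_nonneg_left (b3.trans (add_le_add b5 le_rfl)) p3.le).trans (le_of_eq ?_)
      rw [hC4, hC5]
      ring
    have e4 := nl hl1 hl2 hV1 hV2
    have e5 := nl hl2 hl1 hV2 hV1
    rw [hP]
    unfold EE at *
    linarith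
  have fin : ∀ s, s0 ≤ s → X.EE X.n s (u s) (u s) + c / 2 * ∫ t in s0..s, X.DD A t (u t)
      ≤ C6 * (X.EE X.n s0 (u s0) (u s0) + (f + b) * Real.exp (-ρ * s0) + a1 * a2 + b2) :=
    fun s hs => by
    have g := gron2 hρ hs00 hc hP0 p5.le ha1 ha2 cE cD cD1 cD2 dE (fun s => EE_nonneg h _ _ _)
      (fun s => DD_nonneg hA h hAp.le _ _) (fun s => DD_nonneg hA h hAp.le _ _)
      (fun s => DD_nonneg hA h hAp.le _ _) hs (hV1.di s hs) (hV2.di s hs) cR hR0 (hR s hs).1 main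
    have g3 := mul_le_mul_of_nonneg_left hAs (show 0 ≤ C4 * ρ⁻¹ * (a1 * a2) by positivity)
    have hx := Real.exp_pos (-ρ * s0)
    have hE0 := EE_nonneg h X.n s0 (u s0)
    set E0 := X.EE X.n s0 (u s0) (u s0)
    set x := Real.exp (-ρ * s0)
    set r := ρ⁻¹
    have hr : 0 < r := inv_pos.2 hρ
    have g4 : 0 ≤ (2 * r * r + C2 * r + C4 * r + 2 * C5 + c⁻¹) * E0
        + (1 + C2 * r + C4 * r + 2 * C5 + c⁻¹) * (f * x)
        + (1 + 2 * r * r + C4 * r + 2 * C5 + c⁻¹) * (b * x)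
        + (1 + 2 * r * r + C2 * r + c⁻¹) * (a1 * a2)
        + (1 + 2 * r * r + C2 * r + C4 * r + 2 * C5) * b2 := by
      positivity
    rw [hP] at g
    rw [hC6]
    linarith
  have hI : ∀ s, s0 ≤ s → 0 ≤ ∫ t in s0..s, X.DD A t (u t) := fun s hs =>
    intervalIntegral.integral_nonneg hs fun t _ => DD_nonneg hA h hAp.le _ _
  have hR := (add_nonneg (EE_nonneg h _ _ _) (mul_nonneg (by positivity) (hI s0 le_rfl))).trans
    (fin s0 le_rfl)
  refine ⟨hu.smd.sm, hu.per, fun s hs => ?_, fun s hs => ?_⟩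
  · have := mul_nonneg (show 0 ≤ c / 2 by positivity) (hI s hs)
    have := mul_nonneg (show 0 ≤ 2 / c by positivity) hR
    linarith [fin s hs]
  · have h1 := mul_le_mul_of_nonneg_left (show c / 2 * ∫ t in s0..s, X.DD A t (u t) ≤ _ from
      le_trans (le_add_of_nonneg_left (EE_nonneg h _ _ _)) (fin s hs))
      (show 0 ≤ 2 / c by positivity)
    rw [← mul_assoc, show 2 / c * (c / 2) = 1 by field_simp, one_mul] at h1
    linarith

end Dat

end Pool.Agent.BoltzM.Pic
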